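import Pool.Agent.CMK.Base
import Pool.Agent.CMG.SMisc

/-!
# K08: the norm in an imaginary quadratic field

`Gal(k/ℚ) = {1, c}` (`IsGalois ℚ k` as `k/ℚ` is quadratic: `Algebra.IsQuadraticExtension`,
`IsGalois.card_aut_eq_finrank`), `Algebra.norm_eq_prod_automorphisms` gives
`N(a) = a c(a)`; the norm is `≥ 0` since `k` is totally complex (choose `φ : k →+* ℂ`; `φ (c a)` is the
complex conjugate of `φ a` because `conj ∘ φ` is an embedding different from `φ`, or use
`Complex` absolute values: `nrm_eq_of` in `CMG/SMisc.lean` gives `nrm a = ‖φ a‖ ^ 2` for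
`Algebra k ℂ := φ.toAlgebra`), and `nrm a = |N(a)|` (`Ideal.absNorm_span_singleton`).
-/

set_option autoImplicit false

noncomputable section

open NumberField Module Pool.Agent.StarkRQ Pool.Agent.CMG

namespace Pool.Agent.CMK

theorem mul_cj {k : Type} [Field k] [NumberField k] (hk : finrank ℚ k = 2) [IsTotallyComplex k]
    {c : k ≃ₐ[ℚ] k} (hc : c ≠ 1) (a : 𝓞 k) : a * cj c a = (nrm a : 𝓞 k) := by
  classical
  obtain ⟨φ⟩ : Nonempty (k →+* ℂ) := by
    have h1 : Fintype.card (k →+* ℂ) = 2 := by rw [NumberField.Embeddings.card k ℂ, hk]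
    exact Fintype.card_pos_iff.1 (by omega)
  let _ : Algebra k ℂ := φ.toAlgebra
  have h0 : (nrm a : ℝ) = ‖φ (a : k)‖ ^ 2 := nrm_eq_of hk inferInstance a
  -- the conjugate embedding is `φ ∘ c`
  have h1 : φ.comp (c : k →+* k) ≠ φ := by
    intro h
    apply hc
    ext x
    exact φ.injective (RingHom.congr_fun h x)
  have h2 : ComplexEmbedding.conjugate φ ≠ φ := by
    intro h
    have h3 : ComplexEmbedding.IsReal φ := h
    exact InfinitePlace.not_isReal_iff_isComplex.2 (IsTotallyComplex.isComplex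
      (InfinitePlace.mk φ)) (InfinitePlace.isReal_mk_iff.2 h3)
  have h3 : ComplexEmbedding.conjugate φ = φ.comp (c : k →+* k) := by
    by_contra h
    have h4 : ({ComplexEmbedding.conjugate φ, φ.comp (c : k →+* k), φ} :
        Finset (k →+* ℂ)).card = 3 := by
      rw [Finset.card_eq_three]
      exact ⟨_, _, _, h, h2, h1, rfl⟩
    have h5 := Finset.card_le_univ ({ComplexEmbedding.conjugate φ, φ.comp (c : k →+* k), φ} :
        Finset (k →+* ℂ))
    rw [h4, NumberField.Embeddings.card k ℂ, hk] at h5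
    omega
  have h4 : φ (((a * cj c a : 𝓞 k)) : k) = φ (((nrm a : 𝓞 k)) : k) := by
    have h5 : φ (c (a : k)) = starRingEnd ℂ (φ (a : k)) := (RingHom.congr_fun h3 (a : k)).symm
    have h6 : (((cj c a : 𝓞 k)) : k) = c (a : k) := rfl
    have h7 : (((a * cj c a : 𝓞 k)) : k) = (a : k) * ((cj c a : 𝓞 k) : k) := rfl
    rw [h7, h6, map_mul, h5, Complex.mul_conj, Complex.normSq_eq_norm_sq, ← h0]
    have h8 : (((nrm a : 𝓞 k)) : k) = (nrm a : k) := map_natCast (algebraMap (𝓞 k) k) (nrm a)
    rw [h8, map_natCast, Complex.ofReal_natCast]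
  exact RingOfIntegers.ext (φ.injective h4)

end Pool.Agent.CMK
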