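import Pool.Agent.CMK.ArtG
import Pool.Agent.CMK.MulConj
import Pool.Agent.CMG.LAbCyc

/-!
# K10: the maximal abelian subfield of `M ⊆ k(h(1/N))` is cyclotomic

The proof of `ab_mem_cyclotomic` in `CMG/LAbCyc.lean` for a general `D : EllData k` (copy the private
lemmas `lac_*`). `IsAbelianGalois k M` from `isAbelian_of_mem D hDN hN ι hι hM`; model `F`, `ρ`, `R`, `hR` as
there. `mem_cyclotomic (f := f) (R := N)`: `p ∤ N`, `φ` a Frobenius element at `Q ∋ p`, `p ^ n ≡ 1` mod `f`.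
`φ ^ n` fixes the image `j'` of `j` in `M`: otherwise `φ ^ n j' = -j'` (`j' ^ 2 = -d`), while
`φ ^ n J ≡ J ^ (p ^ n)` mod `Q` and `J ^ (p ^ n) = J * (J ^ 2) ^ ((p ^ n - 1) / 2) = J * (-d) ^ (..) ≡ J` mod `Q`
by `hqr` (`p ^ n` is odd; `ZMod p → 𝓞 M / Q` maps `-d` to `-d`: the integer
`(-d) ^ ((p ^ n - 1) / 2) - 1` is divisible by `p`, `ZMod.intCast_zmod_eq_zero_iff_dvd`), so
`2 J ∈ Q`, `4 J ^ 2 = -4 d ∈ Q`, so `p ∣ 4 d`, hence `p ∣ 2` or `p ∣ d`, contradiction with `h2`, `hd`.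
`k` is generated by `j` (`hk`, `j ∉ ℚ`), so `φ ^ n ∈ fixG k M`. As in `LAbCyc` (`lac_frob`):
`φ ^ n = toG (R (cls (π ^ m)))` with `nrm (π ^ m) = p ^ n`, and `π ^ m * cj c (π ^ m) = nrm (π ^ m) = p ^ n`
(`mul_cj`) is `≡ 1` mod `f`; `artin_commutator` (`ArtG.lean`); commutators fix `x`.
-/

set_option autoImplicit false

noncomputable section

open NumberField Module Pool.Agent.StarkRQ Pool.Agent.CMG

namespace Pool.Agent.CMK

private theorem lac_prime {K : Type*} [CommRing K] {P : Ideal K} (hP : P.IsPrime) :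
    ∀ n : ℕ, n ≠ 0 → (n : K) ∈ P → ∃ p : ℕ, p.Prime ∧ p ∣ n ∧ (p : K) ∈ P := by
  intro n
  induction n using Nat.recOnMul with
  | zero => intro h; exact absurd rfl h
  | one =>
    intro _ h
    rw [Nat.cast_one] at h
    exact absurd ((Ideal.eq_top_iff_one P).2 h) hP.ne_top
  | prime p hp => intro _ h; exact ⟨p, hp, dvd_rfl, h⟩
  | mul a b ha hb =>
    intro h0 h
    rw [Nat.cast_mul] at h
    rcases hP.mem_or_mem h with h1 | h1
    · obtain ⟨p, hp, hpa, hpP⟩ := ha (left_ne_zero_of_mul h0) h1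
      exact ⟨p, hp, hpa.mul_right b, hpP⟩
    · obtain ⟨p, hp, hpa, hpP⟩ := hb (right_ne_zero_of_mul h0) h1
      exact ⟨p, hp, hpa.mul_left a, hpP⟩

/-- a finite field in which `p` is zero has `p ^ n` elements -/
private theorem lac_card {K : Type*} [Field K] [Fintype K] {p : ℕ} (hp : p.Prime)
    (h : (p : K) = 0) : ∃ n : ℕ, n ≠ 0 ∧ Fintype.card K = p ^ n := by
  obtain ⟨c, hc⟩ := CharP.exists K
  have h1 : c ∣ p := (CharP.cast_eq_zero_iff K c p).1 h
  have h2 : c = p := by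
    rcases (Nat.dvd_prime hp).1 h1 with h3 | h3
    · exact absurd h3 (CharP.char_ne_one K c)
    · exact h3
  subst h2
  obtain ⟨n, -, hn⟩ := FiniteField.card K c
  exact ⟨n, n.pos.ne', hn⟩

/-- in a finite field with `p ^ f` elements `x ^ (p ^ n) = x` for all `x` implies `f ∣ n` -/
private theorem lac_dvd {K : Type*} [Field K] [Fintype K] {p f n : ℕ} (hp : p.Prime)
    (hc : Fintype.card K = p ^ f) (h : ∀ x : K, x ^ p ^ n = x) : f ∣ n := by
  classical
  obtain ⟨g, hg⟩ := IsCyclic.exists_generator (α := Kˣ)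
  have h1 : orderOf g = p ^ f - 1 := by
    rw [orderOf_eq_card_of_forall_mem_zpowers hg, Nat.card_eq_fintype_card, Fintype.card_units, hc]
  have h2 : g ^ (p ^ n - 1) = 1 := by
    have h3 := h (g : K)
    have h4 : (g : K) ^ (p ^ n - 1) * (g : K) = 1 * (g : K) := by
      rw [← pow_succ, Nat.sub_add_cancel (Nat.one_le_pow _ _ hp.pos), h3, one_mul]
    have h5 := mul_right_cancel₀ g.ne_zero h4
    exact Units.ext (by rw [Units.val_pow_eq_pow_val, h5, Units.val_one])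
  have h3 : p ^ f - 1 ∣ p ^ n - 1 := h1 ▸ orderOf_dvd_of_pow_eq_one h2
  have h4 := Nat.pow_sub_one_gcd_pow_sub_one p f n
  rw [Nat.gcd_eq_left h3] at h4
  have h5 : p ^ f = p ^ Nat.gcd f n := by
    have e1 := Nat.one_le_pow f p hp.pos
    have e2 := Nat.one_le_pow (Nat.gcd f n) p hp.pos
    omega
  have h6 := Nat.pow_right_injective hp.two_le h5
  rw [h6]
  exact Nat.gcd_dvd_right f n

private theorem lac_fix {F E : Type} [Field F] [Field E] [Algebra F E] {S : Set E} (σ : E →+* E)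
    (h1 : ∀ a : F, σ (algebraMap F E a) = algebraMap F E a) (h2 : ∀ s ∈ S, σ s = s) {y : E}
    (hy : y ∈ IntermediateField.adjoin F S) : σ y = y := by
  induction hy using IntermediateField.adjoin_induction with
  | mem x hx => exact h2 x hx
  | algebraMap x => exact h1 x
  | add x y _ _ hx hy => rw [map_add, hx, hy]
  | inv x _ hx => rw [map_inv₀, hx]
  | mul x y _ _ hx hy => rw [map_mul, hx, hy]

/-- powers of Frobenius elements which fix `k` are Artin symbols -/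
private theorem lac_frob {k M : Type} [Field k] [NumberField k] [IsPrincipalIdealRing (𝓞 k)]
    [Field M] [NumberField M] [Algebra k M] [IsGalois ℚ M] [IsGalois k M] {N : ℕ}
    (hram : ∀ p : ℕ, p.Prime → (p : ℤ) ∣ discr M → p ∣ N) {p : ℕ} (hp : p.Prime) (hpN : ¬ p ∣ N)
    {Q : Ideal (𝓞 M)} [Q.IsPrime] (hpQ : (p : 𝓞 M) ∈ Q) {φ : Gal(M/ℚ)} (hφ : Cong φ Q p)
    {n : ℕ} (hfix : φ ^ n ∈ fixG k M) :
    ∃ (π : 𝓞 k) (ψ : Gal(M/k)) (m f : ℕ), IsCoprime π (N : 𝓞 k) ∧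
      HasArtinSymbol (Ideal.span {π}) ψ ∧ nrm π = p ^ f ∧ n = f * m ∧ φ ^ n = toG k M ψ ^ m := by
  let P : Ideal (𝓞 k) := Q.comap (algebraMap (𝓞 k) (𝓞 M))
  have hPp : (p : 𝓞 k) ∈ P := by
    rw [Ideal.mem_comap, map_natCast]
    exact hpQ
  have hP : P.IsPrime := Ideal.IsPrime.comap _
  have hP0 : P ≠ ⊥ := by
    intro h
    rw [h] at hPp
    have h1 : (p : 𝓞 k) = 0 := by simpa using hPp
    exact hp.ne_zero (by exact_mod_cast h1)
  have hPm : P.IsMaximal := hP.isMaximal hP0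
  obtain ⟨ψ, hψ⟩ := exists_cong_over (F := k) (M := M) hP0 (Q := Q) rfl
  have hfin : Finite (𝓞 k ⧸ P) := Ideal.finiteQuotientOfFreeOfNeBot P hP0
  have hcP : Nat.card (𝓞 k ⧸ P) = Ideal.absNorm P := by
    rw [Ideal.absNorm_apply, Submodule.cardQuot_apply]
  obtain ⟨f, hf, hfn⟩ : ∃ f : ℕ, Ideal.absNorm P = p ^ f ∧ f ∣ n := by
    let := Ideal.Quotient.field P
    let := Fintype.ofFinite (𝓞 k ⧸ P)
    have h1 : ((p : ℕ) : 𝓞 k ⧸ P) = 0 := by
      rw [← map_natCast (Ideal.Quotient.mk P), Ideal.Quotient.eq_zero_iff_mem]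
      exact hPp
    obtain ⟨f, -, hf⟩ := lac_card hp h1
    refine ⟨f, by rw [← hcP, Nat.card_eq_fintype_card, hf], lac_dvd hp hf fun x => ?_⟩
    obtain ⟨y, rfl⟩ := Ideal.Quotient.mk_surjective x
    have h3 := (hφ.pow n) (algebraMap (𝓞 k) (𝓞 M) y)
    have h4 : (φ ^ n) • algebraMap (𝓞 k) (𝓞 M) y = algebraMap (𝓞 k) (𝓞 M) y :=
      NumberField.RingOfIntegers.ext (mem_fixG.1 hfix (y : k))
    rw [h4, ← map_pow, ← map_sub] at h3
    have h5 : y - y ^ p ^ n ∈ P := h3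
    rw [← map_pow, eq_comm, Ideal.Quotient.eq]
    exact h5
  obtain ⟨m, hm⟩ := hfn
  have hpd : ¬ (p : ℤ) ∣ discr M := fun h => hpN (hram p hp h)
  have h6 : φ ^ f = toG k M ψ := by
    refine Cong.unique hp hpd hpQ (hφ.pow f) ?_
    rw [← hf]
    exact hψ
  obtain ⟨π, hπ⟩ := (IsPrincipalIdealRing.principal P).principal
  have hπ' : P = Ideal.span {π} := hπ
  refine ⟨π, ψ, m, f, ?_, ?_, ?_, hm, ?_⟩
  · have h7 : π ∣ (p : 𝓞 k) := by
      rw [← Ideal.mem_span_singleton, ← hπ']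
      exact hPp
    have h8 : IsCoprime (p : 𝓞 k) (N : 𝓞 k) :=
      (Nat.isCoprime_iff_coprime.2 ((Nat.Prime.coprime_iff_not_dvd hp).2 hpN)).map
        (Int.castRingHom (𝓞 k)) |> fun h => by simpa using h
    exact h8.of_isCoprime_of_dvd_left h7
  · refine ⟨[(P, ψ)], ?_, ?_, ?_⟩
    · intro x hx
      rw [List.mem_singleton] at hx
      subst hx
      exact ⟨hP, hP0, Q, ‹_›, rfl, hψ⟩
    · simp [hπ']
    · simp
  · rw [nrm, ← hπ', hf]
  · rw [hm, pow_mul, h6]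

/-- a quadratic field is generated by a square root -/
private theorem lac_top {k : Type} [Field k] [NumberField k] (hk : finrank ℚ k = 2) {d : ℕ}
    (hd0 : 0 < d) {j : k} (hj : j ^ 2 = -(d : k)) : IntermediateField.adjoin ℚ {j} = ⊤ := by
  have hne : IntermediateField.adjoin ℚ {j} ≠ ⊥ := by
    intro h
    have h1 : j ∈ (⊥ : IntermediateField ℚ k) := by
      rw [← h]
      exact IntermediateField.mem_adjoin_simple_self ℚ j
    obtain ⟨r, hr⟩ := IntermediateField.mem_bot.1 h1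
    rw [← hr, ← map_pow] at hj
    have h2 : (algebraMap ℚ k) (r ^ 2) = algebraMap ℚ k (-(d : ℚ)) := by
      rw [hj]
      simp
    have h3 := (algebraMap ℚ k).injective h2
    have h4 : (0 : ℚ) < d := Nat.cast_pos.2 hd0
    nlinarith [sq_nonneg r]
  have h1 : finrank ℚ (IntermediateField.adjoin ℚ {j}) ∣ 2 := by
    rw [← hk, ← finrank_mul_finrank ℚ (IntermediateField.adjoin ℚ {j}) k]
    exact Dvd.intro _ rfl
  rcases (Nat.dvd_prime Nat.prime_two).1 h1 with h2 | h2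
  · exact absurd (IntermediateField.finrank_eq_one_iff.1 h2) hne
  · exact IntermediateField.eq_of_le_of_finrank_eq le_top (by
      rw [h2, IntermediateField.finrank_top', hk])

theorem ab_mem_cyclotomic {k : Type} [Field k] [NumberField k] [Algebra k ℂ] (D : EllData k)
    {N f d : ℕ} (hDN : D.N₀ ∣ N) (hN : N ≠ 0) (hf : f ≠ 0) (h2 : 2 ∣ N)
    (hd : ∀ p : ℕ, p.Prime → p ∣ d → p ∣ N) (hd0 : 0 < d) (hj : ∃ j : k, j ^ 2 = -(d : k))
    (hqr : ∀ p n : ℕ, p.Prime → ¬ p ∣ N → p ^ n % f = 1 % f →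
      ((-(d : ℤ) : ℤ) : ZMod p) ^ ((p ^ n - 1) / 2) = 1)
    (hnorm : NormOne k N f)
    {M : Type} [Field M] [NumberField M] [Algebra k M] [IsGalois ℚ M] (ι : M →+* ℂ)
    (hι : ∀ x : k, ι (algebraMap k M x) = algebraMap k ℂ x)
    (hM : ∀ x : M, ι x ∈ IntermediateField.adjoin k {D.h (pt (1 : 𝓞 k) N)})
    (hram : ∀ p : ℕ, p.Prime → (p : ℤ) ∣ discr M → p ∣ N)
    {x : M} (hx : ∀ σ τ : Gal(M/ℚ), σ (τ x) = τ (σ x)) :
    ι x ∈ IntermediateField.adjoin ℚ {Complex.exp (2 * Real.pi * Complex.I / (f : ℕ))} := by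
  obtain ⟨j, hj⟩ := hj
  have hk := D.finrank_eq
  have := isAbelian_of_mem D hDN hN ι hι hM
  have hcx : IsTotallyComplex k := D.isComplex
  have := D.pid
  obtain ⟨F, _, _, _, _, _, _, A, hA⟩ := exists_model D hDN hN ι hι hM
  obtain ⟨ρ, hρ, hρs, hρk⟩ := exists_rho D hDN hN A
  let R : (𝓞 k ⧸ Ideal.span {(N : 𝓞 k)})ˣ →* Gal(M/k) := (rs k M F).comp ρ
  have hR : ∀ (a : 𝓞 k) (ha : IsCoprime a (N : 𝓞 k)) (σ : Gal(M/k)),
      HasArtinSymbol (Ideal.span {a}) σ ↔ σ = R (cls N a ha) :=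
    fun a ha σ => artin_iff D hDN hN A (M := M) hram ρ hρ a ha σ
  refine mem_cyclotomic (f := f) (R := N) hf hN ι ?_
  intro p hp hpN Q φ hQ hpQ hφ n hn
  have hp2 : ¬ p ∣ 2 := by
    intro h
    rw [(Nat.prime_dvd_prime_iff_eq hp Nat.prime_two).1 h] at hpN
    exact hpN h2
  have hpd : ¬ p ∣ d := fun h => hpN (hd p hp h)
  -- `φ ^ n` fixes `j`
  set j' : M := algebraMap k M j with hj'
  have hj2 : j' ^ 2 = -(d : M) := by
    rw [hj', ← map_pow, hj]
    simp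
  have hjint : IsIntegral ℤ j' := by
    refine ⟨Polynomial.X ^ 2 + Polynomial.C (d : ℤ),
      Polynomial.monic_X_pow_add_C (d : ℤ) two_ne_zero, ?_⟩
    simp [hj2]
  have hφj : (φ ^ n) j' = j' := by
    have h1 : ((φ ^ n) j') ^ 2 = j' ^ 2 := by
      rw [← map_pow, hj2, map_neg, map_natCast]
    rcases sq_eq_sq_iff_eq_or_eq_neg.1 h1 with h2 | h2
    · exact h2
    · exfalso
      let J : 𝓞 M := ⟨j', hjint⟩
      have hJ2 : J ^ 2 = -(d : 𝓞 M) := by
        apply NumberField.RingOfIntegers.ext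
        have e1 : ((J ^ 2 : 𝓞 M) : M) = j' ^ 2 := map_pow (algebraMap (𝓞 M) M) J 2
        have e2 : ((-(d : 𝓞 M) : 𝓞 M) : M) = -(d : M) := by
          rw [NumberField.RingOfIntegers.coe_eq_algebraMap, map_neg, map_natCast]
        rw [e1, hj2, e2]
      have h3 := (hφ.pow n) J
      have h4' : (φ ^ n) • J = -J := NumberField.RingOfIntegers.ext (by
        have e1 : ((-J : 𝓞 M) : M) = -j' := map_neg (algebraMap (𝓞 M) M) J
        rw [e1]
        exact h2)
      rw [h4'] at h3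
      have hodd : p ^ n = 2 * ((p ^ n - 1) / 2) + 1 := by
        have e1 : Odd (p ^ n) := (hp.odd_of_ne_two fun h => hp2 (h ▸ dvd_rfl)).pow
        obtain ⟨e, he⟩ := e1
        omega
      have h5 : J ^ p ^ n - J ∈ Q := by
        have e1 : (p : ℤ) ∣ (-(d : ℤ)) ^ ((p ^ n - 1) / 2) - 1 := by
          rw [← ZMod.intCast_zmod_eq_zero_iff_dvd]
          push_cast
          have := hqr p n hp hpN hn
          push_cast at this
          rw [this, sub_self]
        obtain ⟨c, hc⟩ := e1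
        have e2 : J ^ p ^ n - J = (p : 𝓞 M) * ((c : 𝓞 M) * J) := by
          have e3 : J ^ p ^ n = (-(d : 𝓞 M)) ^ ((p ^ n - 1) / 2) * J := by
            conv_lhs => rw [hodd]
            rw [pow_succ, pow_mul, hJ2]
          have e4 : (-(d : 𝓞 M)) ^ ((p ^ n - 1) / 2) - 1 = (p : 𝓞 M) * (c : 𝓞 M) := by
            have := congrArg (fun z : ℤ => (z : 𝓞 M)) hc
            push_cast at this
            exact this
          rw [e3]
          linear_combination J * e4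
        rw [e2]
        exact Q.mul_mem_right _ hpQ
      have h6 : ((2 * d : ℕ) : 𝓞 M) ∈ Q := by
        have h7 := Q.mul_mem_left J (Q.add_mem h3 h5)
        have h8 : J * (-J - J ^ p ^ n + (J ^ p ^ n - J)) = ((2 * d : ℕ) : 𝓞 M) := by
          push_cast
          linear_combination (-2 : 𝓞 M) * hJ2
        rwa [h8] at h7
      have hp2d : ¬ p ∣ 2 * d := fun h => (hp.dvd_mul.1 h).elim hp2 hpd
      obtain ⟨u, v, huv⟩ := Nat.isCoprime_iff_coprime.2
        ((Nat.Prime.coprime_iff_not_dvd hp).2 hp2d)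
      apply hQ.ne_top
      rw [Ideal.eq_top_iff_one]
      have h7 : (1 : 𝓞 M) = (u : 𝓞 M) * (p : 𝓞 M) + (v : 𝓞 M) * ((2 * d : ℕ) : 𝓞 M) := by
        have := congrArg (fun z : ℤ => (z : 𝓞 M)) huv
        push_cast at this ⊢
        exact this.symm
      rw [h7]
      exact Q.add_mem (Q.mul_mem_left _ hpQ) (Q.mul_mem_left _ h6)
  have hfix : φ ^ n ∈ fixG k M := by
    rw [mem_fixG]
    intro y
    have hy : y ∈ IntermediateField.adjoin ℚ {j} := by
      rw [lac_top hk hd0 hj]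
      exact IntermediateField.mem_top
    induction hy using IntermediateField.adjoin_induction with
    | mem x hx =>
      rw [Set.mem_singleton_iff.1 hx]
      exact hφj
    | algebraMap a =>
      rw [← IsScalarTower.algebraMap_apply ℚ k M]
      exact (φ ^ n).commutes a
    | add x y _ _ hx hy => rw [map_add, map_add, hx, hy]
    | inv x _ hx => rw [map_inv₀, map_inv₀, hx]
    | mul x y _ _ hx hy => rw [map_mul, map_mul, hx, hy]
  obtain ⟨π, ψ, m, e, hπN, hart, hnrm, hnm, hpow⟩ := lac_frob (k := k) hram hp hpN hpQ hφ hfix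
  have hψ := (hR π hπN ψ).1 hart
  have hπm : IsCoprime (π ^ m) (N : 𝓞 k) := hπN.pow_left
  have hcls : cls N (π ^ m) hπm = cls N π hπN ^ m := by
    apply Units.ext
    exact map_pow _ _ _
  have hpow' : φ ^ n = toG k M (R (cls N (π ^ m) hπm)) := by
    rw [hcls, map_pow, map_pow, ← hψ, hpow]
  have hn' : ∀ c : k ≃ₐ[ℚ] k, c ≠ 1 → (f : 𝓞 k) ∣ π ^ m * cj c (π ^ m) - 1 := by
    intro c hc
    have h1 : π ^ m * cj c (π ^ m) = ((p ^ n : ℕ) : 𝓞 k) := by
      rw [map_pow, ← mul_pow, mul_cj hk hc, hnrm, hnm, pow_mul]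
      push_cast
      rfl
    rw [h1]
    have h2 : p ^ n ≡ 1 [MOD f] := hn
    have h3 : (f : ℤ) ∣ ((p ^ n : ℕ) : ℤ) - 1 := by
      have := (Nat.modEq_iff_dvd.1 h2.symm)
      exact_mod_cast this
    obtain ⟨c', hc'⟩ := h3
    refine ⟨(c' : 𝓞 k), ?_⟩
    have h5 := congrArg (fun z : ℤ => (z : 𝓞 k)) hc'
    push_cast at h5 ⊢
    exact h5
  obtain ⟨g, h, hgh⟩ := artin_commutator hk hN hnorm R hR hπm hn'
  rw [hpow', hgh]
  change g (h (g⁻¹ (h⁻¹ x))) = x
  rw [hx g⁻¹ h⁻¹]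
  have e1 : h (h⁻¹ (g⁻¹ x)) = g⁻¹ x := by
    rw [← AlgEquiv.mul_apply, mul_inv_cancel, AlgEquiv.one_apply]
  rw [e1, ← AlgEquiv.mul_apply, mul_inv_cancel, AlgEquiv.one_apply]

end Pool.Agent.CMK
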