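import Pool.Agent.CMK.Base
import Pool.Agent.CMG.LArtConj

/-!
# K09: Artin symbols that are commutators

The proof of `artin_commutator` in `CMG/LArtConj.lean` without `GaussianInt`: `γ ∈ Gal(M/ℚ)`,
`γ ∉ fixG k M` (`exists_notMem_fixG`), `c = γ.restrictNormal k`, `γ (algebraMap k M x) = algebraMap k M (c x)`,
`c ≠ 1`. `hnorm c _ a hn` gives `ε`, `u` with `N ∣ a * u - ε * cj c u`; `cls a * cls u = cls ε * cls (cj c u)`;
`R (cls ε) = 1`; `toG (R (cls (cj c u))) = γ * toG (R (cls u)) * γ⁻¹` by `artin_conj` and `hR`.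
-/

set_option autoImplicit false

noncomputable section

open NumberField Module Pool.Agent.StarkRQ Pool.Agent.CMG

namespace Pool.Agent.CMK

theorem artin_commutator {k : Type} [Field k] [NumberField k] (hk : finrank ℚ k = 2)
    {M : Type} [Field M] [NumberField M] [Algebra k M] [IsGalois ℚ M] [IsAbelianGalois k M]
    {N f : ℕ} (hN0 : N ≠ 0) (hnorm : NormOne k N f)
    (R : (𝓞 k ⧸ Ideal.span {(N : 𝓞 k)})ˣ →* Gal(M/k))
    (hR : ∀ (a : 𝓞 k) (ha : IsCoprime a (N : 𝓞 k)) (σ : Gal(M/k)),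
      HasArtinSymbol (Ideal.span {a}) σ ↔ σ = R (cls N a ha))
    {a : 𝓞 k} (ha : IsCoprime a (N : 𝓞 k))
    (hn : ∀ c : k ≃ₐ[ℚ] k, c ≠ 1 → (f : 𝓞 k) ∣ a * cj c a - 1) :
    ∃ g h : Gal(M/ℚ), toG k M (R (cls N a ha)) = g * h * g⁻¹ * h⁻¹ := by
  classical
  have : Algebra.IsQuadraticExtension ℚ k := ⟨hk⟩
  obtain ⟨γ, hγ⟩ := exists_notMem_fixG (M := M) hk
  set c : k ≃ₐ[ℚ] k := γ.restrictNormal k with hc
  have hγc : ∀ x : k, γ (algebraMap k M x) = algebraMap k M (c x) := fun x =>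
    (AlgEquiv.restrictNormal_commutes γ k x).symm
  have hc1 : c ≠ 1 := by
    intro h1
    apply hγ
    rw [mem_fixG]
    intro x
    rw [hγc, h1, AlgEquiv.one_apply]
  obtain ⟨ε, u, hε, hcu, hdvd⟩ := hnorm c hc1 a (hn c hc1)
  have hcE : IsCoprime (cj c u) (N : 𝓞 k) := by
    have := hcu.map (cj c).toRingHom
    simpa using this
  have hcε : IsCoprime ε (N : 𝓞 k) :=
    (isCoprime_one_left (x := (N : 𝓞 k))).of_isCoprime_of_dvd_left hε.dvd
  have hmul : ∀ (x y : 𝓞 k) (hx : IsCoprime x (N : 𝓞 k)) (hy : IsCoprime y (N : 𝓞 k)),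
      cls N (x * y) (hx.mul_left hy) = cls N x hx * cls N y hy := by
    intro x y hx hy
    apply Units.ext
    change Ideal.Quotient.mk _ (x * y) = Ideal.Quotient.mk _ x * Ideal.Quotient.mk _ y
    exact map_mul _ _ _
  have hcls : cls N a ha * cls N u hcu = cls N ε hcε * cls N (cj c u) hcE := by
    rw [← hmul, ← hmul]
    exact (cls_eq_iff _ _).2 hdvd
  have hR1 : R (cls N ε hcε) = 1 := by
    symm
    rw [← hR]
    refine ⟨[], by simp, ?_, by simp⟩
    rw [List.map_nil, List.prod_nil, Ideal.one_eq_top]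
    exact (Ideal.span_singleton_eq_top.2 hε).symm
  have hart : HasArtinSymbol (Ideal.span {u}) (R (cls N u hcu)) := (hR u hcu _).2 rfl
  obtain ⟨σ', hσ', hσ'art⟩ := artin_conj (c : k ≃+* k) γ hγc (a := u) (b := cj c u) rfl hart
  have hR2 : σ' = R (cls N (cj c u) hcE) := (hR _ hcE _).1 hσ'art
  refine ⟨γ, toG k M (R (cls N u hcu)), ?_⟩
  rw [← hσ', eq_mul_inv_iff_mul_eq, ← map_mul, ← map_mul, hcls, map_mul, hR1, one_mul, hR2]

end Pool.Agent.CMK
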