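import Pool.Agent.CMK.Base

/-!
# K03: ramification in `k(h(1/N))`
-/

set_option autoImplicit false

noncomputable section

open NumberField Module Pool.Agent.StarkRQ Pool.Agent.CMG

namespace Pool.Agent.CMK

theorem ram_of_mem {k : Type} [Field k] [NumberField k] [Algebra k ℂ] (D : EllData k) {N : ℕ}
    (hDN : D.N₀ ∣ N) (hN : N ≠ 0) (hd : ∀ p : ℕ, p.Prime → (p : ℤ) ∣ discr k → p ∣ N)
    {M : Type} [Field M] [NumberField M] [Algebra k M] (ι : M →+* ℂ)
    (hι : ∀ x : k, ι (algebraMap k M x) = algebraMap k ℂ x)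
    (hM : ∀ x : M, ι x ∈ IntermediateField.adjoin k {D.h (pt (1 : 𝓞 k) N)}) (p : ℕ)
    (hp : p.Prime) (h : (p : ℤ) ∣ discr M) : p ∣ N := by
  obtain ⟨F, _, _, _, _, _, _, A, hA⟩ := exists_model D hDN hN ι hι hM
  by_contra hpN
  exact not_dvd_discr_model D hDN hN A hp hpN (fun h2 => hpN (hd p hp h2))
    (h.trans (discr_dvd_discr M F))

end Pool.Agent.CMK
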