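import Pool.Agent.CMK.PowUnit
import Pool.Agent.CMG.SplitTriv

/-!
# K02: the fields `k(h(1/N))` increase with `N`

Let `L = N m`, `E₁ = adjoin k {D.h (pt 1 L)}`, `E₂ = adjoin k {D.h (pt 1 N)}` (intermediate fields of
`ℂ/k`), `Ω = E₁ ⊔ E₂`. All three are finite Galois over `k` (`D.isGalois`, `D.finite`,
`IntermediateField.normal_sup`..), number fields. We show `finrank E₁ Ω = 1` (`Algebra E₁ Ω` from
`E₁ ≤ Ω`) with `split_trivial` (`CMG/SplitTriv.lean`), `S` the ideals of `𝓞 E₁` containing `L` (finite: see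
the end of `exists_comb` in `CMG/SComb.lean`). Let `𝔮` be a nonzero prime of `𝓞 Ω` not over `S`,
`P = 𝔮 ∩ 𝓞 E₁`. By `exists_pow_unit` (level `L`): `P ∩ 𝓞 k = (π)`, `absNorm P = nrm π ^ f`,
`L ∣ π ^ f - ε`. Let `φ` be a Frobenius element of `Gal(Ω/k)` at `𝔮`
(`IsArithFrobAt.exists_of_isInvariant`): `φ x ≡ x ^ nrm π` mod `𝔮`.
* `φ ^ f` is trivial on `E₁`: on `𝓞 E₁` it is `x ↦ x ^ absNorm P ≡ x` mod `P`; `inertia_trivial`
  (`CMG/LRamF.lean`) for the restriction to `E₁` (`AlgEquiv.restrictNormalHom E₁`).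
* `φ ^ f` is trivial on `E₂`: the restriction of `φ` to `E₂` is `ρ (cls N π _)` (`frob_acts`,
  `exists_rho` for the model of level `N`, `exists_model'`), so `φ ^ f` restricts to
  `ρ (cls N π _ ^ f) = ρ (ucls N ε) = 1` (`N ∣ L ∣ π ^ f - ε`).
So `φ ^ f = 1` on `Ω`, and every `x` in `𝓞 Ω / 𝔮` satisfies `x ^ absNorm P = x`; counting the roots of
`X ^ q - X` gives `absNorm 𝔮 ≤ absNorm P`, and `≥` since `𝓞 E₁ / P` embeds in `𝓞 Ω / 𝔮`
(the last part of `norm_eq_of_dvd` in `CMG/SComb.lean`, copy it).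
`finrank E₁ Ω = 1` gives `E₂ ≤ Ω ≤ E₁`.
-/

set_option autoImplicit false

noncomputable section

open NumberField Module Pool.Agent.StarkRQ Pool.Agent.CMG

namespace Pool.Agent.CMK

section frob

variable {k : Type} [Field k] [NumberField k] {F : Type} [Field F] [NumberField F] [Algebra k F]

private theorem tmul_mk {φ : Gal(F/k)} {Q : Ideal (𝓞 F)} {q : ℕ} :
    (∀ x : 𝓞 F, φ • x - x ^ q ∈ Q) ↔
      ∀ x : 𝓞 F, Ideal.Quotient.mk Q (φ • x) = Ideal.Quotient.mk Q x ^ q := by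
  refine forall_congr' fun x => ?_
  rw [← map_pow, Ideal.Quotient.eq]

private theorem tmul_pow {φ : Gal(F/k)} {Q : Ideal (𝓞 F)} {q : ℕ}
    (h : ∀ x : 𝓞 F, φ • x - x ^ q ∈ Q) (j : ℕ) : ∀ x : 𝓞 F, (φ ^ j) • x - x ^ (q ^ j) ∈ Q := by
  rw [tmul_mk] at h ⊢
  induction j with
  | zero => intro x; rw [pow_zero, pow_zero, one_smul, pow_one]
  | succ j ih =>
    intro x
    rw [pow_succ, mul_smul, ih, h, ← pow_mul, pow_succ']

private theorem tmul_frob [IsGalois k F] {Q : Ideal (𝓞 F)} (hQ : Q.IsPrime) (hQ0 : Q ≠ ⊥)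
    {π : 𝓞 k} (h : Q.comap (algebraMap (𝓞 k) (𝓞 F)) = Ideal.span {π}) :
    ∃ φ : Gal(F/k), ∀ x : 𝓞 F, φ • x - x ^ nrm π ∈ Q := by
  have hfin : Finite (𝓞 F ⧸ Q) := Ideal.finiteQuotientOfFreeOfNeBot Q hQ0
  obtain ⟨φ, hφ⟩ := IsArithFrobAt.exists_of_isInvariant (R := 𝓞 k) (G := Gal(F/k)) (Q := Q)
  refine ⟨φ, fun x => ?_⟩
  have h1 := hφ x
  have h2 : Nat.card (𝓞 k ⧸ Q.under (𝓞 k)) = nrm π := by
    rw [nrm, Ideal.absNorm_apply, Submodule.cardQuot_apply]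
    have h3 : Q.under (𝓞 k) = Ideal.span {π} := h
    rw [h3]
  rw [h2] at h1
  exact h1

private theorem tmul_restrict {M : Type} [Field M] [NumberField M] [Algebra k M] [Algebra M F]
    [IsScalarTower k M F] [Normal k M] {Q : Ideal (𝓞 F)} {φ : Gal(F/k)} {q : ℕ}
    (h : ∀ x : 𝓞 F, φ • x - x ^ q ∈ Q) :
    ∀ x : 𝓞 M, (AlgEquiv.restrictNormalHom M φ) • x - x ^ q ∈
      Q.comap (algebraMap (𝓞 M) (𝓞 F)) := by
  intro x
  rw [Ideal.mem_comap, map_sub, map_pow]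
  have h1 : algebraMap (𝓞 M) (𝓞 F) ((AlgEquiv.restrictNormalHom M φ) • x) =
      φ • algebraMap (𝓞 M) (𝓞 F) x :=
    Subtype.ext (AlgEquiv.restrictNormal_commutes φ M (x : M))
  rw [h1]
  exact h _

private theorem tmul_norm {P : Ideal (𝓞 F)} (hP : P.IsPrime) (hP0 : P ≠ ⊥) (x : 𝓞 F) :
    x - x ^ Ideal.absNorm P ∈ P := by
  have hm : P.IsMaximal := hP.isMaximal hP0
  let := Ideal.Quotient.field P
  have hfin : Finite (𝓞 F ⧸ P) := Ideal.finiteQuotientOfFreeOfNeBot P hP0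
  let := Fintype.ofFinite (𝓞 F ⧸ P)
  have h1 := FiniteField.pow_card (Ideal.Quotient.mk P x)
  have h2 : Fintype.card (𝓞 F ⧸ P) = Ideal.absNorm P := by
    rw [← Nat.card_eq_fintype_card, ← Submodule.cardQuot_apply, ← Ideal.absNorm_apply]
  rw [h2, ← map_pow, Ideal.Quotient.eq] at h1
  have h3 := P.neg_mem h1
  rwa [neg_sub] at h3

end frob

private theorem tmul_tower (k M F : Type) [Field k] [Field M] [Field F] [Algebra k M]
    [Algebra k F] [Algebra M F] [IsScalarTower k M F] :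
    algebraMap (𝓞 k) (𝓞 F) = (algebraMap (𝓞 M) (𝓞 F)).comp (algebraMap (𝓞 k) (𝓞 M)) :=
  RingHom.ext fun x => Subtype.ext (IsScalarTower.algebraMap_apply k M F (x : k))

private theorem tmul_count {M M' : Type} [Field M] [NumberField M] [Field M'] [NumberField M']
    [Algebra M M'] {𝔮 : Ideal (𝓞 M')} (h𝔮 : 𝔮.IsPrime) (h0 : 𝔮 ≠ ⊥)
    (h2 : ∀ x : 𝓞 M', x - x ^ Ideal.absNorm (𝔮.comap (algebraMap (𝓞 M) (𝓞 M'))) ∈ 𝔮) :
    Ideal.absNorm 𝔮 = Ideal.absNorm (𝔮.comap (algebraMap (𝓞 M) (𝓞 M'))) := by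
  have hm : 𝔮.IsMaximal := h𝔮.isMaximal h0
  let P : Ideal (𝓞 M) := 𝔮.comap (algebraMap (𝓞 M) (𝓞 M'))
  have hP0 : P ≠ ⊥ := Ideal.under_ne_bot (𝓞 M) h0
  have hP : P.IsPrime := Ideal.IsPrime.comap _
  have hfin : Finite (𝓞 M' ⧸ 𝔮) := Ideal.finiteQuotientOfFreeOfNeBot 𝔮 h0
  have hfin' : Finite (𝓞 M ⧸ P) := Ideal.finiteQuotientOfFreeOfNeBot P hP0
  have hcP : Nat.card (𝓞 M ⧸ P) = Ideal.absNorm P := by
    rw [Ideal.absNorm_apply, Submodule.cardQuot_apply]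
  have hcq : Nat.card (𝓞 M' ⧸ 𝔮) = Ideal.absNorm 𝔮 := by
    rw [Ideal.absNorm_apply, Submodule.cardQuot_apply]
  have hpos : Ideal.absNorm P ≠ 0 := fun h => hP0 (Ideal.absNorm_eq_zero_iff.1 h)
  have hone : Ideal.absNorm P ≠ 1 := fun h => hP.ne_top (Ideal.absNorm_eq_one_iff.1 h)
  have h2 : ∀ x : 𝓞 M' ⧸ 𝔮, x ^ Ideal.absNorm P = x := by
    intro x
    obtain ⟨y, rfl⟩ := Ideal.Quotient.mk_surjective x
    rw [← map_pow, eq_comm, Ideal.Quotient.eq]
    exact h2 y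
  refine le_antisymm ?_ ?_
  · let := Ideal.Quotient.field 𝔮
    let := Fintype.ofFinite (𝓞 M' ⧸ 𝔮)
    classical
    have h3 : 1 < Ideal.absNorm P := by omega
    have h4 : (Finset.univ : Finset (𝓞 M' ⧸ 𝔮)) ⊆
        (Polynomial.X ^ Ideal.absNorm P - Polynomial.X : Polynomial (𝓞 M' ⧸ 𝔮)).roots.toFinset := by
      intro x _
      rw [Multiset.mem_toFinset, Polynomial.mem_roots
        (FiniteField.X_pow_card_sub_X_ne_zero (𝓞 M' ⧸ 𝔮) h3), Polynomial.IsRoot.def]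
      simp [h2 x]
    have h5 := (Finset.card_le_card h4).trans ((Multiset.toFinset_card_le _).trans
      (Polynomial.card_roots' _))
    rw [FiniteField.X_pow_card_sub_X_natDegree_eq (𝓞 M' ⧸ 𝔮) h3, Finset.card_univ,
      ← Nat.card_eq_fintype_card, hcq] at h5
    exact h5
  · rw [← hcq]
    show Ideal.absNorm P ≤ _
    rw [← hcP]
    exact Nat.card_le_card_of_injective _
      (Ideal.quotientMap_injective (I := 𝔮) (f := algebraMap (𝓞 M) (𝓞 M')))

/-- an automorphism of `F` which fixes `θ 1` is trivial -/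
private theorem tmul_ext {k : Type} [Field k] {F : Type} [Field F] [Algebra k F] {t : F}
    (ht : IntermediateField.adjoin k {t} = ⊤) {τ τ' : Gal(F/k)} (h : τ t = τ' t) : τ = τ' := by
  ext x
  have hx : x ∈ IntermediateField.adjoin k {t} := by
    rw [ht]
    exact IntermediateField.mem_top
  induction hx using IntermediateField.adjoin_induction with
  | mem y hy =>
    rw [Set.mem_singleton_iff] at hy
    rw [hy, h]
  | algebraMap y => rw [AlgEquiv.commutes, AlgEquiv.commutes]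
  | add y z _ _ hy hz => rw [map_add, map_add, hy, hz]
  | inv y _ hy => rw [map_inv₀, map_inv₀, hy]
  | mul y z _ _ hy hz => rw [map_mul, map_mul, hy, hz]

section main

variable {k : Type} [Field k] [NumberField k] [Algebra k ℂ] (D : EllData k) {N L : ℕ}
  (hDN : D.N₀ ∣ N) (hN : N ≠ 0) (hDL : D.N₀ ∣ L) (hL : L ≠ 0) (hNL : N ∣ L)

include hDN hN in
/-- the Frobenius power on the field of level `N` -/
private theorem tmul_two {F : Type} [Field F] [NumberField F] [Algebra k F] [IsGalois k F]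
    (A : Model D N F) {P : Ideal (𝓞 F)} (hP : P.IsPrime) {π : 𝓞 k} (hπ : Prime π)
    (hπN : IsCoprime π (N : 𝓞 k)) (hπP : P.comap (algebraMap (𝓞 k) (𝓞 F)) = Ideal.span {π})
    {f : ℕ} {ε : (𝓞 k)ˣ} (hf : (N : 𝓞 k) ∣ π ^ f - (ε : 𝓞 k)) {φ : Gal(F/k)}
    (hφ : ∀ x : 𝓞 F, φ • x - x ^ nrm π ∈ P) : φ ^ f = 1 := by
  obtain ⟨ρ, h1, -, h3⟩ := exists_rho D hDN hN A
  have h4 : φ = ρ (cls N π hπN) := by
    refine tmul_ext A.gen ?_
    rw [h1 π hπN]
    exact frob_acts D hDN hN A hP hπ hπN hπP hφ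
  rw [h4, ← map_pow, h3]
  refine ⟨ε, Units.ext ?_⟩
  rw [Units.val_pow_eq_pow_val]
  change Ideal.Quotient.mk _ (ε : 𝓞 k) = Ideal.Quotient.mk _ π ^ f
  rw [← map_pow, eq_comm, Ideal.Quotient.eq, Ideal.mem_span_singleton]
  exact hf

include hDN hN hDL hL hNL in
private theorem tmul_finrank {F₁ F₂ Ω : Type} [Field F₁] [NumberField F₁] [Field F₂]
    [NumberField F₂] [Field Ω] [NumberField Ω] [Algebra k F₁] [Algebra k F₂] [Algebra k Ω]
    [Algebra F₁ Ω] [Algebra F₂ Ω] [IsScalarTower k F₁ Ω] [IsScalarTower k F₂ Ω] [IsGalois k F₁]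
    [IsGalois k F₂] [IsGalois k Ω] (A₁ : Model D L F₁) (A₂ : Model D N F₂)
    (hgen : ∀ τ : Gal(Ω/k), (∀ x : F₁, τ (algebraMap F₁ Ω x) = algebraMap F₁ Ω x) →
      (∀ x : F₂, τ (algebraMap F₂ Ω x) = algebraMap F₂ Ω x) → τ = 1) :
    Module.finrank F₁ Ω = 1 := by
  refine split_trivial (S := {I | ((L : ℕ) : 𝓞 F₁) ∈ I}) ?_ ?_
  · refine (Ideal.finite_setOfPred_absNorm_le (Ideal.absNorm
      (Ideal.span {((L : ℕ) : 𝓞 F₁)}))).subset fun I hI => ?_
    refine Nat.le_of_dvd (Nat.pos_of_ne_zero ?_) (Ideal.absNorm_dvd_absNorm_of_le ?_)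
    · rw [Ne, Ideal.absNorm_eq_zero_iff, Ideal.span_singleton_eq_bot, Nat.cast_eq_zero]
      exact hL
    · rw [Ideal.span_singleton_le_iff_mem]
      exact hI
  · intro 𝔮 h𝔮 h0 hS
    set P : Ideal (𝓞 F₁) := 𝔮.comap (algebraMap (𝓞 F₁) (𝓞 Ω)) with hPdef
    have hP0 : P ≠ ⊥ := Ideal.under_ne_bot (𝓞 F₁) h0
    have hP : P.IsPrime := Ideal.IsPrime.comap _
    have hLP : (L : 𝓞 F₁) ∉ P := hS
    obtain ⟨π, f, ε, hπ, hπL, hPπ, hPf, hfε⟩ := exists_pow_unit D hDL hL A₁ hP hP0 hLP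
    -- the prime `𝔮` lies over `π`
    have h𝔮π : 𝔮.comap (algebraMap (𝓞 k) (𝓞 Ω)) = Ideal.span {π} := by
      rw [← hPπ, hPdef, Ideal.comap_comap, tmul_tower k F₁ Ω]
    obtain ⟨φ, hφ⟩ := tmul_frob h𝔮 h0 h𝔮π
    have hπN : IsCoprime π (N : 𝓞 k) := by
      obtain ⟨c, hc⟩ := hNL
      rw [hc, Nat.cast_mul] at hπL
      exact hπL.of_mul_right_left
    -- restriction to `F₁`
    have h1 : (AlgEquiv.restrictNormalHom F₁ φ) ^ f = 1 := by
      refine inertia_trivial D hDL hL A₁ hP hπ hπL ?_ ?_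
      · have : π ∈ P.comap (algebraMap (𝓞 k) (𝓞 F₁)) := by
          rw [hPπ]
          exact Ideal.mem_span_singleton_self π
        exact this
      · intro x
        have h2 := tmul_pow (tmul_restrict (M := F₁) hφ) f x
        rw [← hPf] at h2
        have h3 := tmul_norm hP hP0 x
        have h4 := P.sub_mem h2 h3
        have h5 : (AlgEquiv.restrictNormalHom F₁ φ) ^ f • x - x ^ Ideal.absNorm P -
          (x - x ^ Ideal.absNorm P) = (AlgEquiv.restrictNormalHom F₁ φ) ^ f • x - x := by ring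
        rwa [h5] at h4
    have h2 : (AlgEquiv.restrictNormalHom F₂ φ) ^ f = 1 := by
      refine tmul_two D hDN hN A₂ (P := 𝔮.comap (algebraMap (𝓞 F₂) (𝓞 Ω)))
        (Ideal.IsPrime.comap _) hπ hπN ?_ (ε := ε) ?_ (tmul_restrict hφ)
      · rw [← h𝔮π, Ideal.comap_comap, tmul_tower k F₂ Ω]
      · exact (Nat.cast_dvd_cast hNL).trans hfε
    have h3 : φ ^ f = 1 := by
      refine hgen _ (fun x => ?_) (fun x => ?_)
      · have h4 := AlgEquiv.restrictNormal_commutes (φ ^ f) F₁ x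
        have h5 : (φ ^ f).restrictNormal F₁ = 1 := by
          rw [← h1, ← map_pow]
          rfl
        rw [h5] at h4
        exact h4.symm
      · have h4 := AlgEquiv.restrictNormal_commutes (φ ^ f) F₂ x
        have h5 : (φ ^ f).restrictNormal F₂ = 1 := by
          rw [← h2, ← map_pow]
          rfl
        rw [h5] at h4
        exact h4.symm
    refine tmul_count h𝔮 h0 fun x => ?_
    have h4 := tmul_pow hφ f x
    rw [h3, one_smul, ← hPf] at h4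
    exact h4

end main

theorem h_mem_mul {k : Type} [Field k] [NumberField k] [Algebra k ℂ] (D : EllData k) {N m : ℕ}
    (hDN : D.N₀ ∣ N) (hN : N ≠ 0) (hm : m ≠ 0) :
    D.h (pt (1 : 𝓞 k) N) ∈ IntermediateField.adjoin k {D.h (pt (1 : 𝓞 k) (N * m))} := by
  set L := N * m with hLdef
  have hL : L ≠ 0 := Nat.mul_ne_zero hN hm
  have hDL : D.N₀ ∣ L := hDN.mul_right m
  set E₁ := IntermediateField.adjoin k {D.h (pt (1 : 𝓞 k) L)} with hE₁
  set E₂ := IntermediateField.adjoin k {D.h (pt (1 : 𝓞 k) N)} with hE₂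
  have f1 : FiniteDimensional k E₁ := D.finite L hDL hL
  have f2 : FiniteDimensional k E₂ := D.finite N hDN hN
  have g1 : IsGalois k E₁ := D.isGalois L hDL hL
  have g2 : IsGalois k E₂ := D.isGalois N hDN hN
  have n1 : NumberField E₁ := NumberField.of_module_finite k _
  have n2 : NumberField E₂ := NumberField.of_module_finite k _
  have f3 : FiniteDimensional k ↥(E₁ ⊔ E₂) := IntermediateField.finiteDimensional_sup E₁ E₂
  have n3 : NumberField ↥(E₁ ⊔ E₂) := NumberField.of_module_finite k _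
  have no3 : Normal k ↥(E₁ ⊔ E₂) := IntermediateField.normal_sup k ℂ E₁ E₂
  have g3 : IsGalois k ↥(E₁ ⊔ E₂) := ⟨⟩
  let a1 : Algebra E₁ ↥(E₁ ⊔ E₂) := (IntermediateField.inclusion le_sup_left).toAlgebra
  let a2 : Algebra E₂ ↥(E₁ ⊔ E₂) := (IntermediateField.inclusion le_sup_right).toAlgebra
  have s1 : IsScalarTower k E₁ ↥(E₁ ⊔ E₂) := IsScalarTower.of_algebraMap_eq fun x => rfl
  have s2 : IsScalarTower k E₂ ↥(E₁ ⊔ E₂) := IsScalarTower.of_algebraMap_eq fun x => rfl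
  obtain ⟨A₁, -⟩ := exists_model' D hDL hL
  obtain ⟨A₂, -⟩ := exists_model' D hDN hN
  have h1 : Module.finrank E₁ ↥(E₁ ⊔ E₂) = 1 := by
    refine tmul_finrank D hDN hN hDL hL ⟨m, hLdef⟩ A₁ A₂ ?_
    intro τ hτ1 hτ2
    let W : IntermediateField k ↥(E₁ ⊔ E₂) :=
      IntermediateField.fixedField (Subgroup.zpowers τ)
    have hW : ∀ x : ↥(E₁ ⊔ E₂), τ x = x → x ∈ W := by
      intro x hx
      rw [IntermediateField.mem_fixedField_iff]
      intro g hg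
      obtain ⟨n, rfl⟩ := Subgroup.mem_zpowers_iff.1 hg
      exact (MulAction.stabilizer Gal(↥(E₁ ⊔ E₂)/k) x).zpow_mem (show τ • x = x from hx) n
    have hle : E₁ ⊔ E₂ ≤ W.map (E₁ ⊔ E₂).val := by
      refine sup_le ?_ ?_
      · intro x hx
        exact ⟨_, hW _ (hτ1 ⟨x, hx⟩), rfl⟩
      · intro x hx
        exact ⟨_, hW _ (hτ2 ⟨x, hx⟩), rfl⟩
    ext x
    obtain ⟨y, hy, hyx⟩ := hle x.2
    have hyx' : y = x := Subtype.ext hyx
    rw [← hyx']
    exact congrArg _ ((IntermediateField.mem_fixedField_iff _ _).1 hy τ (Subgroup.mem_zpowers τ))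
  obtain ⟨ζ, hζ⟩ := (Algebra.finrank_eq_one_iff_bijective_algebraMap.1 h1).2
    ⟨D.h (pt (1 : 𝓞 k) N), (le_sup_right : E₂ ≤ E₁ ⊔ E₂)
      (IntermediateField.mem_adjoin_simple_self k _)⟩
  have h2 : (ζ : ℂ) = D.h (pt (1 : 𝓞 k) N) := congrArg (fun y : ↥(E₁ ⊔ E₂) => (y : ℂ)) hζ
  rw [← h2]
  exact ζ.2

end Pool.Agent.CMK
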