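import Pool.Agent.CMK.ZetaT
import Pool.Agent.CMK.TMul
import Pool.Agent.CMK.RamG
import Pool.Agent.CMK.AbG

/-!
# K11: fields contained in `ℚ(s, h(1/N))`
-/

set_option autoImplicit false

noncomputable section

open NumberField Module Pool.Agent.StarkRQ Pool.Agent.CMG

namespace Pool.Agent.CMK

variable (b : Base)

/-- the quadratic field contained in `M` -/
theorem Base.exists_field {M : Type} [Field M] [NumberField M] (ι : M →+* ℂ)
    (hs : ∃ j : M, ι j = b.s) :
    ∃ (k : IntermediateField ℚ M) (_ : Algebra k ℂ), finrank ℚ k = 2 ∧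
      (∀ x : k, algebraMap k ℂ x = ι (x : M)) ∧ (∃ j : k, algebraMap k ℂ j = b.s) ∧
      ∀ j : M, ι j = b.s → j ∈ k ∧ k = IntermediateField.adjoin ℚ {j} := by
  obtain ⟨j, hj⟩ := hs
  have hj2 : j ^ 2 = -(b.d : M) := by
    apply ι.injective
    rw [map_pow, hj, b.sq, map_neg, map_natCast]
  let k := IntermediateField.adjoin ℚ {j}
  let alg : Algebra k ℂ := (ι.comp (algebraMap k M)).toAlgebra
  have hint : IsIntegral ℚ j := IsIntegral.of_finite ℚ j
  have hk : finrank ℚ k = 2 := by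
    rw [IntermediateField.adjoin.finrank hint]
    have h1 : minpoly ℚ j = Polynomial.X ^ 2 + Polynomial.C (b.d : ℚ) := by
      refine (minpoly.eq_of_irreducible_of_monic ?_ ?_ ?_).symm
      · have h2 : (Polynomial.X ^ 2 + Polynomial.C (b.d : ℚ) : Polynomial ℚ).natDegree = 2 := by
          compute_degree!
        refine (Polynomial.Monic.irreducible_iff_roots_eq_zero_of_degree_le_three
          (by monicity!) (by rw [h2]) (by rw [h2]; norm_num)).2 ?_
        refine Multiset.eq_zero_of_forall_notMem fun x hx => ?_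
        have h3 := (Polynomial.mem_roots'.1 hx).2
        simp only [Polynomial.IsRoot.def, Polynomial.eval_add, Polynomial.eval_pow,
          Polynomial.eval_X, Polynomial.eval_C] at h3
        have h4 : (0 : ℚ) < b.d := by exact_mod_cast b.d_pos
        nlinarith [sq_nonneg x]
      · simp [hj2]
      · monicity!
    rw [h1]
    compute_degree!
  refine ⟨k, alg, hk, fun x => rfl, ⟨⟨j, IntermediateField.mem_adjoin_simple_self ℚ j⟩, hj⟩, ?_⟩
  intro j' hj'
  have : j' = j := ι.injective (hj'.trans hj.symm)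
  rw [this]
  exact ⟨IntermediateField.mem_adjoin_simple_self ℚ j, rfl⟩

theorem Base.mem_adjoin {k : Type} [Field k] [NumberField k] [Algebra k ℂ]
    (hI : ∃ j : k, algebraMap k ℂ j = b.s) {D : EllData k} (hD : D.h = b.h) {N : ℕ} {x : ℂ}
    (hx : x ∈ IntermediateField.adjoin ℚ {b.s, b.h (1 / N)}) :
    x ∈ IntermediateField.adjoin k {D.h (pt (1 : 𝓞 k) N)} := by
  have hpt : pt (1 : 𝓞 k) N = 1 / (N : ℂ) := by
    simp [pt]
  rw [hD, hpt]
  have h1 : IntermediateField.adjoin ℚ {b.s, b.h (1 / N)} ≤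
      (IntermediateField.adjoin k {b.h (1 / N)}).restrictScalars ℚ := by
    rw [IntermediateField.adjoin_le_iff]
    rintro y (rfl | rfl)
    · obtain ⟨j', hj'⟩ := hI
      rw [← hj']
      exact (IntermediateField.adjoin k {b.h (1 / N)}).algebraMap_mem j'
    · exact IntermediateField.mem_adjoin_simple_self k _
  exact h1 hx

private theorem bf_range_mem {k : Type} [Field k] [NumberField k] [Algebra k ℂ]
    (hk : finrank ℚ k = 2) {j : k} {s : ℂ} {d : ℕ} (hd : 0 < d) (hs : s ^ 2 = -(d : ℂ))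
    (hj : algebraMap k ℂ j = s) (F : IntermediateField ℚ ℂ) (hF : s ∈ F) (y : k) :
    algebraMap k ℂ y ∈ F := by
  have hso : IsSimpleOrder (IntermediateField ℚ k) :=
    IntermediateField.isSimpleOrder_of_finrank_prime ℚ k (by rw [hk]; exact Nat.prime_two)
  have htop : IntermediateField.adjoin ℚ {j} = ⊤ := by
    rcases IsSimpleOrder.eq_bot_or_eq_top (IntermediateField.adjoin ℚ {j}) with h | h
    · exfalso
      rw [IntermediateField.adjoin_simple_eq_bot_iff, IntermediateField.mem_bot] at h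
      obtain ⟨r, hr⟩ := h
      have h1 : s = ((r : ℚ) : ℂ) := by
        rw [← hj, ← hr, eq_ratCast, map_ratCast]
      rw [h1] at hs
      have h2 : ((r ^ 2 + (d : ℚ) : ℚ) : ℂ) = 0 := by
        push_cast
        rw [hs]
        ring
      have h3 : r ^ 2 + (d : ℚ) = 0 := by exact_mod_cast h2
      have h4 : (0 : ℚ) < d := by exact_mod_cast hd
      nlinarith [sq_nonneg r]
    · exact h
  have hy : y ∈ IntermediateField.adjoin ℚ {j} := by
    rw [htop]
    exact IntermediateField.mem_top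
  induction hy using IntermediateField.adjoin_induction with
  | mem x hx =>
    rw [Set.mem_singleton_iff.1 hx, hj]
    exact hF
  | algebraMap r =>
    have h1 : algebraMap k ℂ (algebraMap ℚ k r) = algebraMap ℚ ℂ r := by
      rw [eq_ratCast, map_ratCast, eq_ratCast]
    rw [h1]
    exact F.algebraMap_mem r
  | add x y _ _ hx hy =>
    rw [map_add]
    exact add_mem hx hy
  | inv x _ hx =>
    rw [map_inv₀]
    exact inv_mem hx
  | mul x y _ _ hx hy =>
    rw [map_mul]
    exact mul_mem hx hy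

private theorem bf_finrank {s : ℂ} {d : ℕ} (hd : 0 < d) (hs : s ^ 2 = -(d : ℂ)) :
    ∃ _ : NumberField (IntermediateField.adjoin ℚ {s}),
      finrank ℚ (IntermediateField.adjoin ℚ {s}) = 2 := by
  have h2 : (Polynomial.X ^ 2 + Polynomial.C (d : ℚ) : Polynomial ℚ).natDegree = 2 := by
    compute_degree!
  have hroot : Polynomial.aeval s (Polynomial.X ^ 2 + Polynomial.C (d : ℚ)) = 0 := by
    simp [hs]
  have hmon : (Polynomial.X ^ 2 + Polynomial.C (d : ℚ)).Monic := by monicity!
  have hint : IsIntegral ℚ s := ⟨_, hmon, by rwa [Polynomial.aeval_def] at hroot⟩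
  have hfd : FiniteDimensional ℚ (IntermediateField.adjoin ℚ {s}) :=
    IntermediateField.adjoin.finiteDimensional hint
  refine ⟨{ to_finiteDimensional := hfd }, ?_⟩
  rw [IntermediateField.adjoin.finrank hint]
  have h1 : minpoly ℚ s = Polynomial.X ^ 2 + Polynomial.C (d : ℚ) := by
    refine (minpoly.eq_of_irreducible_of_monic ?_ hroot hmon).symm
    refine (Polynomial.Monic.irreducible_iff_roots_eq_zero_of_degree_le_three
      hmon (by rw [h2]) (by rw [h2]; norm_num)).2 ?_
    refine Multiset.eq_zero_of_forall_notMem fun x hx => ?_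
    have h3 := (Polynomial.mem_roots'.1 hx).2
    simp only [Polynomial.IsRoot.def, Polynomial.eval_add, Polynomial.eval_pow,
      Polynomial.eval_X, Polynomial.eval_C] at h3
    have h4 : (0 : ℚ) < d := by exact_mod_cast hd
    nlinarith [sq_nonneg x]
  rw [h1, h2]

theorem Base.mem_adjoin' {k : Type} [Field k] [NumberField k] [Algebra k ℂ]
    (hk : finrank ℚ k = 2)
    (hI : ∃ j : k, algebraMap k ℂ j = b.s) {D : EllData k} (hD : D.h = b.h) {N : ℕ} {x : ℂ}
    (hx : x ∈ IntermediateField.adjoin k {D.h (pt (1 : 𝓞 k) N)}) :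
    x ∈ IntermediateField.adjoin ℚ {b.s, b.h (1 / N)} := by
  obtain ⟨j, hj⟩ := hI
  have hk' := bf_range_mem hk b.d_pos b.sq hj (IntermediateField.adjoin ℚ {b.s, b.h (1 / N)})
    (IntermediateField.subset_adjoin ℚ _ (Set.mem_insert _ _))
  have hpt : pt (1 : 𝓞 k) N = 1 / (N : ℂ) := by
    simp [pt]
  rw [hD, hpt] at hx
  induction hx using IntermediateField.adjoin_induction with
  | mem x hx =>
    rw [Set.mem_singleton_iff.1 hx]
    exact IntermediateField.subset_adjoin ℚ _ (Set.mem_insert_of_mem _ rfl)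
  | algebraMap r => exact hk' r
  | add x y _ _ hx hy => exact add_mem hx hy
  | inv x _ hx => exact inv_mem hx
  | mul x y _ _ hx hy => exact mul_mem hx hy

/-- `ℚ(s)` as a subfield of `ℂ` -/
theorem Base.exists_data : ∃ (k : IntermediateField ℚ ℂ) (_ : NumberField k) (D : EllData k),
    finrank ℚ k = 2 ∧ (∃ j : k, algebraMap k ℂ j = b.s) ∧ D.N₀ ∣ b.N₀ ∧ D.h = b.h := by
  obtain ⟨hnf, hk⟩ := bf_finrank b.d_pos b.sq
  have hI : ∃ j : IntermediateField.adjoin ℚ {b.s},
      algebraMap (IntermediateField.adjoin ℚ {b.s}) ℂ j = b.s :=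
    ⟨⟨b.s, IntermediateField.mem_adjoin_simple_self ℚ b.s⟩, rfl⟩
  obtain ⟨D, hD, hDh⟩ := b.data (IntermediateField.adjoin ℚ {b.s}) hk hI
  exact ⟨IntermediateField.adjoin ℚ {b.s}, hnf, D, hk, hI, hD, hDh⟩

theorem Base.zeta {N : ℕ} (hN₀ : b.N₀ ∣ N) (hN : N ≠ 0) :
    Complex.exp (2 * Real.pi * Complex.I / N) ∈
      IntermediateField.adjoin ℚ {b.s, b.h (1 / N)} := by
  obtain ⟨k, _, D, hk, hI, hD, hDh⟩ := b.exists_data
  exact b.mem_adjoin' hk hI hDh (zeta_mem D (hD.trans hN₀) hN)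

theorem Base.adjoin_le {N N' : ℕ} (hN₀ : b.N₀ ∣ N) (hN' : N' ≠ 0) (h : N ∣ N') :
    IntermediateField.adjoin ℚ {b.s, b.h (1 / N)} ≤
      IntermediateField.adjoin ℚ {b.s, b.h (1 / N')} := by
  obtain ⟨m, rfl⟩ := h
  have hN : N ≠ 0 := left_ne_zero_of_mul hN'
  have hm : m ≠ 0 := right_ne_zero_of_mul hN'
  obtain ⟨k, _, D, hk, hI, hD, hDh⟩ := b.exists_data
  rw [IntermediateField.adjoin_le_iff]
  rintro y (rfl | rfl)
  · exact IntermediateField.subset_adjoin ℚ _ (Set.mem_insert _ _)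
  · have h1 := b.mem_adjoin' hk hI hDh (h_mem_mul D (hD.trans hN₀) hN hm)
    have hpt : pt (1 : 𝓞 k) N = 1 / (N : ℂ) := by
      simp [pt]
    rwa [hDh, hpt] at h1

section

variable {M : Type} [Field M] [NumberField M] (ι : M →+* ℂ) (hs : ∃ j : M, ι j = b.s)
  {N : ℕ} (hN₀ : b.N₀ ∣ N) (hN : N ≠ 0)
  (hM : ∀ x : M, ι x ∈ IntermediateField.adjoin ℚ {b.s, b.h (1 / N)})
include hs hN₀ hN hM

theorem Base.ram (p : ℕ) (hp : p.Prime) (h : (p : ℤ) ∣ discr M) : p ∣ N := by
  obtain ⟨k, _, hk, hι, hI, -⟩ := b.exists_field ι hs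
  obtain ⟨D, hD, hDh⟩ := b.data k hk hI
  exact ram_of_mem D (hD.trans hN₀) hN (fun p hp h => (b.disc k hk hI p hp h).trans hN₀) ι
    (fun x => (hι x).symm) (fun x => b.mem_adjoin hI hDh (hM x)) p hp h

theorem Base.ab [IsGalois ℚ M] {x : M} (hx : ∀ σ τ : Gal(M/ℚ), σ (τ x) = τ (σ x)) :
    ι x ∈ IntermediateField.adjoin ℚ
      {Complex.exp (2 * Real.pi * Complex.I / (b.m * N : ℕ))} := by
  have hram := b.ram ι hs hN₀ hN hM
  obtain ⟨k, _, hk, hι, hI, -⟩ := b.exists_field ι hs
  obtain ⟨D, hD, hDh⟩ := b.data k hk hI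
  refine ab_mem_cyclotomic (d := b.d) D (hD.trans hN₀) hN (Nat.mul_ne_zero b.m_ne hN)
    (b.two_dvd.trans hN₀) (fun p hp h => (b.d_dvd p hp h).trans hN₀) b.d_pos ?_ ?_
    (b.norm k hk hI N hN₀ hN) ι (fun x => (hι x).symm) (fun x => b.mem_adjoin hI hDh (hM x))
    hram hx
  · obtain ⟨j, hj⟩ := hI
    refine ⟨j, (algebraMap k ℂ).injective ?_⟩
    rw [map_pow, hj, b.sq, map_neg, map_natCast]
  · intro p n hp hpN h
    refine b.qr p n hp (fun h' => hpN (h'.trans hN₀)) ?_
    have h1 : p ^ n ≡ 1 [MOD b.m * N] := h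
    exact h1.of_dvd (Nat.mul_dvd_mul_left _ hN₀)

/-- automorphisms that fix `s` commute -/
theorem Base.comm [IsGalois ℚ M] {j : M} (hj : ι j = b.s) (g h : Gal(M/ℚ)) (hg : g j = j)
    (hh : h j = j) : g * h = h * g := by
  obtain ⟨k, _, hk, hι, hI, hkj⟩ := b.exists_field ι hs
  obtain ⟨D, hD, hDh⟩ := b.data k hk hI
  have hab : IsAbelianGalois k M :=
    isAbelian_of_mem D (hD.trans hN₀) hN ι (fun x => (hι x).symm)
      (fun x => b.mem_adjoin hI hDh (hM x))
  have hfix : ∀ f : Gal(M/ℚ), f j = j → ∀ x : k, f (algebraMap k M x) = algebraMap k M x := by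
    intro f hf x
    have hx : (x : M) ∈ IntermediateField.adjoin ℚ {j} := by
      rw [← (hkj j hj).2]
      exact x.2
    change f (x : M) = (x : M)
    generalize (x : M) = y at hx
    induction hx using IntermediateField.adjoin_induction with
    | mem x hx => rw [Set.mem_singleton_iff.1 hx, hf]
    | algebraMap r => exact f.commutes r
    | add x y _ _ hx hy => rw [map_add, hx, hy]
    | inv x _ hx => rw [map_inv₀, hx]
    | mul x y _ _ hx hy => rw [map_mul, hx, hy]
  let lift : ∀ f : Gal(M/ℚ), f j = j → Gal(M/k) := fun f hf =>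
    { f.toRingEquiv with commutes' := hfix f hf }
  have hcomm : lift g hg * lift h hh = lift h hh * lift g hg := mul_comm' _ _
  ext x
  exact congrArg (fun f : Gal(M/k) => f x) hcomm

end

end Pool.Agent.CMK
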