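import Pool.Agent.CMK.BField

/-!
# K12: Stark units for a `Base`

The proof of `exists_stark_gen` in `CMH/StarkGen.lean`: `k` from `Base.exists_field` (`k = ℚ(j)`), `D` from
`b.data`, `isAbelian_of_mem`, `exists_stark` (`CMG/SStark.lean`), `Base.mem_adjoin`, `Base.ram`.
-/

set_option autoImplicit false

noncomputable section

open NumberField Module Pool.Agent.StarkRQ Pool.Agent.CMG

namespace Pool.Agent.CMK

theorem Base.stark (b : Base) {M : Type} [Field M] [NumberField M] [IsGalois ℚ M] (ι : M →+* ℂ)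
    (hs : ∃ j : M, ι j = b.s) {N : ℕ} (hN₀ : b.N₀ ∣ N) (hN : N ≠ 0)
    (hM : ∀ x : M, ι x ∈ IntermediateField.adjoin ℚ {b.s, b.h (1 / N)}) :
    ∃ (k : IntermediateField ℚ M), finrank ℚ k = 2 ∧ (∀ x : M, ι x = b.s → x ∈ k) ∧
      IsTotallyComplex k ∧ IsAbelianGalois k M ∧
      ∃ η : M, IsStarkUnit k ι N η ∧ (¬ IsPrimePow N → IsIntegral ℤ η ∧ IsIntegral ℤ η⁻¹) := by
  obtain ⟨k, _, hk, hι, hI, hkj⟩ := b.exists_field ι hs
  obtain ⟨D, hD, hDh⟩ := b.data k hk hI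
  have hDN : D.N₀ ∣ N := hD.trans hN₀
  have hM' : ∀ x : M, ι x ∈ IntermediateField.adjoin k {D.h (pt (1 : 𝓞 k) N)} := fun x =>
    b.mem_adjoin hI hDh (hM x)
  have hab := isAbelian_of_mem D hDN hN ι (fun x => (hι x).symm) hM'
  obtain ⟨η, hη, hη'⟩ := exists_stark D hDN hN ι (fun x => (hι x).symm) hM'
    (b.ram ι hs hN₀ hN hM)
  exact ⟨k, hk, fun x hx => (hkj x hx).1, D.isComplex, hab, η, hη, hη'⟩

end Pool.Agent.CMK
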