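import Pool.Agent.CMG.Final
import Pool.Agent.CMG.LRamQ
import Pool.Agent.CMG.LFinal
import Pool.Agent.CMH.KleinU

/-!
# Imaginary quadratic fields with elliptic units: the data

A `Base` is an imaginary quadratic field `ℚ(s)`, `s ^ 2 = -d`, of class number one, with a Weber
function `h` for which `EllData` has been constructed. The examples are `ℚ(i)` and `ℚ(√-2)`
(`Bases.lean`).
-/

set_option autoImplicit false

noncomputable section

open NumberField Module Pool.Agent.StarkRQ Pool.Agent.CMG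

namespace Pool.Agent.CMK

/-- An automorphism acting on the ring of integers. -/
abbrev cj {k : Type} [Field k] [NumberField k] (c : k ≃ₐ[ℚ] k) : 𝓞 k ≃+* 𝓞 k :=
  RingOfIntegers.mapRingEquiv (c : k ≃+* k)

/-- Elements of norm `1` modulo `f` are quotients of conjugates modulo `N`, up to units. -/
def NormOne (k : Type) [Field k] [NumberField k] (N f : ℕ) : Prop :=
  ∀ c : k ≃ₐ[ℚ] k, c ≠ 1 → ∀ x : 𝓞 k, (f : 𝓞 k) ∣ x * cj c x - 1 →
    ∃ ε u : 𝓞 k, IsUnit ε ∧ IsCoprime u (N : 𝓞 k) ∧ (N : 𝓞 k) ∣ x * u - ε * cj c u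

/-- An imaginary quadratic field `ℚ(s)` with elliptic units. The levels `N` are the multiples of
`N₀`; the maximal abelian subfield of `ℚ(s, h(1/N))` is contained in `ℚ(ζ_(mN))`. -/
structure Base where
  s : ℂ
  d : ℕ
  N₀ : ℕ
  m : ℕ
  h : ℂ → ℂ
  d_pos : 0 < d
  sq : s ^ 2 = -(d : ℂ)
  N₀_ne : N₀ ≠ 0
  m_ne : m ≠ 0
  four_dvd : 4 ∣ m * N₀
  two_dvd : 2 ∣ N₀
  m_dvd : ∀ p : ℕ, p.Prime → p ∣ m → p ∣ N₀
  d_dvd : ∀ p : ℕ, p.Prime → p ∣ d → p ∣ N₀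
  data : ∀ (k : Type) [Field k] [NumberField k] [Algebra k ℂ], finrank ℚ k = 2 →
    (∃ j : k, algebraMap k ℂ j = s) → ∃ D : EllData k, D.N₀ ∣ N₀ ∧ D.h = h
  disc : ∀ (k : Type) [Field k] [NumberField k] [Algebra k ℂ], finrank ℚ k = 2 →
    (∃ j : k, algebraMap k ℂ j = s) → ∀ p : ℕ, p.Prime → (p : ℤ) ∣ discr k → p ∣ N₀
  norm : ∀ (k : Type) [Field k] [NumberField k] [Algebra k ℂ], finrank ℚ k = 2 →
    (∃ j : k, algebraMap k ℂ j = s) → ∀ N : ℕ, N₀ ∣ N → N ≠ 0 → NormOne k N (m * N)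
  qr : ∀ p n : ℕ, p.Prime → ¬ p ∣ N₀ → p ^ n % (m * N₀) = 1 % (m * N₀) →
    ((-(d : ℤ) : ℤ) : ZMod p) ^ ((p ^ n - 1) / 2) = 1

end Pool.Agent.CMK
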