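import Pool.Agent.CMH.Iso

/-!
# K04: only `2` is ramified in `ℚ(√-2)`

`e : 𝓞 k ≃+* O2` (`CMH.exists_iso`); `1, √-2` is a `ℤ`-basis of `O2 = ℤ[√-2]`, so `𝓞 k` has a `ℤ`-basis
`1, j` with `j ^ 2 = -2`; `NumberField.discr_eq_discr` and `Algebra.discr` (traces of `1, j, j²` are
`2, 0, -4`) give `discr k = -8`.
-/

set_option autoImplicit false

noncomputable section

open NumberField Module Pool.Agent.CMH

namespace Pool.Agent.CMK

/-- the coordinates -/
private def dhEquiv : O2 ≃ₗ[ℤ] (Fin 2 → ℤ) where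
  toFun a := ![a.re, a.im]
  invFun v := ⟨v 0, v 1⟩
  left_inv a := rfl
  right_inv v := by
    funext i
    fin_cases i <;> rfl
  map_add' a b := by
    funext i
    fin_cases i <;> rfl
  map_smul' c a := by
    funext i
    fin_cases i
    · simp
    · simp

/-- the basis `1, √-2` -/
private def dhBasis : Basis (Fin 2) ℤ O2 := Basis.ofEquivFun dhEquiv

private theorem dh_repr (a : O2) (i : Fin 2) : dhBasis.repr a i = ![a.re, a.im] i := by
  rw [dhBasis, ← Basis.equivFun_apply, Basis.equivFun_ofEquivFun]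
  rfl

private theorem dh_apply (i : Fin 2) : dhBasis i = ![(⟨1, 0⟩ : O2), ⟨0, 1⟩] i := by
  rw [dhBasis, Basis.coe_ofEquivFun]
  fin_cases i
  · rfl
  · rfl

private theorem dh_trace (a : O2) : Algebra.trace ℤ O2 a = 2 * a.re := by
  rw [Algebra.trace_eq_matrix_trace dhBasis, Matrix.trace_fin_two,
    Algebra.leftMulMatrix_eq_repr_mul, Algebra.leftMulMatrix_eq_repr_mul, dh_repr, dh_repr,
    dh_apply, dh_apply]
  simp
  ring

private theorem dh_discr : Algebra.discr ℤ dhBasis = -8 := by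
  rw [Algebra.discr_def, Matrix.det_fin_two]
  simp only [Algebra.traceMatrix_apply, Algebra.traceForm_apply, dh_trace, dh_apply]
  simp

theorem discr_two {k : Type} [Field k] [NumberField k] [Algebra k ℂ] (hk : finrank ℚ k = 2)
    (hs : ∃ j : k, algebraMap k ℂ j = s2) {p : ℕ} (hp : p.Prime) (h : (p : ℤ) ∣ discr k) :
    p = 2 := by
  obtain ⟨e, -⟩ := exists_iso hk hs
  let b : Basis (Fin 2) ℤ (𝓞 k) := dhBasis.map e.symm.toIntAlgEquiv.toLinearEquiv
  have h1 : discr k = -8 := by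
    rw [← discr_eq_discr k b, ← dh_discr,
      Algebra.discr_eq_discr_of_algEquiv (⇑dhBasis) e.symm.toIntAlgEquiv]
    rfl
  rw [h1] at h
  have h2 : (p : ℤ) ∣ ((8 : ℕ) : ℤ) := by
    rw [← dvd_neg]
    exact h
  have h3 : p ∣ 2 ^ 3 := by
    have h4 : p ∣ 8 := Int.natCast_dvd_natCast.1 h2
    norm_num
    exact h4
  exact (Nat.prime_dvd_prime_iff_eq hp Nat.prime_two).1 (hp.dvd_of_dvd_pow h3)

end Pool.Agent.CMK
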