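import Mathlib

/-!
# K07: `-1` and `-2` are squares in the fields with `q ≡ 1` mod `8` elements

`n = 0`: the exponent is `0`. `n > 0`: `p ∤ 4` gives `p` odd. In `F = GaloisField p n` (`p ^ n` elements) `-1` and
`-2` are squares (`FiniteField.isSquare_neg_one_iff`, `FiniteField.isSquare_neg_two_iff`, `q % 8 = 1`), so
`a ^ (q / 2) = 1` (`FiniteField.isSquare_iff`), `q / 2 = (q - 1) / 2` as `q` is odd; the map `ZMod p → F` is
injective.
-/

set_option autoImplicit false

namespace Pool.Agent.CMK

private theorem qr_aux {p n : ℕ} (hp : p.Prime) (hp4 : ¬ p ∣ 4)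
    (h : p ^ n % (8 * 4) = 1 % (8 * 4)) (a : ZMod p) (ha : a ≠ 0)
    (hsq : ∀ (F : Type) [Field F] [Fintype F] [Algebra (ZMod p) F],
      Fintype.card F % 8 = 1 → IsSquare (algebraMap (ZMod p) F a)) :
    a ^ ((p ^ n - 1) / 2) = 1 := by
  have : Fact p.Prime := ⟨hp⟩
  rcases Nat.eq_zero_or_pos n with rfl | hn
  · simp
  · have _ : Fintype (GaloisField p n) := Fintype.ofFinite _
    have hcard : Fintype.card (GaloisField p n) = p ^ n := by
      rw [← Nat.card_eq_fintype_card, GaloisField.card p n hn.ne']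
    have h8 : Fintype.card (GaloisField p n) % 8 = 1 := by
      rw [hcard]
      omega
    have h1 := hsq (GaloisField p n) h8
    have hinj : Function.Injective (algebraMap (ZMod p) (GaloisField p n)) :=
      (algebraMap (ZMod p) (GaloisField p n)).injective
    have hne : algebraMap (ZMod p) (GaloisField p n) a ≠ 0 := by
      intro h0
      apply ha
      apply hinj
      rw [h0, map_zero]
    have hchar : ringChar (GaloisField p n) ≠ 2 := by
      intro h2
      have hc : ringChar (GaloisField p n) = p := ringChar.eq (GaloisField p n) p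
      rw [hc] at h2
      rw [h2] at hp4
      exact hp4 (by norm_num)
    have h3 := (FiniteField.isSquare_iff hchar hne).1 h1
    apply hinj
    rw [map_pow, map_one]
    have h4 : (p ^ n - 1) / 2 = Fintype.card (GaloisField p n) / 2 := by
      rw [hcard]
      omega
    rw [h4]
    exact h3

theorem qr_one {p n : ℕ} (hp : p.Prime) (hp4 : ¬ p ∣ 4) (h : p ^ n % (8 * 4) = 1 % (8 * 4)) :
    ((-((1 : ℕ) : ℤ) : ℤ) : ZMod p) ^ ((p ^ n - 1) / 2) = 1 := by
  have : Fact p.Prime := ⟨hp⟩
  apply qr_aux hp hp4 h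
  · push_cast
    exact neg_ne_zero.2 one_ne_zero
  · intro F _ _ _ h8
    have h1 : IsSquare (-1 : F) := FiniteField.isSquare_neg_one_iff.2 (by omega)
    simpa using h1

theorem qr_two {p n : ℕ} (hp : p.Prime) (hp4 : ¬ p ∣ 4) (h : p ^ n % (8 * 4) = 1 % (8 * 4)) :
    ((-((2 : ℕ) : ℤ) : ℤ) : ZMod p) ^ ((p ^ n - 1) / 2) = 1 := by
  have : Fact p.Prime := ⟨hp⟩
  apply qr_aux hp hp4 h
  · push_cast
    intro h0
    have h2 : ((2 : ℕ) : ZMod p) = 0 := by
      push_cast
      exact neg_eq_zero.1 h0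
    rw [ZMod.natCast_eq_zero_iff] at h2
    exact hp4 (h2.trans (by norm_num))
  · intro F _ _ _ h8
    have h1 : IsSquare (-2 : F) := FiniteField.isSquare_neg_two_iff.2 (by omega)
    have h2 : algebraMap (ZMod p) F ((-((2 : ℕ) : ℤ) : ℤ) : ZMod p) = -2 := by
      rw [map_intCast]
      push_cast
      rfl
    rw [h2]
    exact h1

end Pool.Agent.CMK
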