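import Pool.Agent.CMK.NormTr
import Pool.Agent.CMK.DiscH
import Pool.Agent.CMK.QR

/-!
# K19: the bases `ℚ(i)` and `ℚ(√-2)`
-/

set_option autoImplicit false

noncomputable section

open NumberField Module Pool.Agent.StarkRQ Pool.Agent.CMG

namespace Pool.Agent.CMK

private theorem dvd_four {p : ℕ} (hp : p.Prime) (h : p ∣ 8) : p ∣ 4 := by
  have h8 : p ∣ 2 ^ 3 := h
  rw [(Nat.prime_dvd_prime_iff_eq hp Nat.prime_two).1 (hp.dvd_of_dvd_pow h8)]
  norm_num

/-- `ℚ(i)` -/
def baseI : Base where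
  s := Complex.I
  d := 1
  N₀ := 4
  m := 8
  h := hG
  d_pos := one_pos
  sq := CMH.I_sq'
  N₀_ne := by norm_num
  m_ne := by norm_num
  four_dvd := by norm_num
  two_dvd := by norm_num
  m_dvd := fun _ hp h => dvd_four hp h
  d_dvd := fun p hp h => absurd (Nat.dvd_one.1 h) hp.ne_one
  data := by
    intro k _ _ _ hk hI
    obtain ⟨D, h1, -, h3⟩ := CMG.exists_ellData hk hI
    exact ⟨D, by rw [h1], h3⟩
  disc := by
    intro k _ _ _ hk hI p hp h
    obtain ⟨j, hj⟩ := hI
    have h1 : j ^ 2 = -1 := by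
      apply (algebraMap k ℂ).injective
      rw [map_pow, hj, Complex.I_sq, map_neg, map_one]
    rw [discr_of_sq h1 hk hp h]
    norm_num
  norm := fun k _ _ _ hk hI N _ hN => normOne_I hk hI hN
  qr := fun _ _ hp hp4 h => qr_one hp hp4 h

/-- `ℚ(√-2)` -/
def baseS : Base where
  s := CMH.s2
  d := 2
  N₀ := 4
  m := 8
  h := CMH.XH
  d_pos := two_pos
  sq := CMH.s2_sq'
  N₀_ne := by norm_num
  m_ne := by norm_num
  four_dvd := by norm_num
  two_dvd := by norm_num
  m_dvd := fun _ hp h => dvd_four hp h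
  d_dvd := fun p hp h => h.trans (by norm_num)
  data := by
    intro k _ _ _ hk hI
    obtain ⟨D, h1, -, h3⟩ := CMH.exists_ellData hk hI
    exact ⟨D, by rw [h1], h3⟩
  disc := by
    intro k _ _ _ hk hI p hp h
    rw [discr_two hk hI hp h]
    norm_num
  norm := fun k _ _ _ hk hI N _ hN => normOne_s2 hk hI hN
  qr := fun _ _ hp hp4 h => qr_two hp hp4 h

end Pool.Agent.CMK
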