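import Pool.Agent.StarkRQ.Comm

/-!
# K15: group theory for the Klein four case

`exists_comm_quot`: pass to `G ⧸ S`; `Ā`, `B̄` (images, index 2, abelian), `c̄² = 1`; `exists_z` of
`StarkRQ/Comm.lean` and the argument of the private theorem `comm_one_or` in `CMG/LOdd.lean` (or
`ZData.commutator` in `CMG/LTower.lean`). (One may also redo the arguments modulo `S` directly.)

`groupK`: `v ∈ V`, `v ∉ S₁` gives `v z₁⁻¹ ∈ S₁`, so `V / S₁` has at most two elements, same for `S₂`; with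
`S₁ ⊓ S₂ = ⊥` the group `S₁` embeds in `V / S₂`, so `|S₁| ≤ 2`, and `S₁ ≠ ⊥` as `¬ S₁ ≤ S₂`; so
`S₁ = {1, n₁}`, `S₂ = {1, n₂}`, `n₁ ≠ n₂`, `V = {1, n₁, n₂, n₁ n₂}` (`|V| ≤ 2 |S₁| = 4`, and `n₂ ∉ S₁`,
`n₁ n₂ ∉ S₁ ∪ S₂`; `n₁ n₂ = n₂ n₁` since the commutator lies in `S₁ ⊓ S₂` by normality).
`V ≤ commutator G`: `n₂ ∈ V ∖ S₁` so `z₁ ∈ n₂ S₁ = {n₂, n₁ n₂}` up to order, `z₂ ∈ {n₁, n₁ n₂}`. If
`z₁ ≠ z₂` these two commutators generate `V`. If `z₁ = z₂ = n₁ n₂ =: v`, suppose the commutator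
subgroup is not `V`; as it contains `v` and is contained in `V` it is `{1, v}`. Then for `a, a' ∈ B₁` the
commutator lies in `S₁ ∩ {1, v} = 1`, so `B₁` is abelian, same for `B₂`. Let `x ∈ A ⊓ B₁`, `x ∉ B₂`. `x`
commutes with `A` and with `B₁` which generate `G` (`A ≠ B₁` of index 2: `c`), so `x` is central; `G` is
generated by `B₂` and `x`, so `G` is abelian, contradiction with `v ≠ 1` being a commutator.
-/

set_option autoImplicit false

namespace Pool.Agent.CMK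

variable {G : Type*} [Group G]

private theorem comm_one_or {A B : Subgroup G} {z : G} (hA : A.index = 2)
    (hB : B.index = 2) (hAc : ∀ a ∈ A, ∀ a' ∈ A, a * a' = a' * a)
    (hBc : ∀ a ∈ B, ∀ a' ∈ B, a * a' = a' * a) (hsq : z * z = 1)
    (hcen : ∀ s ∈ A, s ∈ B → ∀ g, s * g = g * s)
    (hcA : ∀ g ∈ A, g ∉ B → ∀ γ, γ ∉ A → γ * g * γ⁻¹ = z * g)
    (hcB : ∀ g ∈ B, g ∉ A → ∀ γ, γ ∉ B → γ * g * γ⁻¹ = z * g) (g g' : G) :
    g * g' * g⁻¹ * g'⁻¹ = 1 ∨ g * g' * g⁻¹ * g'⁻¹ = z := by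
  have key : ∀ a b : G, a * b = b * a → a * b * a⁻¹ * b⁻¹ = 1 := by
    intro a b hab
    rw [hab]; group
  have hzi : z⁻¹ = z := inv_eq_of_mul_eq_one_left hsq
  have key1 : ∀ a b : G, b * a * b⁻¹ = z * a → b * a * b⁻¹ * a⁻¹ = z := by
    intro a b hab
    rw [hab]; group
  have key2 : ∀ a b : G, b * a * b⁻¹ = z * a → a * b * a⁻¹ * b⁻¹ = z := by
    intro a b hab
    have e1 : a * b * a⁻¹ * b⁻¹ = (b * a * b⁻¹ * a⁻¹)⁻¹ := by group
    rw [e1, key1 a b hab, hzi]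
  by_cases hgA : g ∈ A
  · by_cases hgB : g ∈ B
    · exact Or.inl (key _ _ (hcen g hgA hgB g'))
    · by_cases hg'A : g' ∈ A
      · exact Or.inl (key _ _ (hAc g hgA g' hg'A))
      · exact Or.inr (key2 _ _ (hcA g hgA hgB g' hg'A))
  · by_cases hgB : g ∈ B
    · by_cases hg'B : g' ∈ B
      · exact Or.inl (key _ _ (hBc g hgB g' hg'B))
      · exact Or.inr (key2 _ _ (hcB g hgB hgA g' hg'B))
    · by_cases hg'A : g' ∈ A
      · by_cases hg'B : g' ∈ B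
        · exact Or.inl (key _ _ (hcen g' hg'A hg'B g).symm)
        · exact Or.inr (key1 _ _ (hcA g' hg'A hg'B g hgA))
      · by_cases hg'B : g' ∈ B
        · exact Or.inr (key1 _ _ (hcB g' hg'B hg'A g hgB))
        · have h1 : g⁻¹ * g' ∈ A :=
            StarkRQ.mul_mem_of_index_two hA (fun h => hgA (inv_mem_iff.1 h)) hg'A
          have h2 : g⁻¹ * g' ∈ B :=
            StarkRQ.mul_mem_of_index_two hB (fun h => hgB (inv_mem_iff.1 h)) hg'B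
          have h3 := hcen _ h1 h2 g
          left
          apply key
          have h5 : g⁻¹ * g' * g = g' := by rw [h3]; group
          have h6 : g * (g⁻¹ * g' * g) = g' * g := by group
          rwa [h5] at h6

private theorem exists_mem_not_mem {A B : Subgroup G} (hA : A.index = 2) (hB : B.index = 2) {c : G}
    (hcA : c ∈ A) (hcB : c ∉ B) : ∃ b, b ∈ B ∧ b ∉ A := by
  by_contra h
  push Not at h
  have hle : B ≤ A := fun x hx => h x hx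
  have h1 : B.relIndex A * A.index = B.index := Subgroup.relIndex_mul_index hle
  rw [hA, hB] at h1
  have h2 : B.relIndex A = 1 := by omega
  exact hcB (Subgroup.relIndex_eq_one.1 h2 hcA)

theorem exists_comm_quot {A B S : Subgroup G} [S.Normal] (hA : A.index = 2) (hB : B.index = 2)
    (hSA : S ≤ A) (hSB : S ≤ B)
    (hAc : ∀ a ∈ A, ∀ a' ∈ A, a * a' * a⁻¹ * a'⁻¹ ∈ S)
    (hBc : ∀ a ∈ B, ∀ a' ∈ B, a * a' * a⁻¹ * a'⁻¹ ∈ S) {c : G} (hcA : c ∈ A) (hcB : c ∉ B)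
    (hc : c * c = 1) :
    ∃ a b : G, (a * b * a⁻¹ * b⁻¹) * (a * b * a⁻¹ * b⁻¹) ∈ S ∧
      ∀ g h : G, g * h * g⁻¹ * h⁻¹ ∈ S ∨
        g * h * g⁻¹ * h⁻¹ * (a * b * a⁻¹ * b⁻¹)⁻¹ ∈ S := by
  set f : G →* G ⧸ S := QuotientGroup.mk' S with hf
  have hsurj : Function.Surjective f := QuotientGroup.mk'_surjective S
  have hker : f.ker = S := QuotientGroup.ker_mk' S
  have hone : ∀ x, f x = 1 ↔ x ∈ S := fun x => by rw [← MonoidHom.mem_ker, hker]
  have hA' : (A.map f).index = 2 := by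
    rw [Subgroup.index_map_eq A hsurj (hker.le.trans hSA), hA]
  have hB' : (B.map f).index = 2 := by
    rw [Subgroup.index_map_eq B hsurj (hker.le.trans hSB), hB]
  have hcomm : ∀ {C : Subgroup G}, (∀ a ∈ C, ∀ a' ∈ C, a * a' * a⁻¹ * a'⁻¹ ∈ S) →
      ∀ a ∈ C.map f, ∀ a' ∈ C.map f, a * a' = a' * a := by
    rintro C hC _ ⟨a, ha, rfl⟩ _ ⟨a', ha', rfl⟩
    have h1 := (hone _).mpr (hC a ha a' ha')
    rw [map_mul, map_mul, map_mul, map_inv, map_inv, mul_inv_eq_one, mul_inv_eq_iff_eq_mul] at h1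
    exact h1
  have hcA' : f c ∈ A.map f := ⟨c, hcA, rfl⟩
  have hcB' : f c ∉ B.map f := by
    rintro ⟨b, hb, hbc⟩
    apply hcB
    have h1 : b⁻¹ * c ∈ S := by
      rw [← hone, map_mul, map_inv, hbc, inv_mul_cancel]
    have h2 := B.mul_mem hb (hSB h1)
    rwa [mul_inv_cancel_left] at h2
  obtain ⟨z, hzA, hzB, hzz, hcen, h1, h2, h3, b', hzb⟩ := StarkRQ.exists_z hA' hB' (hcomm hAc)
    (hcomm hBc) hcA' hcB' (by rw [← map_mul, hc, map_one])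
  obtain ⟨b, rfl⟩ := hsurj b'
  have hz : f (b * c * b⁻¹ * c⁻¹) = z := by
    rw [hzb, map_mul, map_mul, map_mul, map_inv, map_inv]
  refine ⟨b, c, ?_, fun g h => ?_⟩
  · rw [← hone, map_mul, hz, hzz]
  · rcases comm_one_or hA' hB' (hcomm hAc) (hcomm hBc) hzz hcen h1 h2 (f g) (f h) with h4 | h4
    · left
      rw [← hone, map_mul, map_mul, map_mul, map_inv, map_inv, h4]
    · right
      rw [← hone, map_mul, map_inv f (b * c * b⁻¹ * c⁻¹), hz, map_mul, map_mul, map_mul, map_inv,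
        map_inv, h4, mul_inv_cancel]

theorem groupK {A B₁ B₂ V S₁ S₂ : Subgroup G} [S₁.Normal] [S₂.Normal] (hA : A.index = 2)
    (hB₁ : B₁.index = 2) (hB₂ : B₂.index = 2)
    (hAc : ∀ a ∈ A, ∀ a' ∈ A, a * a' = a' * a)
    (hBc₁ : ∀ a ∈ B₁, ∀ a' ∈ B₁, a * a' * a⁻¹ * a'⁻¹ ∈ S₁)
    (hBc₂ : ∀ a ∈ B₂, ∀ a' ∈ B₂, a * a' * a⁻¹ * a'⁻¹ ∈ S₂)
    (hS : S₁ ⊓ S₂ = ⊥) (hS₁V : S₁ ≤ V) (hS₂V : S₂ ≤ V) {z₁ z₂ : G}
    (hz₁ : ∃ g h : G, z₁ = g * h * g⁻¹ * h⁻¹) (hz₂ : ∃ g h : G, z₂ = g * h * g⁻¹ * h⁻¹)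
    (hV₁ : ∀ v ∈ V, v ∈ S₁ ∨ v * z₁⁻¹ ∈ S₁) (hV₂ : ∀ v ∈ V, v ∈ S₂ ∨ v * z₂⁻¹ ∈ S₂)
    (hcV : ∀ g h : G, g * h * g⁻¹ * h⁻¹ ∈ V) {c : G} (hcA : c ∈ A) (hc₁ : c ∉ B₁) (hc₂ : c ∉ B₂)
    (hAB : ¬ A ⊓ B₁ ≤ B₂) (h12 : ¬ S₁ ≤ S₂) (h21 : ¬ S₂ ≤ S₁) :
    Nat.card V = 4 ∧ Nat.card S₁ = 2 ∧ Nat.card S₂ = 2 ∧ V ≤ commutator G := by
  classical
  have hbot : ∀ x, x ∈ S₁ → x ∈ S₂ → x = 1 := by
    intro x h1 h2
    have : x ∈ S₁ ⊓ S₂ := Subgroup.mem_inf.mpr ⟨h1, h2⟩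
    rwa [hS, Subgroup.mem_bot] at this
  obtain ⟨n₁, hn₁, hn₁'⟩ := SetLike.not_le_iff_exists.mp h12
  obtain ⟨n₂, hn₂, hn₂'⟩ := SetLike.not_le_iff_exists.mp h21
  -- two elements outside `S₁` differ by an element of `S₁`
  have hd₁ : ∀ x ∈ V, ∀ y ∈ V, x ∉ S₁ → y ∉ S₁ → x * y⁻¹ ∈ S₁ := by
    intro x hx y hy hx1 hy1
    have h1 := (hV₁ x hx).resolve_left hx1
    have h2 := (hV₁ y hy).resolve_left hy1
    have e : x * y⁻¹ = (x * z₁⁻¹) * (y * z₁⁻¹)⁻¹ := by group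
    rw [e]
    exact S₁.mul_mem h1 (S₁.inv_mem h2)
  have hd₂ : ∀ x ∈ V, ∀ y ∈ V, x ∉ S₂ → y ∉ S₂ → x * y⁻¹ ∈ S₂ := by
    intro x hx y hy hx1 hy1
    have h1 := (hV₂ x hx).resolve_left hx1
    have h2 := (hV₂ y hy).resolve_left hy1
    have e : x * y⁻¹ = (x * z₂⁻¹) * (y * z₂⁻¹)⁻¹ := by group
    rw [e]
    exact S₂.mul_mem h1 (S₂.inv_mem h2)
  have hS₁ : ∀ x, x ∈ S₁ ↔ x = 1 ∨ x = n₁ := by
    intro x
    constructor
    · intro hx
      by_cases h : x ∈ S₂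
      · exact Or.inl (hbot x hx h)
      · right
        have h1 := hd₂ x (hS₁V hx) n₁ (hS₁V hn₁) h hn₁'
        have h2 := hbot _ (S₁.mul_mem hx (S₁.inv_mem hn₁)) h1
        exact mul_inv_eq_one.mp h2
    · rintro (rfl | rfl)
      · exact S₁.one_mem
      · exact hn₁
  have hS₂ : ∀ x, x ∈ S₂ ↔ x = 1 ∨ x = n₂ := by
    intro x
    constructor
    · intro hx
      by_cases h : x ∈ S₁
      · exact Or.inl (hbot x h hx)
      · right
        have h1 := hd₁ x (hS₂V hx) n₂ (hS₂V hn₂) h hn₂'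
        have h2 := hbot _ h1 (S₂.mul_mem hx (S₂.inv_mem hn₂))
        exact mul_inv_eq_one.mp h2
    · rintro (rfl | rfl)
      · exact S₂.one_mem
      · exact hn₂
  have h1n₁ : n₁ ≠ 1 := fun h => hn₁' (h ▸ S₂.one_mem)
  have h1n₂ : n₂ ≠ 1 := fun h => hn₂' (h ▸ S₁.one_mem)
  have hi₁ : n₁⁻¹ = n₁ := ((hS₁ _).mp (S₁.inv_mem hn₁)).resolve_left (by simpa using h1n₁)
  have hi₂ : n₂⁻¹ = n₂ := ((hS₂ _).mp (S₂.inv_mem hn₂)).resolve_left (by simpa using h1n₂)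
  have hcomm : n₁ * n₂ = n₂ * n₁ := by
    have h1 : n₁ * n₂ * n₁⁻¹ * n₂⁻¹ ∈ S₁ := by
      have e : n₁ * n₂ * n₁⁻¹ * n₂⁻¹ = n₁ * (n₂ * n₁⁻¹ * n₂⁻¹) := by group
      rw [e]
      exact S₁.mul_mem hn₁ (Subgroup.Normal.conj_mem inferInstance _ (S₁.inv_mem hn₁) n₂)
    have h2 : n₁ * n₂ * n₁⁻¹ * n₂⁻¹ ∈ S₂ :=
      S₂.mul_mem (Subgroup.Normal.conj_mem inferInstance _ hn₂ n₁) (S₂.inv_mem hn₂)
    have h3 := hbot _ h1 h2
    rwa [mul_inv_eq_one, mul_inv_eq_iff_eq_mul] at h3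
  have h12ne : n₁ ≠ n₂ := fun h => hn₁' (h ▸ hn₂)
  have hprod1 : n₁ * n₂ ≠ 1 := by
    intro h
    apply hn₂'
    have : n₂ = n₁⁻¹ := (inv_eq_of_mul_eq_one_right h).symm
    rw [this]
    exact S₁.inv_mem hn₁
  have hV : ∀ x, x ∈ V ↔ x = 1 ∨ x = n₁ ∨ x = n₂ ∨ x = n₁ * n₂ := by
    intro x
    constructor
    · intro hx
      by_cases h : x ∈ S₁
      · rcases (hS₁ x).mp h with h | h
        · exact Or.inl h
        · exact Or.inr (Or.inl h)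
      · have h1 := (hS₁ _).mp (hd₁ x hx n₂ (hS₂V hn₂) h hn₂')
        rcases h1 with h1 | h1
        · exact Or.inr (Or.inr (Or.inl (mul_inv_eq_one.mp h1)))
        · exact Or.inr (Or.inr (Or.inr (mul_inv_eq_iff_eq_mul.mp h1)))
    · rintro (rfl | rfl | rfl | rfl)
      · exact V.one_mem
      · exact hS₁V hn₁
      · exact hS₂V hn₂
      · exact V.mul_mem (hS₁V hn₁) (hS₂V hn₂)
  have hcardV : Nat.card V = 4 := by
    have e : (V : Set G) = (({1, n₁, n₂, n₁ * n₂} : Finset G) : Set G) := by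
      ext x
      simp only [SetLike.mem_coe, hV, Finset.coe_insert, Finset.coe_singleton,
        Set.mem_insert_iff, Set.mem_singleton_iff]
    have h1 : Nat.card V = Set.ncard (V : Set G) := rfl
    rw [h1, e, Set.ncard_coe_finset, Finset.card_insert_of_notMem, Finset.card_insert_of_notMem,
      Finset.card_insert_of_notMem, Finset.card_singleton]
    · rw [Finset.mem_singleton]
      intro h
      exact h1n₁ (by simpa using h)
    · rw [Finset.mem_insert, Finset.mem_singleton, not_or]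
      exact ⟨h12ne, fun h => h1n₂ (by simpa using h)⟩
    · rw [Finset.mem_insert, Finset.mem_insert, Finset.mem_singleton, not_or, not_or]
      exact ⟨h1n₁.symm, h1n₂.symm, hprod1.symm⟩
  have hcardS : ∀ (T : Subgroup G) (n : G), n ≠ 1 → (∀ x, x ∈ T ↔ x = 1 ∨ x = n) →
      Nat.card T = 2 := by
    intro T n hn hT
    have e : (T : Set G) = (({1, n} : Finset G) : Set G) := by
      ext x
      simp only [SetLike.mem_coe, hT, Finset.coe_insert, Finset.coe_singleton,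
        Set.mem_insert_iff, Set.mem_singleton_iff]
    have h1 : Nat.card T = Set.ncard (T : Set G) := rfl
    rw [h1, e, Set.ncard_coe_finset, Finset.card_insert_of_notMem, Finset.card_singleton]
    rw [Finset.mem_singleton]
    exact hn.symm
  refine ⟨hcardV, hcardS S₁ n₁ h1n₁ hS₁, hcardS S₂ n₂ h1n₂ hS₂, ?_⟩
  have hcomm_mem : ∀ g h : G, g * h * g⁻¹ * h⁻¹ ∈ commutator G := by
    intro g h
    exact Subgroup.commutator_mem_commutator (Subgroup.mem_top g) (Subgroup.mem_top h)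
  have hz₁m : z₁ ∈ commutator G := by
    obtain ⟨g, h, rfl⟩ := hz₁
    exact hcomm_mem g h
  have hz₂m : z₂ ∈ commutator G := by
    obtain ⟨g, h, rfl⟩ := hz₂
    exact hcomm_mem g h
  have hgen : n₁ ∈ commutator G → n₂ ∈ commutator G → V ≤ commutator G := by
    intro h1 h2 x hx
    rcases (hV x).mp hx with rfl | rfl | rfl | rfl
    · exact Subgroup.one_mem _
    · exact h1
    · exact h2
    · exact Subgroup.mul_mem _ h1 h2
  -- the values of `z₁`, `z₂`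
  have hz₁v : z₁ = n₂ ∨ z₁ = n₁ * n₂ := by
    have h1 := (hV₁ n₂ (hS₂V hn₂)).resolve_left hn₂'
    rcases (hS₁ _).mp h1 with h2 | h2
    · exact Or.inl (mul_inv_eq_one.mp h2).symm
    · right
      have h3 : n₂ = n₁ * z₁ := mul_inv_eq_iff_eq_mul.mp h2
      calc z₁ = n₁⁻¹ * (n₁ * z₁) := by group
        _ = n₁ * n₂ := by rw [← h3, hi₁]
  have hz₂v : z₂ = n₁ ∨ z₂ = n₁ * n₂ := by
    have h1 := (hV₂ n₁ (hS₁V hn₁)).resolve_left hn₁'
    rcases (hS₂ _).mp h1 with h2 | h2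
    · exact Or.inl (mul_inv_eq_one.mp h2).symm
    · right
      have h3 : n₁ = n₂ * z₂ := mul_inv_eq_iff_eq_mul.mp h2
      calc z₂ = n₂⁻¹ * (n₂ * z₂) := by group
        _ = n₁ * n₂ := by rw [← h3, hi₂, hcomm]
  have hprodm : ∀ v, v = n₁ * n₂ → v ∈ commutator G → n₁ ∈ commutator G → V ≤ commutator G := by
    intro v hv hvm h1
    apply hgen h1
    have e : n₂ = n₁⁻¹ * v := by rw [hv]; group
    rw [e]
    exact Subgroup.mul_mem _ (Subgroup.inv_mem _ h1) hvm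
  have hprodm' : ∀ v, v = n₁ * n₂ → v ∈ commutator G → n₂ ∈ commutator G → V ≤ commutator G := by
    intro v hv hvm h2
    refine hgen ?_ h2
    have e : n₁ = v * n₂⁻¹ := by rw [hv]; group
    rw [e]
    exact Subgroup.mul_mem _ hvm (Subgroup.inv_mem _ h2)
  rcases hz₁v with h1 | h1
  · rcases hz₂v with h2 | h2
    · exact hgen (h2 ▸ hz₂m) (h1 ▸ hz₁m)
    · exact hprodm' z₂ h2 hz₂m (h1 ▸ hz₁m)
  · rcases hz₂v with h2 | h2
    · exact hprodm z₁ h1 hz₁m (h2 ▸ hz₂m)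
    · by_contra hne
      have hn₁c : n₁ ∉ commutator G := fun h => hne (hprodm z₁ h1 hz₁m h)
      have hn₂c : n₂ ∉ commutator G := fun h => hne (hprodm' z₁ h1 hz₁m h)
      have hB₁c : ∀ a ∈ B₁, ∀ a' ∈ B₁, a * a' = a' * a := by
        intro a ha a' ha'
        rcases (hS₁ _).mp (hBc₁ a ha a' ha') with h3 | h3
        · rwa [mul_inv_eq_one, mul_inv_eq_iff_eq_mul] at h3
        · exact absurd (h3 ▸ hcomm_mem a a') hn₁c
      have hB₂c : ∀ a ∈ B₂, ∀ a' ∈ B₂, a * a' = a' * a := by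
        intro a ha a' ha'
        rcases (hS₂ _).mp (hBc₂ a ha a' ha') with h3 | h3
        · rwa [mul_inv_eq_one, mul_inv_eq_iff_eq_mul] at h3
        · exact absurd (h3 ▸ hcomm_mem a a') hn₂c
      obtain ⟨x, hx, hx₂⟩ := SetLike.not_le_iff_exists.mp hAB
      obtain ⟨hxA, hx₁⟩ := Subgroup.mem_inf.mp hx
      obtain ⟨b, hb₁, hbA⟩ := exists_mem_not_mem hA hB₁ hcA hc₁
      have hcen : ∀ g, x * g = g * x := by
        intro g
        by_cases hg : g ∈ A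
        · exact hAc x hxA g hg
        · have h3 : g * b⁻¹ ∈ A :=
            StarkRQ.mul_mem_of_index_two hA hg (fun h => hbA (inv_mem_iff.1 h))
          have h4 := hAc x hxA _ h3
          have h5 := hB₁c x hx₁ b hb₁
          calc x * g = (x * (g * b⁻¹)) * b := by group
            _ = (g * b⁻¹) * (x * b) := by rw [h4]; group
            _ = g * x := by rw [h5]; group
      -- every element is in `B₂` up to a central factor
      have hfac : ∀ g, ∃ b ∈ B₂, ∃ y, (∀ h, y * h = h * y) ∧ g = b * y := by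
        intro g
        by_cases hg : g ∈ B₂
        · exact ⟨g, hg, 1, fun h => by rw [one_mul, mul_one], by rw [mul_one]⟩
        · refine ⟨g * x⁻¹, StarkRQ.mul_mem_of_index_two hB₂ hg (fun h => hx₂ (inv_mem_iff.1 h)),
            x, hcen, by group⟩
      have hab : ∀ g h : G, g * h = h * g := by
        intro g h
        obtain ⟨b₁, hb₁', y₁, hy₁, rfl⟩ := hfac g
        obtain ⟨b₂, hb₂', y₂, hy₂, rfl⟩ := hfac h
        have h3 := hB₂c b₁ hb₁' b₂ hb₂'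
        calc b₁ * y₁ * (b₂ * y₂) = b₁ * (y₁ * (b₂ * y₂)) := by group
          _ = b₁ * (b₂ * y₂ * y₁) := by rw [hy₁]
          _ = (b₁ * b₂) * (y₂ * y₁) := by group
          _ = (b₂ * b₁) * (y₂ * y₁) := by rw [h3]
          _ = b₂ * (b₁ * y₂) * y₁ := by group
          _ = b₂ * (y₂ * b₁) * y₁ := by rw [hy₂ b₁]
          _ = b₂ * y₂ * (b₁ * y₁) := by group
      obtain ⟨g, h, hgh⟩ := hz₁
      rw [hab g h, mul_inv_cancel_right, mul_inv_cancel] at hgh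
      exact hprod1 (h1 ▸ hgh)

/-- an element of `B₁ ∩ B₂` outside `A` -/
theorem exists_outside {A B₁ B₂ : Subgroup G} (hA : A.index = 2)
    (hB₁ : B₁.index = 2) (hB₂ : B₂.index = 2) {c : G} (hcA : c ∈ A) (hc₁ : c ∉ B₁)
    (hAB : ¬ A ⊓ B₁ ≤ B₂) : ∃ b, b ∉ A ∧ b ∈ B₁ ∧ b ∈ B₂ := by
  obtain ⟨x, hx, hx₂⟩ := SetLike.not_le_iff_exists.mp hAB
  obtain ⟨hxA, hx₁⟩ := Subgroup.mem_inf.mp hx
  obtain ⟨b, hb₁, hbA⟩ := exists_mem_not_mem hA hB₁ hcA hc₁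
  by_cases hb₂ : b ∈ B₂
  · exact ⟨b, hbA, hb₁, hb₂⟩
  · exact ⟨b * x, fun h => hbA ((Subgroup.mul_mem_cancel_right A hxA).mp h), B₁.mul_mem hb₁ hx₁,
      StarkRQ.mul_mem_of_index_two hB₂ hb₂ hx₂⟩

end Pool.Agent.CMK
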