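import Pool.Agent.CMK.BField
import Pool.Agent.CMK.GroupK

/-!
# K18: commutators in `Gal(F/ℚ)` for `F ⊆ ℚ(s, h(1/N))` abelian over a real quadratic field

Apply `exists_comm_quot` (`GroupK.lean`) with `G = Gal(E/ℚ)`, `A = fixG K E`, `B` the stabilizer of `j`,
`S = F.fixingSubgroup` (normal: `IsGalois ℚ F`), `c` the complex conjugation of `E`
(`exists_cc ι`, `cc_mem_fixG`; `c j ≠ j` since `ι j = b.s` is not real: `b.sq`, `b.d_pos`). `A` has index 2
(`fixG_index`) and is abelian (`fixG_comm`, `IsAbelianGalois K E`); `B = fixG k E`-like of index 2 for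
`k` from `Base.exists_field` (`k = ℚ(j)`; `fixG_index`, or the orbit of `j` is `{j, -j}`). `[B, B] ≤ S`:
automorphisms `g, h` that fix `j` restrict to automorphisms of `F` that fix `j`, these commute by
`Base.comm` for `F`, `ι.comp (algebraMap F E)` and `⟨j, hjF⟩`. `S ≤ A`: `hKF`. `S ≤ B`: `hjF`.
Translate membership in `S` (`IntermediateField.mem_fixingSubgroup_iff`):
`g h g⁻¹ h⁻¹ z⁻¹ ∈ S` means that `g h g⁻¹ h⁻¹` and `z` agree on `F` (as `z` maps `F` onto `F`).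
-/

set_option autoImplicit false

noncomputable section

open NumberField Module Pool.Agent.StarkRQ Pool.Agent.CMG

namespace Pool.Agent.CMK

private theorem map_mem_F {E : Type} [Field E] [NumberField E] (F : IntermediateField ℚ E)
    [IsGalois ℚ F] (g : Gal(E/ℚ)) {x : E} (hx : x ∈ F) : g x ∈ F := by
  have h1 := AlgEquiv.restrictNormal_commutes g F ⟨x, hx⟩
  have h2 : algebraMap F E ⟨x, hx⟩ = x := rfl
  rw [h2] at h1
  rw [← h1]
  exact (g.restrictNormal F ⟨x, hx⟩).2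

theorem comm_structure (b : Base) {E K : Type} [Field E] [NumberField E] [IsGalois ℚ E]
    [Field K] [NumberField K] [Algebra K E] [IsTotallyReal K] (hK : finrank ℚ K = 2)
    [IsAbelianGalois K E] (ι : E →+* ℂ) (F : IntermediateField ℚ E) [IsGalois ℚ F]
    (hKF : ∀ x : K, algebraMap K E x ∈ F) {j : E} (hjF : j ∈ F) (hj : ι j = b.s)
    {N : ℕ} (hN₀ : b.N₀ ∣ N) (hN : N ≠ 0)
    (hF : ∀ x ∈ F, ι x ∈ IntermediateField.adjoin ℚ {b.s, b.h (1 / N)}) :
    ∃ a b : Gal(E/ℚ), (∀ x ∈ F, (a * b * a⁻¹ * b⁻¹) ((a * b * a⁻¹ * b⁻¹) x) = x) ∧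
      ∀ g h : Gal(E/ℚ), (∀ x ∈ F, (g * h * g⁻¹ * h⁻¹) x = x) ∨
        ∀ x ∈ F, (g * h * g⁻¹ * h⁻¹) x = (a * b * a⁻¹ * b⁻¹) x := by
  classical
  obtain ⟨c, hc⟩ := exists_cc ι
  have hcc : c * c = 1 := by
    ext x
    apply ι.injective
    change ι (c (c x)) = ι x
    rw [hc, hc, Complex.conj_conj]
  have hcK : c ∈ fixG K E := cc_mem_fixG hc
  obtain ⟨k, _, hk, _, _, hjk⟩ := b.exists_field ι ⟨j, hj⟩
  obtain ⟨hjk, hkj⟩ := hjk j hj
  have hkF : k ≤ F := by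
    rw [hkj, IntermediateField.adjoin_simple_le_iff]
    exact hjF
  have hBj : ∀ g : Gal(E/ℚ), g ∈ fixG k E → g j = j := fun g hg => by
    rw [mem_fixG] at hg
    exact hg ⟨j, hjk⟩
  have hck : c ∉ fixG k E := by
    intro h
    have h1 := hBj c h
    have h2 := hc j
    rw [h1, hj] at h2
    obtain ⟨r, hr⟩ := Complex.conj_eq_iff_real.1 h2.symm
    have h3 := b.sq
    rw [hr] at h3
    have h4 : r ^ 2 = -(b.d : ℝ) := by exact_mod_cast h3
    have h5 : (0 : ℝ) < b.d := by exact_mod_cast b.d_pos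
    nlinarith [sq_nonneg r]
  have hS : ∀ g : Gal(E/ℚ), g ∈ F.fixingSubgroup ↔ ∀ x ∈ F, g x = x := fun g =>
    IntermediateField.mem_fixingSubgroup_iff F g
  have hSn : F.fixingSubgroup.Normal := ⟨fun n hn g => by
    rw [hS] at hn ⊢
    intro x hx
    have h1 : (g * n * g⁻¹) x = g (n (g⁻¹ x)) := rfl
    rw [h1, hn _ (map_mem_F F g⁻¹ hx)]
    exact g.apply_symm_apply x⟩
  have hA : ∀ σ τ : Gal(E/K), σ * τ = τ * σ := fun σ τ => mul_comm' σ τ
  -- automorphisms that fix `j` commute on `F`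
  have hcomm : ∀ g h : Gal(E/ℚ), g j = j → h j = j → ∀ x ∈ F, g (h x) = h (g x) := by
    intro g h hg hh x hx
    have hr : ∀ (g : Gal(E/ℚ)) (y : F), ((g.restrictNormal F y : F) : E) = g y := fun g y =>
      AlgEquiv.restrictNormal_commutes g F y
    have h1 := b.comm (M := F) (ι.comp (algebraMap F E)) ⟨⟨j, hjF⟩, hj⟩ hN₀ hN
      (fun y => hF y y.2) (j := ⟨j, hjF⟩) hj (g.restrictNormal F) (h.restrictNormal F)
      (Subtype.ext ((hr g ⟨j, hjF⟩).trans hg)) (Subtype.ext ((hr h ⟨j, hjF⟩).trans hh))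
    have h2 := congrArg (fun σ : Gal(F/ℚ) => ((σ ⟨x, hx⟩ : F) : E)) h1
    simp only [AlgEquiv.mul_apply] at h2
    rw [hr, hr, hr, hr] at h2
    exact h2
  obtain ⟨a, a', h1, h2⟩ := exists_comm_quot (A := fixG K E) (B := fixG k E)
    (S := F.fixingSubgroup) (fixG_index (M := E) hK) (fixG_index (M := E) hk)
    (fun g hg => by
      rw [mem_fixG]
      intro x
      exact (hS g).1 hg _ (hKF x))
    (fun g hg => by
      rw [mem_fixG]
      intro x
      exact (hS g).1 hg _ (hkF x.2))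
    (fun g hg h hh => by
      have h1 := fixG_comm hA g hg h hh
      have h2 : g * h * g⁻¹ * h⁻¹ = 1 := by rw [h1]; group
      rw [h2]
      exact one_mem _)
    (fun g hg h hh => by
      rw [hS]
      intro x hx
      have h1 := hcomm g h (hBj g hg) (hBj h hh) ((g⁻¹ * h⁻¹) x) (map_mem_F F _ hx)
      have h2 : (g * h * g⁻¹ * h⁻¹) x = g (h ((g⁻¹ * h⁻¹) x)) := by
        rw [mul_assoc (g * h)]; rfl
      rw [h2, h1]
      have h3 : h (g ((g⁻¹ * h⁻¹) x)) = (h * g * (g⁻¹ * h⁻¹)) x := rfl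
      rw [h3]
      simp)
    hcK hck hcc
  refine ⟨a, a', fun x hx => ?_, fun g h => ?_⟩
  · exact (hS _).1 h1 x hx
  · rcases h2 g h with h3 | h3
    · exact Or.inl ((hS _).1 h3)
    · right
      intro x hx
      have h4 := (hS _).1 h3 ((a * a' * a⁻¹ * a'⁻¹) x) (map_mem_F F _ hx)
      have h5 : (g * h * g⁻¹ * h⁻¹ * (a * a' * a⁻¹ * a'⁻¹)⁻¹) ((a * a' * a⁻¹ * a'⁻¹) x) =
          (g * h * g⁻¹ * h⁻¹ * (a * a' * a⁻¹ * a'⁻¹)⁻¹ * (a * a' * a⁻¹ * a'⁻¹)) x := rfl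
      rw [h5, inv_mul_cancel_right] at h4
      exact h4

end Pool.Agent.CMK
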