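import Pool.Agent.CMK.GroupK
import Pool.Agent.CMG.LTower

/-!
# K16: the maximal abelian subfield of `F(ζ)`

`fix_or`: Galois correspondence, like the private lemma `LTower_fixed` in `CMG/LTower.lean`, for the group
`Gal(F/ℚ)` (restriction `AlgEquiv.restrictNormalHom F : Gal(E/ℚ) →* Gal(F/ℚ)` is surjective): let `z` be the
restriction of `a b a⁻¹ b⁻¹`; all commutators of `Gal(F/ℚ)` are in `C = {1, z}` (`hab`), `z * z = 1`. The
restriction `γ` of `g` fixes the fixed field of `C`: if `x ∈ F` is fixed by `C` then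
`σ (τ x) = τ (σ x)` for all `σ τ : Gal(E/ℚ)`, so `g x = x` by `hg`. Hence `γ ∈ C`
(`IntermediateField.fixingSubgroup_fixedField`).

`ab_sup`: let `x ∈ F ⊔ ℚ(ζ)` be such an element. It is enough that every `g ∈ Gal(E/ℚ)` with `g ζ = ζ` fixes
`x` (`IsGalois.fixedField_fixingSubgroup` for `ℚ(ζ)`). `g` fixes `ℚ(ζ)`, so `hg` of `fix_or` holds by `hF`. If
`g` is the identity on `F`, it is the identity on `F ⊔ ℚ(ζ)`. Otherwise `g = z'` on `F` with
`z' = a b a⁻¹ b⁻¹`, and `z' ζ = ζ` (`commutator_fixes` in `StarkRQ`, used in `LTower.lean`), so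
`g x = z' x = x` (`x` is fixed by commutators).
-/

set_option autoImplicit false

noncomputable section

open NumberField Module Pool.Agent.StarkRQ

namespace Pool.Agent.CMK

/-- The Galois correspondence for the commutator subgroup. -/
private lemma CommK_fixed {M : Type} [Field M] [NumberField M] [IsGalois ℚ M] {z : Gal(M/ℚ)}
    (hzz : z * z = 1)
    (hz : ∀ g h : Gal(M/ℚ), g * h * g⁻¹ * h⁻¹ = 1 ∨ g * h * g⁻¹ * h⁻¹ = z) (g : Gal(M/ℚ))
    (hg : ∀ x : M, (∀ σ τ : Gal(M/ℚ), σ (τ x) = τ (σ x)) → g x = x) : g = 1 ∨ g = z := by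
  let C : Subgroup Gal(M/ℚ) :=
    { carrier := {g | g = 1 ∨ g = z}
      mul_mem' := by
        rintro a b (rfl | rfl) (rfl | rfl)
        · left; simp
        · right; simp
        · right; simp
        · left; exact hzz
      one_mem' := Or.inl rfl
      inv_mem' := by
        rintro a (rfl | rfl)
        · left; simp
        · right; exact inv_eq_of_mul_eq_one_right hzz }
  have hmem : g ∈ C := by
    rw [← IntermediateField.fixingSubgroup_fixedField C, IntermediateField.mem_fixingSubgroup_iff]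
    intro x hx
    apply hg
    have hx' : ∀ c ∈ C, c x = x := by
      intro c hc
      exact hx ⟨c, hc⟩
    intro σ τ
    have hc : σ⁻¹ * τ⁻¹ * σ * τ ∈ C := by
      have := hz σ⁻¹ τ⁻¹
      rw [inv_inv, inv_inv] at this
      exact this
    have h1 := hx' _ hc
    have h2 : σ (τ x) = (τ * σ) ((σ⁻¹ * τ⁻¹ * σ * τ) x) := by
      change (σ * τ) x = ((τ * σ) * (σ⁻¹ * τ⁻¹ * σ * τ)) x
      congr 1
      group
    rw [h2, h1]
    rfl
  exact hmem

variable {E : Type} [Field E] [NumberField E] [IsGalois ℚ E] (F : IntermediateField ℚ E)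
  [IsGalois ℚ F] {a b : Gal(E/ℚ)}
  (hzz : ∀ x ∈ F, (a * b * a⁻¹ * b⁻¹) ((a * b * a⁻¹ * b⁻¹) x) = x)
  (hab : ∀ g h : Gal(E/ℚ), (∀ x ∈ F, (g * h * g⁻¹ * h⁻¹) x = x) ∨
    ∀ x ∈ F, (g * h * g⁻¹ * h⁻¹) x = (a * b * a⁻¹ * b⁻¹) x)
include hzz hab

theorem fix_or (g : Gal(E/ℚ))
    (hg : ∀ x ∈ F, (∀ σ τ : Gal(E/ℚ), σ (τ x) = τ (σ x)) → g x = x) :
    (∀ x ∈ F, g x = x) ∨ ∀ x ∈ F, g x = (a * b * a⁻¹ * b⁻¹) x := by
  let R : Gal(E/ℚ) →* Gal(F/ℚ) := AlgEquiv.restrictNormalHom F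
  have hres : ∀ (γ : Gal(E/ℚ)) (x : F), ((R γ x : F) : E) = γ (x : E) :=
    fun γ x => AlgEquiv.restrictNormal_commutes γ F x
  have hsurj : Function.Surjective R :=
    AlgEquiv.restrictNormalHom_surjective (F := ℚ) (K₁ := F) E
  have heq : ∀ γ δ : Gal(E/ℚ), (∀ x ∈ F, γ x = δ x) ↔ R γ = R δ := by
    intro γ δ
    constructor
    · intro h
      ext x
      rw [hres, hres]
      exact h x x.2
    · intro h x hx
      have h1 := hres γ ⟨x, hx⟩
      have h2 := hres δ ⟨x, hx⟩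
      rw [h] at h1
      exact h1.symm.trans h2
  have hone : R 1 = 1 := map_one R
  have h := CommK_fixed (z := R (a * b * a⁻¹ * b⁻¹)) (by
      rw [← map_mul, ← hone, ← heq]
      intro x hx
      exact hzz x hx) (by
      intro g' h'
      obtain ⟨g₁, rfl⟩ := hsurj g'
      obtain ⟨h₁, rfl⟩ := hsurj h'
      have e1 : R g₁ * R h₁ * (R g₁)⁻¹ * (R h₁)⁻¹ = R (g₁ * h₁ * g₁⁻¹ * h₁⁻¹) := by
        simp only [map_mul, map_inv]
      rw [e1]
      rcases hab g₁ h₁ with h1 | h1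
      · left
        rw [← hone, ← heq]
        intro x hx
        exact h1 x hx
      · right
        rw [← heq]
        exact h1) (R g) (by
      intro x hx
      apply Subtype.ext
      rw [hres]
      apply hg x x.2
      intro σ τ
      have h1 := congrArg (fun y : F => (y : E)) (hx (R σ) (R τ))
      simp only [hres] at h1
      exact h1)
  rcases h with h | h
  · left
    rw [← hone, ← heq] at h
    intro x hx
    exact h x hx
  · right
    rw [← heq] at h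
    exact h

theorem ab_sup {ζ : E} {f : ℕ} (hf : f ≠ 0) (hζ : IsPrimitiveRoot ζ f)
    (hF : ∀ x ∈ F, (∀ σ τ : Gal(E/ℚ), σ (τ x) = τ (σ x)) → x ∈ IntermediateField.adjoin ℚ {ζ}) :
    ∀ x ∈ F ⊔ IntermediateField.adjoin ℚ {ζ}, (∀ σ τ : Gal(E/ℚ), σ (τ x) = τ (σ x)) →
      x ∈ IntermediateField.adjoin ℚ {ζ} := by
  intro x hx hcomm
  have : NeZero f := ⟨hf⟩
  -- elements fixing `F` and `ζ` fix `x`
  have hfx : ∀ γ : Gal(E/ℚ), (∀ y ∈ F, γ y = y) → γ ζ = ζ → γ x = x := by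
    intro γ h1 h2
    have h3 : F ⊔ IntermediateField.adjoin ℚ {ζ} ≤
        IntermediateField.fixedField (Subgroup.zpowers γ) := by
      have h4 : ∀ y : E, γ y = y → y ∈ IntermediateField.fixedField (Subgroup.zpowers γ) := by
        rintro y hy ⟨c, hc⟩
        obtain ⟨k, rfl⟩ := Subgroup.mem_zpowers_iff.1 hc
        change (γ ^ k) y = y
        have h5 : γ ∈ MulAction.stabilizer Gal(E/ℚ) y := hy
        exact (MulAction.stabilizer Gal(E/ℚ) y).zpow_mem h5 k
      refine sup_le (fun y hy => h4 y (h1 y hy)) ?_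
      rw [IntermediateField.adjoin_simple_le_iff]
      exact h4 ζ h2
    exact h3 hx ⟨γ, Subgroup.mem_zpowers γ⟩
  rw [← IsGalois.fixedField_fixingSubgroup (IntermediateField.adjoin ℚ {ζ})]
  rintro ⟨g, hg⟩
  change g x = x
  rw [IntermediateField.mem_fixingSubgroup_iff] at hg
  have hgζ : g ζ = ζ := hg ζ (IntermediateField.mem_adjoin_simple_self ℚ ζ)
  rcases fix_or F hzz hab g (fun y hy hyc => hg y (hF y hy hyc)) with h | h
  · exact hfx g h hgζ
  · have hz'ζ : (a * b * a⁻¹ * b⁻¹) ζ = ζ := commutator_fixes (w := f) a b ζ hζ.pow_eq_one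
    have h1 := hfx ((a * b * a⁻¹ * b⁻¹)⁻¹ * g) (by
      intro y hy
      change (a * b * a⁻¹ * b⁻¹)⁻¹ (g y) = y
      rw [h y hy]
      exact (a * b * a⁻¹ * b⁻¹).symm_apply_apply y) (by
      change (a * b * a⁻¹ * b⁻¹)⁻¹ (g ζ) = ζ
      rw [hgζ]
      nth_rw 1 [← hz'ζ]
      exact (a * b * a⁻¹ * b⁻¹).symm_apply_apply ζ)
    have h2 : g x = (a * b * a⁻¹ * b⁻¹) x := by
      have h3 : (a * b * a⁻¹ * b⁻¹) (((a * b * a⁻¹ * b⁻¹)⁻¹ * g) x) = g x :=
        (a * b * a⁻¹ * b⁻¹).apply_symm_apply (g x)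
      rw [← h3, h1]
    rw [h2]
    change a (b (a⁻¹ (b⁻¹ x))) = x
    rw [hcomm a⁻¹ b⁻¹]
    have e1 : b (b⁻¹ (a⁻¹ x)) = a⁻¹ x := b.apply_symm_apply _
    have e2 : a (a⁻¹ x) = x := a.apply_symm_apply _
    rw [e1, e2]

end Pool.Agent.CMK
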