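import Pool.Agent.CMK.BStark
import Pool.Agent.CMH.KleinU

/-!
# K14: the Klein four case for two bases

The proof of `klein_uncond` in `CMH/KleinU.lean` with `Base.stark` instead of `exists_stark_gauss` and
`exists_stark_sqrt2`. `hram` for `M`: hypothesis.
-/

set_option autoImplicit false

noncomputable section

open NumberField Module Pool.Agent.StarkRQ Pool.Agent.CMG Pool.Agent.CMH

namespace Pool.Agent.CMK

theorem klein_base (b₁ b₂ : Base) {M K H : Type} [Field M] [NumberField M] [IsGalois ℚ M]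
    [Field K] [NumberField K] [Field H] [NumberField H]
    [Algebra K M] [Algebra K H] [Algebra H M] [IsScalarTower K H M]
    [IsTotallyReal K] (hK : finrank ℚ K = 2) [IsAbelianGalois K M] (ι : M →+* ℂ)
    (hH : ∀ y : H, (ι (algebraMap H M y)).im = 0) {f : ℕ} (hN₁ : b₁.N₀ ∣ f) (hN₂ : b₂.N₀ ∣ f)
    (hpp : ¬ IsPrimePow f) (hf : 2 < f)
    (hf4 : f % 4 ≠ 2) {ζ : M} (hζ : IsPrimitiveRoot ζ f)
    (hmax : ∀ x : M, (∀ σ τ : Gal(M/ℚ), σ (τ x) = τ (σ x)) → x ∈ IntermediateField.adjoin ℚ {ζ})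
    (hdeg : finrank ℚ M = 4 * f.totient)
    (hram : ∀ p : ℕ, p.Prime → (p : ℤ) ∣ discr M → p ∣ f)
    (M₁ M₂ : IntermediateField ℚ M) [IsGalois ℚ M₁] [IsGalois ℚ M₂]
    (hdeg₁ : finrank ℚ M₁ = 2 * f.totient) (hdeg₂ : finrank ℚ M₂ = 2 * f.totient)
    (hζ₁ : ζ ∈ M₁) (hζ₂ : ζ ∈ M₂) (hne : M₁ ≠ M₂)
    (hK₁ : ∀ x : K, algebraMap K M x ∈ M₁) (hK₂ : ∀ x : K, algebraMap K M x ∈ M₂)
    (hs₁ : ∃ j : M, j ∈ M₁ ∧ ι j = b₁.s) (hs₂ : ∃ j : M, j ∈ M₂ ∧ ι j = b₂.s)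
    (hM₁ : ∀ x ∈ M₁, ι x ∈ IntermediateField.adjoin ℚ {b₁.s, b₁.h (1 / f)})
    (hM₂ : ∀ x ∈ M₂, ι x ∈ IntermediateField.adjoin ℚ {b₂.s, b₂.h (1 / f)}) :
    ∃ (R : Gal(H/K)) (W : Gal(H/K) → ℂ → ℂ),
      (∀ σ, IsCont (fun n => (zcoeff f σ n : ℂ) - zcoeff f (R * σ) n) (W σ)) ∧
      ∃ ε : Gal(H/K) → (𝓞 H)ˣ,
      (∀ σ, ι (algebraMap H M (ε σ : 𝓞 H)) = Complex.exp (-deriv (W σ) 0)) ∧
      (∀ ρ σ, ρ ((ε σ : 𝓞 H) : H) = ((ε (ρ * σ) : 𝓞 H) : H)) ∧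
      ∀ g : H →+* ℂ, (∃ x : K, g (algebraMap K H x) ≠ ι (algebraMap K M x)) →
        (∀ y, g (R y) = starRingEnd ℂ (g y)) ∧ ∀ σ, ‖g ((ε σ : 𝓞 H) : H)‖ = 1 := by
  have hf0 : f ≠ 0 := by omega
  let _ : Algebra K M₁ := ((algebraMap K M).codRestrict M₁.toSubfield hK₁).toAlgebra
  let _ : Algebra K M₂ := ((algebraMap K M).codRestrict M₂.toSubfield hK₂).toAlgebra
  have hst₁ : IsScalarTower K M₁ M := IsScalarTower.of_algebraMap_eq fun x => rfl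
  have hst₂ : IsScalarTower K M₂ M := IsScalarTower.of_algebraMap_eq fun x => rfl
  obtain ⟨k₁, hk₁, -, htc₁, hab₁, η₁, hη₁, hη₁'⟩ := b₁.stark
    (ι.comp (algebraMap M₁ M)) (by
      obtain ⟨j, hj, hj'⟩ := hs₁
      exact ⟨⟨j, hj⟩, hj'⟩) hN₁ hf0 (fun x => hM₁ _ x.2)
  obtain ⟨k₂, hk₂, -, htc₂, hab₂, η₂, hη₂, hη₂'⟩ := b₂.stark
    (ι.comp (algebraMap M₂ M)) (by
      obtain ⟨j, hj, hj'⟩ := hs₂
      exact ⟨⟨j, hj⟩, hj'⟩) hN₂ hf0 (fun x => hM₂ _ x.2)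
  obtain ⟨u₁, hu₁⟩ := exists_unit hη₁.ne_zero (hη₁' hpp).1 (hη₁' hpp).2
  obtain ⟨u₂, hu₂⟩ := exists_unit hη₂.ne_zero (hη₂' hpp).1 (hη₂' hpp).2
  exact klein_cont (M := M) (K := K) (k₁ := k₁) (k₂ := k₂)
    (M₁ := M₁) (M₂ := M₂) (H := H) hK hk₁ hk₂ hf hf4 hζ hmax hdeg hdeg₁ hdeg₂
    ⟨⟨ζ, hζ₁⟩, rfl⟩ ⟨⟨ζ, hζ₂⟩, rfl⟩ (by
      intro h
      apply hne
      ext x
      constructor
      · intro hx
        have : x ∈ (algebraMap M₁ M).range := ⟨⟨x, hx⟩, rfl⟩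
        rw [h] at this
        obtain ⟨y, hy⟩ := this
        rw [← hy]
        exact y.2
      · intro hx
        have : x ∈ (algebraMap M₂ M).range := ⟨⟨x, hx⟩, rfl⟩
        rw [← h] at this
        obtain ⟨y, hy⟩ := this
        rw [← hy]
        exact y.2)
    hram ι hH u₁ (by rw [hu₁]; exact hη₁) u₂ (by rw [hu₂]; exact hη₂)

end Pool.Agent.CMK
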