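import Pool.Agent.CMK.BStark

/-!
# K13: Question 1 with Tate's condition for the real subextensions of `M ⊆ ℚ(s, h(1/N))`

The proof of `gaussian_lit` in `CMG/LFinal.lean` with `Complex.I`, `hG`, `8` replaced by `b.s`, `b.h`, `b.m`:
`k` from `Base.exists_field`, `D` from `b.data`, `Base.ram`, `Base.ab`, `exists_odd_cont`,
`exists_even_cont` with `f = b.m * N` (if `b.m * N ≤ 2` is possible use `f = 2 * (b.m * N)`; here
`4 ∣ b.m * b.N₀ ∣ b.m * N`, so `2 < f`; prime divisors: `b.m_dvd`), `shintani`,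
`isPartialZeta_half`, `exists_other` (both in `CMG/LFinal.lean`).
-/

set_option autoImplicit false

noncomputable section

open NumberField Module Pool.Agent.StarkRQ Pool.Agent.CMG

namespace Pool.Agent.CMK

theorem Base.lit (b : Base) {M K H : Type} [Field M] [NumberField M] [IsGalois ℚ M]
    [Field K] [NumberField K] [Field H] [NumberField H]
    [Algebra K M] [Algebra K H] [Algebra H M] [IsScalarTower K H M]
    [IsTotallyReal K] (hK : finrank ℚ K = 2) [IsAbelianGalois K M] (ι : M →+* ℂ)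
    (hs : ∃ j : M, ι j = b.s) (hH : ∀ y : H, (ι (algebraMap H M y)).im = 0)
    {N : ℕ} (hN₀ : b.N₀ ∣ N) (hN : N ≠ 0)
    (hM : ∀ x : M, ι x ∈ IntermediateField.adjoin ℚ {b.s, b.h (1 / N)}) :
    ∃ G : Gal(H/K) → ℂ → ℂ, (∀ σ, IsPartialZeta N σ (G σ)) ∧
    ∃ ε : Gal(H/K) → (𝓞 H)ˣ,
      (∀ σ, ι (algebraMap H M (ε σ : 𝓞 H)) = Complex.exp (-2 * deriv (G σ) 0)) ∧
      (∀ ρ σ, ρ ((ε σ : 𝓞 H) : H) = ((ε (ρ * σ) : 𝓞 H) : H)) ∧
      (∀ g : H →+* ℂ, (∃ x : K, g (algebraMap K H x) ≠ ι (algebraMap K M x)) →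
        ∀ σ, ‖g ((ε σ : 𝓞 H) : H)‖ = 1) ∧
      (∃ (E : Type) (_ : Field E) (_ : Algebra K E) (_ : Algebra H E) (_ : IsScalarTower K H E),
        IsAbelianGalois K E ∧ ∀ σ, ∃ y : E, y ^ 2 = algebraMap H E ((ε σ : 𝓞 H) : H)) ∧
      ∃ R : Gal(H/K), (∀ σ, deriv (G (R * σ)) 0 = -deriv (G σ) 0) ∧
        ∀ g : H →+* ℂ, (∃ x : K, g (algebraMap K H x) ≠ ι (algebraMap K M x)) →
          ∀ y, g (R y) = starRingEnd ℂ (g y) := by
  have hram := b.ram ι hs hN₀ hN hM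
  have hab := fun (x : M) hx => b.ab ι hs hN₀ hN hM (x := x) hx
  obtain ⟨k, algk, hk, hι, hI, -⟩ := b.exists_field ι hs
  obtain ⟨D, hD, hDh⟩ := b.data k hk hI
  have hDN : D.N₀ ∣ N := hD.trans hN₀
  have hM' : ∀ x : M, ι x ∈ IntermediateField.adjoin k {D.h (pt (1 : 𝓞 k) N)} :=
    fun x => b.mem_adjoin hI hDh (hM x)
  have := isAbelian_of_mem D hDN hN ι (fun x => (hι x).symm) hM'
  have : IsTotallyComplex k := D.isComplex
  obtain ⟨η, hη, -⟩ := exists_stark D hDN hN ι (fun x => (hι x).symm) hM' hram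
  -- continuation
  obtain ⟨z, R, hzR, -, hz, hz', hRg, hodd⟩ := exists_odd_cont hK hk ι hH N hN hram fun t => by
    obtain ⟨Z, hZ, -⟩ := hη.deriv_zeta t
    exact ⟨Z, hZ⟩
  have hf4 : 4 ∣ b.m * N := b.four_dvd.trans (Nat.mul_dvd_mul_left _ hN₀)
  have hf0 : 0 < b.m * N := Nat.pos_of_ne_zero (Nat.mul_ne_zero b.m_ne hN)
  have hf2 : 2 < b.m * N := lt_of_lt_of_le (by norm_num) (Nat.le_of_dvd hf0 hf4)
  have heven := exists_even_cont hK ι hH hN hram (f := b.m * N) hf2 (fun p hp => by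
    refine ⟨fun h => ?_, fun h => h.mul_left b.m⟩
    rcases hp.dvd_mul.1 h with h | h
    · exact (b.m_dvd p hp h).trans hN₀
    · exact h) hab hz hz' hzR
  choose Wm hWm using hodd
  choose Wp hWp hWp0 hWp1 using heven
  let G : Gal(H/K) → ℂ → ℂ := fun σ s => (1 / 2 : ℂ) * (Wp σ s + Wm σ s)
  have hG : ∀ σ, IsPartialZeta N σ (G σ) := fun σ => isPartialZeta_half (hWp σ) (hWm σ)
  obtain ⟨R', ε, h1, h2, h3, h4'⟩ := shintani hK hk ι hH N hN hram η hη G hG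
  have hRR : R' = R := by
    obtain ⟨g, hg⟩ := exists_other (H := H) hK (ι.comp (algebraMap K M))
    ext y
    apply g.injective
    rw [(h4' g hg).1, hRg g hg]
  rw [hRR] at h1
  have hder : ∀ σ, deriv (G (R * σ)) 0 = -deriv (G σ) 0 := by
    intro σ
    have e1 := (hG σ).isCont.add (hG (R * σ)).isCont
    have e2 := e1.deriv_eq (hWp σ) (fun n _ => rfl)
    rw [(hG σ).isCont.deriv_add (hG (R * σ)).isCont, hWp1] at e2
    exact eq_neg_of_add_eq_zero_right e2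
  refine ⟨G, hG, ε, fun σ => ?_, h2, fun g hg => (h4' g hg).2, h3, R, hder, hRg⟩
  rw [h1, hder]
  congr 1
  ring

end Pool.Agent.CMK
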