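import Pool.Agent.CMG.LRam
import Pool.Agent.CMG.LRamF

/-!
# K17: ramification in a compositum

Contrapositive: let `p ∤ f`; `p` is unramified in `E₁` and `E₂`. Use
`not_dvd_discr_iff_forall_mem` (see `not_dvd_discr_model` in `CMG/LRamF.lean` and the use of inertia
groups there and in `CMG/LRam.lean` / `StarkRQ/Inert.lean`, `StarkRQ/FrobQ.lean`): for a prime `Q ∋ p` of
`𝓞 E` it is enough that the inertia group of `Q` in `Gal(E/ℚ)` is trivial. If `g x - x ∈ Q` for all
`x : 𝓞 E`, then the restriction of `g` to `Eᵢ` is in the inertia group of `Q ∩ 𝓞 Eᵢ`, which is trivial as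
`p ∤ discr Eᵢ`, so `g` is the identity on `E₁` and `E₂`, hence on `E₁ ⊔ E₂ = ⊤`. An alternative with
Frobenius elements: `Cong.unique` (`StarkRQ/FrobQ.lean`) says that `p ∤ discr` gives uniqueness of
Frobenius elements.
-/

set_option autoImplicit false

noncomputable section

open NumberField Module Pool.Agent.StarkRQ Pool.Agent.CMG

namespace Pool.Agent.CMK

/-- elements of an inertia group are trivial on unramified subfields -/
private theorem ramsup_triv {M E : Type} [Field M] [NumberField M] [IsGalois ℚ M] [Field E]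
    [NumberField E] [IsGalois ℚ E] [Algebra M E] {p : ℕ} (hp : p.Prime)
    (hpM : ¬ (p : ℤ) ∣ discr M) {Q : Ideal (𝓞 E)} [Q.IsPrime] (hpQ : (p : 𝓞 E) ∈ Q)
    {g : Gal(E/ℚ)} (hgx : ∀ x : 𝓞 E, g • x - x ∈ Q) (x : M) :
    g (algebraMap M E x) = algebraMap M E x := by
  have hQM : (Q.comap (algebraMap (𝓞 M) (𝓞 E))).IsPrime := Ideal.comap_isPrime _ _
  have h1 : Cong (AlgEquiv.restrictNormalHom M g) (Q.comap (algebraMap (𝓞 M) (𝓞 E))) 1 := by
    intro x
    have h2 : algebraMap (𝓞 M) (𝓞 E) (AlgEquiv.restrictNormalHom M g • x) =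
        g • algebraMap (𝓞 M) (𝓞 E) x := by
      apply NumberField.RingOfIntegers.ext
      change algebraMap M E ((AlgEquiv.restrictNormalHom M g) (x : M)) =
        g (algebraMap M E (x : M))
      exact AlgEquiv.restrictNormal_commutes g M (x : M)
    rw [Ideal.mem_comap, map_sub, pow_one, h2]
    exact hgx _
  have h3 : AlgEquiv.restrictNormalHom M g = 1 :=
    Cong.unique hp hpM (by rw [Ideal.mem_comap, map_natCast]; exact hpQ) h1 (Cong.one _)
  have h4 := AlgEquiv.restrictNormal_commutes g M x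
  have h5 : g.restrictNormal M = 1 := h3
  rw [h5] at h4
  exact h4.symm

theorem ram_sup {E : Type} [Field E] [NumberField E] [IsGalois ℚ E] (E₁ E₂ : IntermediateField ℚ E)
    [IsGalois ℚ E₁] [IsGalois ℚ E₂] (hsup : E₁ ⊔ E₂ = ⊤) {f : ℕ}
    (h₁ : ∀ p : ℕ, p.Prime → (p : ℤ) ∣ discr E₁ → p ∣ f)
    (h₂ : ∀ p : ℕ, p.Prime → (p : ℤ) ∣ discr E₂ → p ∣ f) (p : ℕ) (hp : p.Prime)
    (h : (p : ℤ) ∣ discr E) : p ∣ f := by
  by_contra hpf
  have hp1 : ¬ (p : ℤ) ∣ discr E₁ := fun h' => hpf (h₁ p hp h')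
  have hp2 : ¬ (p : ℤ) ∣ discr E₂ := fun h' => hpf (h₂ p hp h')
  have hpp : Prime (p : ℤ) := Nat.prime_iff_prime_int.mp hp
  refine absurd h ?_
  rw [NumberField.not_dvd_discr_iff_isUnramifiedIn E (𝓞 E) hpp,
    Algebra.isUnramifiedIn_iff_forall_ramificationIdx_eq_one]
  intro Q hQ hover
  have hpQ' : ((p : ℤ) : 𝓞 E) ∈ Q :=
    (Ideal.liesOver_span_iff (Ideal.IsPrime.ne_top inferInstance) hpp).mp hover
  have hpQ : (p : 𝓞 E) ∈ Q := by exact_mod_cast hpQ'
  have hmax : (Ideal.span {(p : ℤ)}).IsMaximal :=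
    PrincipalIdealRing.isMaximal_of_irreducible hpp.irreducible
  have hfin : Finite (ℤ ⧸ Ideal.span {(p : ℤ)}) := Ideal.finiteQuotientOfFreeOfNeBot _
    (by simpa using hp.ne_zero)
  have hfin' : Finite (Ideal.span {(p : ℤ)}).ResidueField :=
    Finite.of_surjective _ (Ideal.bijective_algebraMap_quotient_residueField
      (Ideal.span {(p : ℤ)})).2
  rw [← Ideal.ramificationIdxIn_eq_ramificationIdx (Ideal.span {(p : ℤ)}) Q Gal(E/ℚ),
    ← Ideal.card_inertia_eq_ramificationIdxIn (G := Gal(E/ℚ)) (Ideal.span {(p : ℤ)}) Q,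
    Nat.card_eq_one_iff_unique]
  refine ⟨⟨fun a b => ?_⟩, ⟨1⟩⟩
  have key : ∀ g : Gal(E/ℚ), g ∈ Q.inertia Gal(E/ℚ) → g = 1 := by
    intro g hg
    have hgx : ∀ x : 𝓞 E, g • x - x ∈ Q := hg
    have hfix : ∀ y : E, g y = y → y ∈ IntermediateField.fixedField (Subgroup.zpowers g) := by
      rintro y hy ⟨c, hc⟩
      obtain ⟨k, rfl⟩ := Subgroup.mem_zpowers_iff.1 hc
      change (g ^ k) y = y
      have h5 : g ∈ MulAction.stabilizer Gal(E/ℚ) y := hy
      exact (MulAction.stabilizer Gal(E/ℚ) y).zpow_mem h5 k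
    have htop : (⊤ : IntermediateField ℚ E) ≤
        IntermediateField.fixedField (Subgroup.zpowers g) := by
      rw [← hsup]
      exact sup_le
        (fun y hy => hfix y (ramsup_triv (M := E₁) hp hp1 hpQ hgx ⟨y, hy⟩))
        (fun y hy => hfix y (ramsup_triv (M := E₂) hp hp2 hpQ hgx ⟨y, hy⟩))
    ext y
    exact htop (IntermediateField.mem_top (x := y)) ⟨g, Subgroup.mem_zpowers g⟩
  exact Subtype.ext ((key _ a.2).trans (key _ b.2).symm)

end Pool.Agent.CMK
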