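import Pool.Agent.CMK.CommF
import Pool.Agent.CMK.CommK
import Pool.Agent.CMK.KleinB
import Pool.Agent.CMK.Lit
import Pool.Agent.CMK.RamSup

/-!
# K20: the Klein four case, main step
-/

set_option autoImplicit false

noncomputable section

open NumberField Module Pool.Agent.StarkRQ Pool.Agent.CMG

namespace Pool.Agent.CMK

/-- the stabilizer of `s` -/
theorem Base.exists_stab (b : Base) {E : Type} [Field E] [NumberField E] [IsGalois ℚ E]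
    (ι : E →+* ℂ) {j : E} (hj : ι j = b.s) :
    ∃ B : Subgroup Gal(E/ℚ), B.index = 2 ∧ ∀ g, g ∈ B ↔ g j = j := by
  obtain ⟨k, -, hk, -, -, hkj⟩ := b.exists_field ι ⟨j, hj⟩
  obtain ⟨hjk, hke⟩ := hkj j hj
  refine ⟨fixG k E, fixG_index hk, fun g => ?_⟩
  rw [mem_fixG]
  constructor
  · intro h
    exact h ⟨j, hjk⟩
  · intro h x
    have h1 : k ≤ IntermediateField.fixedField (Subgroup.zpowers g) := by
      rw [hke, IntermediateField.adjoin_simple_le_iff]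
      rintro ⟨c, hc⟩
      obtain ⟨n, rfl⟩ := Subgroup.mem_zpowers_iff.1 hc
      have h2 : g ∈ MulAction.stabilizer Gal(E/ℚ) j := h
      exact (MulAction.stabilizer Gal(E/ℚ) j).zpow_mem h2 n
    exact h1 x.2 ⟨g, Subgroup.mem_zpowers g⟩

/-- complex conjugation moves `s` -/
theorem Base.cc_ne (b : Base) {E : Type} [Field E] [NumberField E]
    {ι : E →+* ℂ} {c : Gal(E/ℚ)} (hc : ∀ x, ι (c x) = starRingEnd ℂ (ι x)) {j : E}
    (hj : ι j = b.s) : c j ≠ j := by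
  intro h
  have h1 := hc j
  rw [h, hj] at h1
  obtain ⟨r, hr⟩ := Complex.conj_eq_iff_real.1 h1.symm
  have h2 := b.sq
  rw [hr] at h2
  have h3 : r ^ 2 = -(b.d : ℝ) := by exact_mod_cast h2
  have h4 : (0 : ℝ) < b.d := by exact_mod_cast b.d_pos
  nlinarith [sq_nonneg r]

section

variable {E : Type} [Field E] [NumberField E] [IsGalois ℚ E]

theorem mem_stab {ζ : E} {g : Gal(E/ℚ)} :
    g ∈ (IntermediateField.adjoin ℚ {ζ}).fixingSubgroup ↔ g ζ = ζ := by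
  rw [IntermediateField.mem_fixingSubgroup_iff]
  constructor
  · intro h
    exact h ζ (IntermediateField.mem_adjoin_simple_self ℚ ζ)
  · intro h x hx
    have h1 : IntermediateField.adjoin ℚ {ζ} ≤
        IntermediateField.fixedField (Subgroup.zpowers g) := by
      rw [IntermediateField.adjoin_simple_le_iff]
      rintro ⟨c, hc⟩
      obtain ⟨n, rfl⟩ := Subgroup.mem_zpowers_iff.1 hc
      have h2 : g ∈ MulAction.stabilizer Gal(E/ℚ) ζ := h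
      exact (MulAction.stabilizer Gal(E/ℚ) ζ).zpow_mem h2 n
    exact h1 hx ⟨g, Subgroup.mem_zpowers g⟩

theorem fix_ker (F : IntermediateField ℚ E) [IsGalois ℚ F] :
    F.fixingSubgroup = (AlgEquiv.restrictNormalHom F : Gal(E/ℚ) →* Gal(F/ℚ)).ker := by
  ext g
  rw [IntermediateField.mem_fixingSubgroup_iff, MonoidHom.mem_ker]
  constructor
  · intro h
    ext x
    exact (AlgEquiv.restrictNormal_commutes g F x).trans (h _ x.2)
  · intro h x hx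
    have h1 := AlgEquiv.restrictNormal_commutes g F ⟨x, hx⟩
    have h2 : g.restrictNormal F = 1 := h
    rw [h2] at h1
    exact h1.symm

/-- the restrictions to `F` of automorphisms that fix `s` commute -/
theorem Base.comm_mem (b : Base) (ι : E →+* ℂ) (F : IntermediateField ℚ E) [IsGalois ℚ F]
    {j : E} (hjF : j ∈ F) (hj : ι j = b.s) {N : ℕ} (hN₀ : b.N₀ ∣ N) (hN : N ≠ 0)
    (hF : ∀ x ∈ F, ι x ∈ IntermediateField.adjoin ℚ {b.s, b.h (1 / N)}) {g h : Gal(E/ℚ)}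
    (hg : g j = j) (hh : h j = j) : g * h * g⁻¹ * h⁻¹ ∈ F.fixingSubgroup := by
  rw [fix_ker F, MonoidHom.mem_ker]
  have h1 : ∀ γ : Gal(E/ℚ), γ j = j →
      (AlgEquiv.restrictNormalHom F γ) ⟨j, hjF⟩ = ⟨j, hjF⟩ := by
    intro γ hγ
    apply Subtype.ext
    exact (AlgEquiv.restrictNormal_commutes γ F ⟨j, hjF⟩).trans hγ
  have h2 := b.comm (M := F) (ι.comp (algebraMap F E)) ⟨⟨j, hjF⟩, hj⟩ hN₀ hN
    (fun x => hF _ x.2) (j := ⟨j, hjF⟩) hj _ _ (h1 g hg) (h1 h hh)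
  rw [map_mul, map_mul, map_mul, map_inv, map_inv, h2]
  group

theorem fixingSubgroup_normal (F : IntermediateField ℚ E) [IsGalois ℚ F] :
    F.fixingSubgroup.Normal := by
  rw [fix_ker F]
  infer_instance

theorem mem_of_normal (F : IntermediateField ℚ E) [IsGalois ℚ F] (g : Gal(E/ℚ)) {x : E}
    (hx : x ∈ F) : g x ∈ F := by
  have h1 := AlgEquiv.restrictNormal_commutes g F ⟨x, hx⟩
  have h2 : g x = ((g.restrictNormal F ⟨x, hx⟩ : F) : E) := h1.symm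
  rw [h2]
  exact ((g.restrictNormal F ⟨x, hx⟩ : F)).2

theorem eq_top_of_fix {F : IntermediateField ℚ E} (h : F.fixingSubgroup = ⊥) : F = ⊤ := by
  rw [← IsGalois.fixedField_fixingSubgroup F, h, IntermediateField.fixedField_bot]

end

theorem klein_core (b₁ b₂ : Base) {E K H : Type} [Field E] [NumberField E] [IsGalois ℚ E]
    [Field K] [NumberField K] [Field H] [NumberField H]
    [Algebra K E] [Algebra K H] [Algebra H E] [IsScalarTower K H E]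
    [IsTotallyReal K] (hK : finrank ℚ K = 2) [IsAbelianGalois K E] (ι : E →+* ℂ)
    (hH : ∀ y : H, (ι (algebraMap H E y)).im = 0) (hd : ∀ x : K, x ^ 2 ≠ ((b₁.d * b₂.d : ℕ) : K))
    {f : ℕ} (hN₁ : b₁.N₀ ∣ f) (hN₂ : b₂.N₀ ∣ f) (h4 : 4 ∣ f) (hf : f ≠ 0) {ζ : E}
    (hζ : IsPrimitiveRoot ζ f)
    (E₁ E₂ : IntermediateField ℚ E) [IsGalois ℚ E₁] [IsGalois ℚ E₂] (hsup : E₁ ⊔ E₂ = ⊤)
    (hζ₁ : ζ ∈ E₁) (hζ₂ : ζ ∈ E₂)
    (hK₁ : ∀ x : K, algebraMap K E x ∈ E₁) (hK₂ : ∀ x : K, algebraMap K E x ∈ E₂)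
    (hs₁ : ∃ j : E, j ∈ E₁ ∧ ι j = b₁.s) (hs₂ : ∃ j : E, j ∈ E₂ ∧ ι j = b₂.s)
    (hE₁ : ∀ x ∈ E₁, ι x ∈ IntermediateField.adjoin ℚ {b₁.s, b₁.h (1 / f)})
    (hE₂ : ∀ x ∈ E₂, ι x ∈ IntermediateField.adjoin ℚ {b₂.s, b₂.h (1 / f)})
    (hab₁ : ∀ x ∈ E₁, (∀ σ τ : Gal(E/ℚ), σ (τ x) = τ (σ x)) →
      x ∈ IntermediateField.adjoin ℚ {ζ})
    (hab₂ : ∀ x ∈ E₂, (∀ σ τ : Gal(E/ℚ), σ (τ x) = τ (σ x)) →
      x ∈ IntermediateField.adjoin ℚ {ζ}) :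
    ((∀ x : E, (∀ σ τ : Gal(E/ℚ), σ (τ x) = τ (σ x)) → x ∈ IntermediateField.adjoin ℚ {ζ}) ∧
      ∀ p : ℕ, p.Prime → (p : ℤ) ∣ discr E → p ∣ f) ∧
    ∃ (R : Gal(H/K)) (W : Gal(H/K) → ℂ → ℂ),
      (∀ σ, IsCont (fun n => (zcoeff f σ n : ℂ) - zcoeff f (R * σ) n) (W σ)) ∧
      ∃ ε : Gal(H/K) → (𝓞 H)ˣ,
      (∀ σ, ι (algebraMap H E (ε σ : 𝓞 H)) = Complex.exp (-deriv (W σ) 0)) ∧
      (∀ ρ σ, ρ ((ε σ : 𝓞 H) : H) = ((ε (ρ * σ) : 𝓞 H) : H)) ∧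
      ∀ g : H →+* ℂ, (∃ x : K, g (algebraMap K H x) ≠ ι (algebraMap K E x)) →
        (∀ y, g (R y) = starRingEnd ℂ (g y)) ∧ ∀ σ, ‖g ((ε σ : 𝓞 H) : H)‖ = 1 := by
  classical
  have hfz : NeZero f := ⟨hf⟩
  have hf2 : 2 < f := by
    have := Nat.le_of_dvd (Nat.pos_of_ne_zero hf) h4
    omega
  -- the case where `E` is one of the two fields
  have hlit : ∀ b : Base, b.N₀ ∣ f → (∃ j : E, ι j = b.s) →
      (∀ x : E, ι x ∈ IntermediateField.adjoin ℚ {b.s, b.h (1 / f)}) →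
      ∃ (R : Gal(H/K)) (W : Gal(H/K) → ℂ → ℂ),
      (∀ σ, IsCont (fun n => (zcoeff f σ n : ℂ) - zcoeff f (R * σ) n) (W σ)) ∧
      ∃ ε : Gal(H/K) → (𝓞 H)ˣ,
      (∀ σ, ι (algebraMap H E (ε σ : 𝓞 H)) = Complex.exp (-deriv (W σ) 0)) ∧
      (∀ ρ σ, ρ ((ε σ : 𝓞 H) : H) = ((ε (ρ * σ) : 𝓞 H) : H)) ∧
      ∀ g : H →+* ℂ, (∃ x : K, g (algebraMap K H x) ≠ ι (algebraMap K E x)) →
        (∀ y, g (R y) = starRingEnd ℂ (g y)) ∧ ∀ σ, ‖g ((ε σ : 𝓞 H) : H)‖ = 1 := by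
    intro b hb hs hE
    obtain ⟨G, hG, ε, h1, h2, h3, -, R, h5, h6⟩ := b.lit (H := H) hK ι hs hH hb hf hE
    refine ⟨R, fun σ s => G σ s - G (R * σ) s, fun σ => (hG σ).isCont.sub (hG _).isCont, ε,
      fun σ => ?_, h2, fun g hg => ⟨h6 g hg, h3 g hg⟩⟩
    rw [h1]
    congr 1
    have h7 : deriv (fun s => G σ s - G (R * σ) s) 0 = deriv (G σ) 0 - deriv (G (R * σ)) 0 :=
      (hG σ).isCont.deriv_sub (hG (R * σ)).isCont
    rw [h7, h5]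
    ring
  obtain ⟨j₁, hj₁, hjs₁⟩ := id hs₁
  obtain ⟨j₂, hj₂, hjs₂⟩ := id hs₂
  have hram : ∀ p : ℕ, p.Prime → (p : ℤ) ∣ discr E → p ∣ f :=
    ram_sup E₁ E₂ hsup
      (b₁.ram (M := E₁) (ι.comp (algebraMap E₁ E)) ⟨⟨j₁, hj₁⟩, hjs₁⟩ hN₁ hf
        (fun x => hE₁ _ x.2))
      (b₂.ram (M := E₂) (ι.comp (algebraMap E₂ E)) ⟨⟨j₂, hj₂⟩, hjs₂⟩ hN₂ hf
        (fun x => hE₂ _ x.2))
  by_cases h12 : E₁.fixingSubgroup ≤ E₂.fixingSubgroup
  · have h1 : E₁ = ⊤ := by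
      apply eq_top_of_fix
      rw [← inf_eq_left.2 h12, ← IntermediateField.fixingSubgroup_sup, hsup,
        IntermediateField.fixingSubgroup_top]
    subst h1
    exact ⟨⟨fun x hx => hab₁ x trivial hx, hram⟩, hlit b₁ hN₁ ⟨j₁, hjs₁⟩ fun x => hE₁ x trivial⟩
  by_cases h21 : E₂.fixingSubgroup ≤ E₁.fixingSubgroup
  · have h1 : E₂ = ⊤ := by
      apply eq_top_of_fix
      rw [← inf_eq_right.2 h21, ← IntermediateField.fixingSubgroup_sup, hsup,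
        IntermediateField.fixingSubgroup_top]
    subst h1
    exact ⟨⟨fun x hx => hab₂ x trivial hx, hram⟩, hlit b₂ hN₂ ⟨j₂, hjs₂⟩ fun x => hE₂ x trivial⟩
  -- the groups
  have hA' : ∀ σ τ : Gal(E/K), σ * τ = τ * σ := fun σ τ => mul_comm' σ τ
  obtain ⟨B₁, hB₁, hmB₁⟩ := b₁.exists_stab ι hjs₁
  obtain ⟨B₂, hB₂, hmB₂⟩ := b₂.exists_stab ι hjs₂
  have hn₁ := fixingSubgroup_normal E₁
  have hn₂ := fixingSubgroup_normal E₂
  obtain ⟨c, hc⟩ := exists_cc ι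
  have hcA : c ∈ fixG K E := cc_mem_fixG hc
  have hc₁ : c ∉ B₁ := fun h => b₁.cc_ne hc hjs₁ ((hmB₁ c).1 h)
  have hc₂ : c ∉ B₂ := fun h => b₂.cc_ne hc hjs₂ ((hmB₂ c).1 h)
  have hAi : (fixG K E).index = 2 := fixG_index (M := E) hK
  -- the square root of `d₁ d₂`
  have hAB : ¬ fixG K E ⊓ B₁ ≤ B₂ := by
    intro h
    have hneg : ∀ (b : Base) {j : E}, ι j = b.s → ∀ g : Gal(E/ℚ), g j = j ∨ g j = -j := by
      intro b j hj g
      have h1 : j ^ 2 = -(b.d : E) := by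
        apply ι.injective
        rw [map_pow, hj, b.sq, map_neg, map_natCast]
      apply sq_eq_sq_iff_eq_or_eq_neg.1
      rw [← map_pow, h1, map_neg, map_natCast]
    have hfix : ∀ g ∈ fixG K E, g (j₁ * j₂) = j₁ * j₂ := by
      intro g hg
      by_cases hg₁ : g ∈ B₁
      · have hg₂ : g ∈ B₂ := h ⟨hg, hg₁⟩
        rw [map_mul, (hmB₁ g).1 hg₁, (hmB₂ g).1 hg₂]
      · have h1 : g * c ∈ B₁ := by
          rw [Subgroup.mul_mem_iff_of_index_two hB₁]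
          tauto
        have h2 : g * c ∈ B₂ := h ⟨(fixG K E).mul_mem hg hcA, h1⟩
        have hg₂ : g ∉ B₂ := by
          rw [Subgroup.mul_mem_iff_of_index_two hB₂] at h2
          tauto
        have e1 := (hneg b₁ hjs₁ g).resolve_left fun h => hg₁ ((hmB₁ g).2 h)
        have e2 := (hneg b₂ hjs₂ g).resolve_left fun h => hg₂ ((hmB₂ g).2 h)
        rw [map_mul, e1, e2, neg_mul_neg]
    obtain ⟨x, hx⟩ := (InfiniteGalois.mem_range_algebraMap_iff_fixed (k := K) (K := E)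
      (j₁ * j₂)).mpr (fun g => hfix (toG K E g) ⟨g, rfl⟩)
    apply hd x
    apply (algebraMap K E).injective
    apply ι.injective
    rw [map_pow, hx, map_pow, map_mul, hjs₁, hjs₂, mul_pow, b₁.sq, b₂.sq, map_natCast,
      map_natCast]
    push_cast
    ring
  obtain ⟨a₀, ⟨ha₀A, ha₀₁⟩, ha₀₂⟩ := Set.not_subset.1 hAB
  obtain ⟨b₀, hb₀A, hb₀₁, hb₀₂⟩ := exists_outside hAi hB₁ hB₂ hcA hc₁ hAB
  set V : Subgroup Gal(E/ℚ) := (IntermediateField.adjoin ℚ {ζ}).fixingSubgroup with hVdef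
  have hmV : ∀ g : Gal(E/ℚ), g ∈ V ↔ g ζ = ζ := fun g => mem_stab
  have hVfix : ∀ g ∈ V, ∀ x ∈ IntermediateField.adjoin ℚ {ζ}, g x = x := by
    intro g hg x hx
    exact (IntermediateField.mem_fixingSubgroup_iff _ _).1 hg x hx
  have hkey : ∀ (b : Base) (F : IntermediateField ℚ E) [IsGalois ℚ F] (j : E), b.N₀ ∣ f →
      j ∈ F → ι j = b.s → (∀ x : K, algebraMap K E x ∈ F) →
      (∀ x ∈ F, ι x ∈ IntermediateField.adjoin ℚ {b.s, b.h (1 / f)}) →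
      (∀ x ∈ F, (∀ σ τ : Gal(E/ℚ), σ (τ x) = τ (σ x)) → x ∈ IntermediateField.adjoin ℚ {ζ}) →
      ∃ z : Gal(E/ℚ), (∃ g h : Gal(E/ℚ), z = g * h * g⁻¹ * h⁻¹) ∧
        ∀ v ∈ V, v ∈ F.fixingSubgroup ∨ v * z⁻¹ ∈ F.fixingSubgroup := by
    intro b F _ j hb hjF hjs hKF hFh hFab
    obtain ⟨x, y, hzz, hcomm⟩ := comm_structure b hK ι F hKF hjF hjs hb hf hFh
    refine ⟨x * y * x⁻¹ * y⁻¹, ⟨x, y, rfl⟩, fun v hv => ?_⟩
    have h1 := fix_or F hzz hcomm v fun u hu hu' => hVfix v hv u (hFab u hu hu')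
    rw [IntermediateField.mem_fixingSubgroup_iff, IntermediateField.mem_fixingSubgroup_iff]
    refine h1.imp id fun h2 u hu => ?_
    have h3 := mem_of_normal F (x * y * x⁻¹ * y⁻¹)⁻¹ hu
    rw [AlgEquiv.mul_apply, h2 _ h3, ← AlgEquiv.mul_apply, mul_inv_cancel, AlgEquiv.one_apply]
  obtain ⟨z₁, hz₁, hV₁⟩ := hkey b₁ E₁ j₁ hN₁ hj₁ hjs₁ hK₁ hE₁ hab₁
  obtain ⟨z₂, hz₂, hV₂⟩ := hkey b₂ E₂ j₂ hN₂ hj₂ hjs₂ hK₂ hE₂ hab₂
  have hS : E₁.fixingSubgroup ⊓ E₂.fixingSubgroup = ⊥ := by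
    rw [← IntermediateField.fixingSubgroup_sup, hsup, IntermediateField.fixingSubgroup_top]
  have hSV : ∀ F : IntermediateField ℚ E, ζ ∈ F → F.fixingSubgroup ≤ V := by
    intro F hF g hg
    rw [hmV]
    exact (IntermediateField.mem_fixingSubgroup_iff _ _).1 hg ζ hF
  have hcV : ∀ g h : Gal(E/ℚ), g * h * g⁻¹ * h⁻¹ ∈ V := fun g h => by
    rw [hmV]
    exact commutator_fixes (w := f) g h ζ hζ.pow_eq_one
  obtain ⟨hcardV, hcard₁, hcard₂, hVc⟩ := groupK hAi hB₁ hB₂ (fixG_comm hA')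
    (fun a ha a' ha' => b₁.comm_mem ι E₁ hj₁ hjs₁ hN₁ hf hE₁ ((hmB₁ a).1 ha) ((hmB₁ a').1 ha'))
    (fun a ha a' ha' => b₂.comm_mem ι E₂ hj₂ hjs₂ hN₂ hf hE₂ ((hmB₂ a).1 ha) ((hmB₂ a').1 ha'))
    hS (hSV E₁ hζ₁) (hSV E₂ hζ₂) hz₁ hz₂ hV₁ hV₂ hcV hcA hc₁ hc₂ hAB h12 h21
  -- degrees
  have hQζ : finrank ℚ (IntermediateField.adjoin ℚ {ζ}) = f.totient := by
    rw [IntermediateField.adjoin.finrank (IsIntegral.of_finite ℚ ζ),
      ← Polynomial.cyclotomic_eq_minpoly_rat hζ (Nat.pos_of_ne_zero hf),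
      Polynomial.natDegree_cyclotomic]
  have hdeg : finrank ℚ E = 4 * f.totient := by
    have h1 := finrank_mul_finrank ℚ (IntermediateField.adjoin ℚ {ζ}) E
    rw [← IsGalois.card_fixingSubgroup_eq_finrank, hcardV, hQζ] at h1
    rw [← h1, mul_comm]
  have hdegF : ∀ F : IntermediateField ℚ E, Nat.card F.fixingSubgroup = 2 →
      finrank ℚ F = 2 * f.totient := by
    intro F hF
    have h1 := finrank_mul_finrank ℚ F E
    rw [← IsGalois.card_fixingSubgroup_eq_finrank, hF, hdeg] at h1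
    omega
  have hmax : ∀ x : E, (∀ σ τ : Gal(E/ℚ), σ (τ x) = τ (σ x)) →
      x ∈ IntermediateField.adjoin ℚ {ζ} := by
    intro x hx
    rw [← IsGalois.fixedField_fixingSubgroup (IntermediateField.adjoin ℚ {ζ})]
    rintro ⟨g, hg⟩
    have h1 : commutator Gal(E/ℚ) ≤ MulAction.stabilizer Gal(E/ℚ) x := by
      rw [commutator_def, Subgroup.commutator_le]
      intro g _ h _
      rw [MulAction.mem_stabilizer_iff, commutatorElement_def]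
      change (g * h * g⁻¹ * h⁻¹) x = x
      have e1 : (g * h * g⁻¹ * h⁻¹) x = g (h (g⁻¹ (h⁻¹ x))) := rfl
      rw [e1, hx g⁻¹ h⁻¹]
      have e2 : h (h⁻¹ (g⁻¹ x)) = g⁻¹ x := by
        rw [← AlgEquiv.mul_apply, mul_inv_cancel, AlgEquiv.one_apply]
      rw [e2, ← AlgEquiv.mul_apply, mul_inv_cancel, AlgEquiv.one_apply]
    exact h1 (hVc hg)
  -- `f` is not a prime power
  have hker : ∀ g : Gal(E/ℚ), g ∈ (hζ.autToPow ℚ).ker → g ∈ V := by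
    intro g hg
    rw [hmV]
    rw [MonoidHom.mem_ker] at hg
    have h1 := hζ.autToPow_spec ℚ g
    rw [hg] at h1
    have : Fact (1 < f) := ⟨by omega⟩
    rw [Units.val_one, ZMod.val_one, pow_one] at h1
    exact h1.symm
  have hcomB : ∀ {B : Subgroup Gal(E/ℚ)}, B.index = 2 → ∀ {z : Gal(E/ℚ)},
      (∃ g h : Gal(E/ℚ), z = g * h * g⁻¹ * h⁻¹) → z ∈ B := by
    rintro B hB z ⟨g, h, rfl⟩
    rw [Subgroup.mul_mem_iff_of_index_two hB, Subgroup.mul_mem_iff_of_index_two hB,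
      Subgroup.mul_mem_iff_of_index_two hB, inv_mem_iff, inv_mem_iff]
    tauto
  have hVB : ∀ {B S : Subgroup Gal(E/ℚ)}, B.index = 2 → S ≤ B → ∀ {z : Gal(E/ℚ)},
      (∃ g h : Gal(E/ℚ), z = g * h * g⁻¹ * h⁻¹) → (∀ v ∈ V, v ∈ S ∨ v * z⁻¹ ∈ S) → V ≤ B := by
    intro B S hB hSB z hz h v hv
    rcases h v hv with h1 | h1
    · exact hSB h1
    · have h2 := B.mul_mem (hSB h1) (hcomB hB hz)
      rwa [inv_mul_cancel_right] at h2
  have hpp : ¬ IsPrimePow f := by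
    refine exists_three (hζ.autToPow ℚ) (chi_surjective hζ) (fixG K E) B₁ B₂ hAi hB₁ hB₂
      ?_ ?_ ?_ ha₀A ha₀₁ ha₀₂ hb₀A hb₀₁ hb₀₂ hcA hc₁
    · intro g hg
      refine hVB hAi ?_ hz₁ hV₁ (hker g hg)
      intro u hu
      rw [mem_fixG]
      intro x
      exact (IntermediateField.mem_fixingSubgroup_iff _ _).1 hu _ (hK₁ x)
    · intro g hg
      refine hVB hB₁ ?_ hz₁ hV₁ (hker g hg)
      intro u hu
      rw [hmB₁]
      exact (IntermediateField.mem_fixingSubgroup_iff _ _).1 hu _ hj₁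
    · intro g hg
      refine hVB hB₂ ?_ hz₂ hV₂ (hker g hg)
      intro u hu
      rw [hmB₂]
      exact (IntermediateField.mem_fixingSubgroup_iff _ _).1 hu _ hj₂
  exact ⟨⟨hmax, hram⟩, klein_base b₁ b₂ hK ι hH hN₁ hN₂ hpp hf2 (by omega) hζ hmax hdeg hram E₁ E₂
    (hdegF E₁ hcard₁) (hdegF E₂ hcard₂) hζ₁ hζ₂ (fun h => h12 (by rw [h])) hK₁ hK₂ hs₁ hs₂
    hE₁ hE₂⟩

end Pool.Agent.CMK
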