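import Pool.Agent.CMK.Core
import Pool.Agent.CMG.LRam
import Pool.Agent.HeckeRQ.Conj

/-!
# K21: the final theorem for the Klein four case
-/

set_option autoImplicit false

noncomputable section

open NumberField Module Pool.Agent.StarkRQ Pool.Agent.CMG

namespace Pool.Agent.CMK

theorem mem_comap' {L L' : Type} [Field L] [Field L'] [Algebra ℚ L] [Algebra ℚ L'] {f : L →ₐ[ℚ] L'}
    {S : IntermediateField ℚ L'} {x : L} : x ∈ S.comap f ↔ f x ∈ S := Iff.rfl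

theorem isGalois_of_stable {E : Type} [Field E] [NumberField E] [IsGalois ℚ E]
    (F : IntermediateField ℚ E) (h : ∀ (g : Gal(E/ℚ)), ∀ x ∈ F, g x ∈ F) : IsGalois ℚ F := by
  have h1 : Normal ℚ F := by
    have h2 := (IntermediateField.normal_iff_forall_map_le' (K := F)).2 (by
      intro g x hx
      obtain ⟨y, hy, rfl⟩ := hx
      exact h g y hy)
    convert h2
    exact Subsingleton.elim _ _
  exact ⟨⟩

/-- Shimura: exponentials of order dividing `f` -/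
theorem exp_mem {n f : ℕ} (hf : f ≠ 0) (h : n ∣ f) :
    Complex.exp (2 * Real.pi * Complex.I / n) ∈
      IntermediateField.adjoin ℚ {Complex.exp (2 * Real.pi * Complex.I / f)} := by
  obtain ⟨m, rfl⟩ := h
  have hn : (n : ℂ) ≠ 0 := by exact_mod_cast left_ne_zero_of_mul hf
  have hm : (m : ℂ) ≠ 0 := by exact_mod_cast right_ne_zero_of_mul hf
  have h1 : Complex.exp (2 * Real.pi * Complex.I / n) =
      Complex.exp (2 * Real.pi * Complex.I / (n * m : ℕ)) ^ m := by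
    rw [← Complex.exp_nat_mul]
    congr 1
    push_cast
    field_simp
  rw [h1]
  exact pow_mem (IntermediateField.mem_adjoin_simple_self ℚ _) m

section

variable {M E : Type} [Field M] [NumberField M] [Field E] [NumberField E]
  [Algebra M E] (ι : M →+* ℂ) (ι' : E →+* ℂ) (hι' : ∀ x : M, ι' (algebraMap M E x) = ι x)
  {f : ℕ} (hf : f ≠ 0) {ζ : E} (hζ : IsPrimitiveRoot ζ f)

include hf hζ in
/-- elements of `E` which are in `ℚ(ζ_f)` -/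
theorem mem_of_exp {x : E}
    (hx : ι' x ∈ IntermediateField.adjoin ℚ {Complex.exp (2 * Real.pi * Complex.I / f)}) :
    x ∈ IntermediateField.adjoin ℚ {ζ} := by
  have hprim' : IsPrimitiveRoot (ι' ζ) f := hζ.map_of_injective ι'.injective
  have hfz : NeZero f := ⟨hf⟩
  have hexp : IsPrimitiveRoot (Complex.exp (2 * Real.pi * Complex.I / f)) f :=
    Complex.isPrimitiveRoot_exp f hf
  obtain ⟨i, -, hi⟩ := hprim'.eq_pow_of_pow_eq_one hexp.pow_eq_one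
  let ι'' : E →ₐ[ℚ] ℂ := ι'.toRatAlgHom
  have h2 : IntermediateField.adjoin ℚ {Complex.exp (2 * Real.pi * Complex.I / f)} ≤
      (IntermediateField.adjoin ℚ {ζ}).map ι'' := by
    rw [IntermediateField.adjoin_simple_le_iff]
    refine ⟨ζ ^ i, pow_mem (IntermediateField.mem_adjoin_simple_self ℚ ζ) i, ?_⟩
    change ι' (ζ ^ i) = _
    rw [map_pow, hi]
  obtain ⟨y, hy, hyx⟩ := h2 hx
  have h3 : y = x := ι'.injective hyx
  rw [← h3]
  exact hy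

end

private theorem final_aux (b₁ b₂ : Base) {M K H E : Type} [Field M] [NumberField M]
    [IsGalois ℚ M] [Field K] [NumberField K] [Field H] [NumberField H]
    [Algebra K M] [Algebra K H] [Algebra H M] [IsScalarTower K H M] {f : ℕ}
    [Field E] [NumberField E] [Algebra M E] [IsCyclotomicExtension {f} M E]
    [Algebra H E] [Algebra K E] [IsScalarTower H M E] [IsScalarTower K M E] [IsScalarTower K H E]
    [IsTotallyReal K] (hK : finrank ℚ K = 2) [IsAbelianGalois K M] (ι : M →+* ℂ)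
    (hH : ∀ y : H, (ι (algebraMap H M y)).im = 0) (hd : ∀ x : K, x ^ 2 ≠ ((b₁.d * b₂.d : ℕ) : K))
    (M₁ M₂ : IntermediateField ℚ M) [IsGalois ℚ M₁] [IsGalois ℚ M₂] (hsup : M₁ ⊔ M₂ = ⊤)
    (hK₁ : ∀ x : K, algebraMap K M x ∈ M₁) (hK₂ : ∀ x : K, algebraMap K M x ∈ M₂)
    (hs₁ : ∃ j : M, j ∈ M₁ ∧ ι j = b₁.s) (hs₂ : ∃ j : M, j ∈ M₂ ∧ ι j = b₂.s)
    {N : ℕ} (hN : N ≠ 0) (hN₁ : b₁.N₀ ∣ N) (hN₂ : b₂.N₀ ∣ N)
    (hM₁ : ∀ x ∈ M₁, ι x ∈ IntermediateField.adjoin ℚ {b₁.s, b₁.h (1 / N)})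
    (hM₂ : ∀ x ∈ M₂, ι x ∈ IntermediateField.adjoin ℚ {b₂.s, b₂.h (1 / N)})
    (hf : f ≠ 0) (h4 : 4 ∣ f) (hNf : N ∣ f) (hm₁ : b₁.m * N ∣ f) (hm₂ : b₂.m * N ∣ f)
    (hfN : ∀ p : ℕ, p.Prime → (p ∣ N ↔ p ∣ f)) :
    ((∀ p : ℕ, p.Prime → (p : ℤ) ∣ discr H → p ∣ N) ∧
      ∀ (N' : ℕ), N' ≠ 0 → ∀ ι₂ : K →+* ℝ, (∃ x : K, ((ι₂ x : ℝ) : ℂ) ≠ ι (algebraMap K M x)) →
        ∀ R : Gal(H/K), (∀ α : 𝓞 K, (N' : 𝓞 K) ∣ α - 1 → ι₂ (α : K) < 0 →
          HasArtinSymbol (Ideal.span {α}) R) →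
        ∀ g : H →+* ℂ, (∃ x : K, g (algebraMap K H x) ≠ ι (algebraMap K M x)) →
        ∀ y, g (R y) = starRingEnd ℂ (g y)) ∧
    ∃ (R : Gal(H/K)) (W : Gal(H/K) → ℂ → ℂ),
      (∀ σ, IsCont (fun n => (zcoeff N σ n : ℂ) - zcoeff N (R * σ) n) (W σ)) ∧
      ∃ ε : Gal(H/K) → (𝓞 H)ˣ,
      (∀ σ, ι (algebraMap H M (ε σ : 𝓞 H)) = Complex.exp (-deriv (W σ) 0)) ∧
      (∀ ρ σ, ρ ((ε σ : 𝓞 H) : H) = ((ε (ρ * σ) : 𝓞 H) : H)) ∧
      ∀ g : H →+* ℂ, (∃ x : K, g (algebraMap K H x) ≠ ι (algebraMap K M x)) →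
        (∀ y, g (R y) = starRingEnd ℂ (g y)) ∧ ∀ σ, ‖g ((ε σ : 𝓞 H) : H)‖ = 1 := by
  have hfz : NeZero f := ⟨hf⟩
  have hgalE : IsGalois ℚ E := isGalois_cyclotomic (M := M) hf
  have habE : IsAbelianGalois K E := isAbelianGalois_cyclotomic K M f E
  obtain ⟨ζ, hζ⟩ := IsCyclotomicExtension.exists_isPrimitiveRoot M E (Set.mem_singleton f) hf
  have htop := IsCyclotomicExtension.adjoin_primitive_root_eq_top (A := M) (B := E) hζ
  let ι' : E →+* ℂ := ComplexEmbedding.lift E ι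
  have hι' : ∀ x : M, ι' (algebraMap M E x) = ι x := fun x =>
    ComplexEmbedding.lift_algebraMap_apply E ι x
  let φ : M →ₐ[ℚ] E := (algebraMap M E).toRatAlgHom
  have hφ : ∀ x : M, φ x = algebraMap M E x := fun x => rfl
  have hstF : ∀ (F : IntermediateField ℚ M) [IsGalois ℚ F] (g : Gal(E/ℚ)), ∀ x ∈ F.map φ,
      g x ∈ F.map φ := by
    intro F _ g x hx
    obtain ⟨y, hy, rfl⟩ := hx
    refine ⟨g.restrictNormal M y, mem_of_normal F _ hy, ?_⟩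
    exact AlgEquiv.restrictNormal_commutes g M y
  have hstζ : ∀ g : Gal(E/ℚ), ∀ x ∈ IntermediateField.adjoin ℚ {ζ},
      g x ∈ IntermediateField.adjoin ℚ {ζ} := by
    intro g x hx
    have h1 : IntermediateField.adjoin ℚ {ζ} ≤
        (IntermediateField.adjoin ℚ {ζ}).comap (g : E →ₐ[ℚ] E) := by
      rw [IntermediateField.adjoin_simple_le_iff, mem_comap']
      change g ζ ∈ IntermediateField.adjoin ℚ {ζ}
      obtain ⟨i, -, hi⟩ := hζ.eq_pow_of_pow_eq_one (ξ := g ζ) (by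
        rw [← map_pow, hζ.pow_eq_one, map_one])
      rw [← hi]
      exact pow_mem (IntermediateField.mem_adjoin_simple_self ℚ ζ) i
    exact h1 hx
  have hstE : ∀ (F : IntermediateField ℚ M) [IsGalois ℚ F] (g : Gal(E/ℚ)),
      ∀ x ∈ F.map φ ⊔ IntermediateField.adjoin ℚ {ζ},
      g x ∈ F.map φ ⊔ IntermediateField.adjoin ℚ {ζ} := by
    intro F _ g x hx
    have h1 : F.map φ ⊔ IntermediateField.adjoin ℚ {ζ} ≤
        (F.map φ ⊔ IntermediateField.adjoin ℚ {ζ}).comap (g : E →ₐ[ℚ] E) := by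
      rw [sup_le_iff]
      constructor
      · intro y hy
        exact (le_sup_left : F.map φ ≤ _) (hstF F g y hy)
      · intro y hy
        exact (le_sup_right : IntermediateField.adjoin ℚ {ζ} ≤ F.map φ ⊔ _) (hstζ g y hy)
    exact h1 hx
  have hgF₁ : IsGalois ℚ (M₁.map φ) := isGalois_of_stable _ (hstF M₁)
  have hgF₂ : IsGalois ℚ (M₂.map φ) := isGalois_of_stable _ (hstF M₂)
  have hgE₁ : IsGalois ℚ (M₁.map φ ⊔ IntermediateField.adjoin ℚ {ζ} : IntermediateField ℚ E) :=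
    isGalois_of_stable _ (hstE M₁)
  have hgE₂ : IsGalois ℚ (M₂.map φ ⊔ IntermediateField.adjoin ℚ {ζ} : IntermediateField ℚ E) :=
    isGalois_of_stable _ (hstE M₂)
  -- the compositum
  have hsupE : (M₁.map φ ⊔ IntermediateField.adjoin ℚ {ζ}) ⊔
      (M₂.map φ ⊔ IntermediateField.adjoin ℚ {ζ}) = ⊤ := by
    rw [eq_top_iff]
    set T := (M₁.map φ ⊔ IntermediateField.adjoin ℚ {ζ}) ⊔
      (M₂.map φ ⊔ IntermediateField.adjoin ℚ {ζ}) with hT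
    have h1 : ∀ x : M, algebraMap M E x ∈ T := by
      intro x
      have h2 : (M₁ ⊔ M₂).map φ ≤ T := by
        rw [IntermediateField.map_sup, sup_le_iff]
        exact ⟨le_sup_of_le_left le_sup_left, le_sup_of_le_right le_sup_left⟩
      exact h2 ⟨x, by rw [hsup]; trivial, rfl⟩
    have h3 : ζ ∈ T := (le_sup_of_le_left le_sup_right :
      IntermediateField.adjoin ℚ {ζ} ≤ T) (IntermediateField.mem_adjoin_simple_self ℚ ζ)
    intro x _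
    have h4 : x ∈ Algebra.adjoin M {ζ} := by
      rw [htop]
      trivial
    induction h4 using Algebra.adjoin_induction with
    | mem x hx =>
      rw [Set.mem_singleton_iff] at hx
      rw [hx]
      exact h3
    | algebraMap r => exact h1 r
    | add x y _ _ hx hy => exact add_mem (hx trivial) (hy trivial)
    | mul x y _ _ hx hy => exact mul_mem (hx trivial) (hy trivial)
  -- values
  have hval : ∀ (b : Base) (F : IntermediateField ℚ M), b.N₀ ∣ N →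
      (∀ x ∈ F, ι x ∈ IntermediateField.adjoin ℚ {b.s, b.h (1 / N)}) →
      ∀ x ∈ F.map φ ⊔ IntermediateField.adjoin ℚ {ζ},
        ι' x ∈ IntermediateField.adjoin ℚ {b.s, b.h (1 / f)} := by
    intro b F hb hF x hx
    have h1 : F.map φ ⊔ IntermediateField.adjoin ℚ {ζ} ≤
        (IntermediateField.adjoin ℚ {b.s, b.h (1 / f)}).comap ι'.toRatAlgHom := by
      rw [sup_le_iff]
      constructor
      · rintro _ ⟨y, hy, rfl⟩
        rw [mem_comap']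
        change ι' (algebraMap M E y) ∈ IntermediateField.adjoin ℚ {b.s, b.h (1 / f)}
        rw [hι']
        exact b.adjoin_le hb hf hNf (hF y hy)
      · rw [IntermediateField.adjoin_simple_le_iff, mem_comap']
        change ι' ζ ∈ IntermediateField.adjoin ℚ {b.s, b.h (1 / f)}
        have h4 : (ι' ζ) ^ f = 1 := by
          rw [← map_pow, hζ.pow_eq_one, map_one]
        obtain ⟨i, -, hi⟩ := (Complex.isPrimitiveRoot_exp f hf).eq_pow_of_pow_eq_one h4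
        rw [← hi]
        exact pow_mem (b.zeta (hb.trans hNf) hf) i
    exact h1 hx
  -- maximal abelian subfields
  have hab : ∀ (b : Base) (F : IntermediateField ℚ M) [IsGalois ℚ F] [IsGalois ℚ (F.map φ)]
      (j : M), b.N₀ ∣ N → b.m * N ∣ f → j ∈ F → ι j = b.s → (∀ x : K, algebraMap K M x ∈ F) →
      (∀ x ∈ F, ι x ∈ IntermediateField.adjoin ℚ {b.s, b.h (1 / N)}) →
      ∀ x ∈ F.map φ ⊔ IntermediateField.adjoin ℚ {ζ},
        (∀ σ τ : Gal(E/ℚ), σ (τ x) = τ (σ x)) → x ∈ IntermediateField.adjoin ℚ {ζ} := by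
    intro b F _ _ j hb hm hjF hjs hKF hF
    obtain ⟨a, a', hzz, hcomm⟩ := comm_structure (K := K) b hK ι' (F.map φ) (fun x =>
      ⟨algebraMap K M x, hKF x, (IsScalarTower.algebraMap_apply K M E x).symm⟩)
      (j := algebraMap M E j) ⟨j, hjF, rfl⟩ (by rw [hι', hjs]) hb hN (by
        rintro _ ⟨y, hy, rfl⟩
        change ι' (algebraMap M E y) ∈ _
        rw [hι']
        exact hF y hy)
    refine ab_sup (F.map φ) hzz hcomm hf hζ ?_
    rintro _ ⟨y, hy, rfl⟩ hx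
    apply mem_of_exp ι' hf hζ
    change ι' (algebraMap M E y) ∈ _
    rw [hι']
    have h1 := b.ab (M := F) (ι.comp (algebraMap F M)) ⟨⟨j, hjF⟩, hjs⟩ hb hN
      (fun x => hF _ x.2) (x := ⟨y, hy⟩) (by
        intro σ τ
        obtain ⟨σ', rfl⟩ := AlgEquiv.restrictNormalHom_surjective (F := ℚ) (K₁ := F) E σ
        obtain ⟨τ', rfl⟩ := AlgEquiv.restrictNormalHom_surjective (F := ℚ) (K₁ := F) E τ
        apply (algebraMap F E).injective
        have hres : ∀ (g : Gal(E/ℚ)) (u : F), algebraMap F E (AlgEquiv.restrictNormalHom F g u) =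
            g (algebraMap F E u) := fun g u => AlgEquiv.restrictNormal_commutes g F u
        rw [hres, hres, hres, hres]
        exact hx σ' τ')
    have h2 : IntermediateField.adjoin ℚ
        {Complex.exp (2 * Real.pi * Complex.I / (b.m * N : ℕ))} ≤
        IntermediateField.adjoin ℚ {Complex.exp (2 * Real.pi * Complex.I / f)} := by
      rw [IntermediateField.adjoin_simple_le_iff]
      exact exp_mem hf hm
    exact h2 h1
  obtain ⟨j₁, hj₁, hjs₁⟩ := hs₁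
  obtain ⟨j₂, hj₂, hjs₂⟩ := hs₂
  have hHE : ∀ y : H, ι' (algebraMap H E y) = ι (algebraMap H M y) := fun y => by
    rw [IsScalarTower.algebraMap_apply H M E, hι']
  have hKE : ∀ y : K, ι' (algebraMap K E y) = ι (algebraMap K M y) := fun y => by
    rw [IsScalarTower.algebraMap_apply K M E, hι']
  have hHreal : ∀ y : H, (ι' (algebraMap H E y)).im = 0 := fun y => by
    rw [hHE]
    exact hH y
  obtain ⟨⟨hmax, hram⟩, R, W, hW, ε, h1, h2, h3⟩ := klein_core b₁ b₂ (H := H) hK ι'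
    (fun y => by rw [hHE]; exact hH y) hd (hN₁.trans hNf) (hN₂.trans hNf) h4 hf hζ
    (M₁.map φ ⊔ IntermediateField.adjoin ℚ {ζ}) (M₂.map φ ⊔ IntermediateField.adjoin ℚ {ζ}) hsupE
    ((le_sup_right : IntermediateField.adjoin ℚ {ζ} ≤ M₁.map φ ⊔ _)
      (IntermediateField.mem_adjoin_simple_self ℚ ζ))
    ((le_sup_right : IntermediateField.adjoin ℚ {ζ} ≤ M₂.map φ ⊔ _)
      (IntermediateField.mem_adjoin_simple_self ℚ ζ))
    (fun x => (le_sup_left : M₁.map φ ≤ _) ⟨algebraMap K M x, hK₁ x,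
      (IsScalarTower.algebraMap_apply K M E x).symm⟩)
    (fun x => (le_sup_left : M₂.map φ ≤ _) ⟨algebraMap K M x, hK₂ x,
      (IsScalarTower.algebraMap_apply K M E x).symm⟩)
    ⟨algebraMap M E j₁, (le_sup_left : M₁.map φ ≤ _) ⟨j₁, hj₁, rfl⟩, by rw [hι', hjs₁]⟩
    ⟨algebraMap M E j₂, (le_sup_left : M₂.map φ ≤ _) ⟨j₂, hj₂, rfl⟩, by rw [hι', hjs₂]⟩
    (hval b₁ M₁ hN₁ hM₁) (hval b₂ M₂ hN₂ hM₂) (hab b₁ M₁ j₁ hN₁ hm₁ hj₁ hjs₁ hK₁ hM₁)
    (hab b₂ M₂ j₂ hN₂ hm₂ hj₂ hjs₂ hK₂ hM₂)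
  have habH : IsAbelianGalois K H := IsAbelianGalois.tower_bot K H E
  refine ⟨⟨fun p hp hpd => (hfN p hp).2 (hram p hp (hpd.trans (discr_dvd_discr H E))),
    fun N' hN' ι₂ hι₂ R' hR' g hg y => HeckeRQ.artin_conj (K := K) (H := H) (M := E) hK ι' hHreal hf hζ
      hmax hram hN' ι₂ ?_ hR' ?_ y⟩, R, W, fun σ => ?_, ε, fun σ => ?_, h2, fun g hg => h3 g ?_⟩
  · obtain ⟨x, hx⟩ := hι₂
    exact ⟨x, by rw [hKE]; exact hx⟩
  · obtain ⟨x, hx⟩ := hg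
    exact ⟨x, by rw [hKE]; exact hx⟩
  · have h5 := hW σ
    simpa only [← CMH.zcoeff_eq_of_primes hfN] using h5
  · rw [← hHE]
    exact h1 σ
  · obtain ⟨x, hx⟩ := hg
    exact ⟨x, by rw [hKE]; exact hx⟩

theorem klein_final_conj (b₁ b₂ : Base) {M K H : Type} [Field M] [NumberField M] [IsGalois ℚ M]
    [Field K] [NumberField K] [Field H] [NumberField H]
    [Algebra K M] [Algebra K H] [Algebra H M] [IsScalarTower K H M]
    [IsTotallyReal K] (hK : finrank ℚ K = 2) [IsAbelianGalois K M] (ι : M →+* ℂ)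
    (hH : ∀ y : H, (ι (algebraMap H M y)).im = 0) (hd : ∀ x : K, x ^ 2 ≠ ((b₁.d * b₂.d : ℕ) : K))
    (M₁ M₂ : IntermediateField ℚ M) [IsGalois ℚ M₁] [IsGalois ℚ M₂] (hsup : M₁ ⊔ M₂ = ⊤)
    (hK₁ : ∀ x : K, algebraMap K M x ∈ M₁) (hK₂ : ∀ x : K, algebraMap K M x ∈ M₂)
    (hs₁ : ∃ j : M, j ∈ M₁ ∧ ι j = b₁.s) (hs₂ : ∃ j : M, j ∈ M₂ ∧ ι j = b₂.s)
    {N : ℕ} (hN : N ≠ 0) (hN₁ : b₁.N₀ ∣ N) (hN₂ : b₂.N₀ ∣ N)
    (hM₁ : ∀ x ∈ M₁, ι x ∈ IntermediateField.adjoin ℚ {b₁.s, b₁.h (1 / N)})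
    (hM₂ : ∀ x ∈ M₂, ι x ∈ IntermediateField.adjoin ℚ {b₂.s, b₂.h (1 / N)}) :
    ((∀ p : ℕ, p.Prime → (p : ℤ) ∣ discr H → p ∣ N) ∧
      ∀ (N' : ℕ), N' ≠ 0 → ∀ ι₂ : K →+* ℝ, (∃ x : K, ((ι₂ x : ℝ) : ℂ) ≠ ι (algebraMap K M x)) →
        ∀ R : Gal(H/K), (∀ α : 𝓞 K, (N' : 𝓞 K) ∣ α - 1 → ι₂ (α : K) < 0 →
          HasArtinSymbol (Ideal.span {α}) R) →
        ∀ g : H →+* ℂ, (∃ x : K, g (algebraMap K H x) ≠ ι (algebraMap K M x)) →
        ∀ y, g (R y) = starRingEnd ℂ (g y)) ∧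
    ∃ (R : Gal(H/K)) (W : Gal(H/K) → ℂ → ℂ),
      (∀ σ, IsCont (fun n => (zcoeff N σ n : ℂ) - zcoeff N (R * σ) n) (W σ)) ∧
      ∃ ε : Gal(H/K) → (𝓞 H)ˣ,
      (∀ σ, ι (algebraMap H M (ε σ : 𝓞 H)) = Complex.exp (-deriv (W σ) 0)) ∧
      (∀ ρ σ, ρ ((ε σ : 𝓞 H) : H) = ((ε (ρ * σ) : 𝓞 H) : H)) ∧
      ∀ g : H →+* ℂ, (∃ x : K, g (algebraMap K H x) ≠ ι (algebraMap K M x)) →
        (∀ y, g (R y) = starRingEnd ℂ (g y)) ∧ ∀ σ, ‖g ((ε σ : 𝓞 H) : H)‖ = 1 := by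
  let f : ℕ := b₁.m * b₂.m * N
  have hf : f ≠ 0 := Nat.mul_ne_zero (Nat.mul_ne_zero b₁.m_ne b₂.m_ne) hN
  have hNf : N ∣ f := Dvd.intro_left _ rfl
  have hm₁ : b₁.m * N ∣ f := ⟨b₂.m, by simp only [f]; ring⟩
  have hm₂ : b₂.m * N ∣ f := ⟨b₁.m, by simp only [f]; ring⟩
  have h4 : 4 ∣ f := (b₁.four_dvd.trans (Nat.mul_dvd_mul_left _ hN₁)).trans hm₁
  have hfN : ∀ p : ℕ, p.Prime → (p ∣ N ↔ p ∣ f) := by
    intro p hp
    refine ⟨fun h => h.trans hNf, fun h => ?_⟩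
    rcases hp.dvd_mul.1 h with h | h
    · rcases hp.dvd_mul.1 h with h | h
      · exact (b₁.m_dvd p hp h).trans hN₁
      · exact (b₂.m_dvd p hp h).trans hN₂
    · exact h
  have : NeZero f := ⟨hf⟩
  have : IsScalarTower K H (CyclotomicField f M) := IsScalarTower.of_algebraMap_eq fun x => by
    rw [IsScalarTower.algebraMap_apply K M (CyclotomicField f M),
      IsScalarTower.algebraMap_apply H M (CyclotomicField f M),
      ← IsScalarTower.algebraMap_apply K H M]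
  have hnf : NumberField (CyclotomicField f M) :=
    IsCyclotomicExtension.numberField {f} M (CyclotomicField f M)
  exact final_aux b₁ b₂ (E := CyclotomicField f M) hK ι hH hd M₁ M₂ hsup hK₁ hK₂ hs₁ hs₂ hN hN₁
    hN₂ hM₁ hM₂ hf h4 hNf hm₁ hm₂ hfN

theorem klein_final (b₁ b₂ : Base) {M K H : Type} [Field M] [NumberField M] [IsGalois ℚ M]
    [Field K] [NumberField K] [Field H] [NumberField H]
    [Algebra K M] [Algebra K H] [Algebra H M] [IsScalarTower K H M]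
    [IsTotallyReal K] (hK : finrank ℚ K = 2) [IsAbelianGalois K M] (ι : M →+* ℂ)
    (hH : ∀ y : H, (ι (algebraMap H M y)).im = 0) (hd : ∀ x : K, x ^ 2 ≠ ((b₁.d * b₂.d : ℕ) : K))
    (M₁ M₂ : IntermediateField ℚ M) [IsGalois ℚ M₁] [IsGalois ℚ M₂] (hsup : M₁ ⊔ M₂ = ⊤)
    (hK₁ : ∀ x : K, algebraMap K M x ∈ M₁) (hK₂ : ∀ x : K, algebraMap K M x ∈ M₂)
    (hs₁ : ∃ j : M, j ∈ M₁ ∧ ι j = b₁.s) (hs₂ : ∃ j : M, j ∈ M₂ ∧ ι j = b₂.s)
    {N : ℕ} (hN : N ≠ 0) (hN₁ : b₁.N₀ ∣ N) (hN₂ : b₂.N₀ ∣ N)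
    (hM₁ : ∀ x ∈ M₁, ι x ∈ IntermediateField.adjoin ℚ {b₁.s, b₁.h (1 / N)})
    (hM₂ : ∀ x ∈ M₂, ι x ∈ IntermediateField.adjoin ℚ {b₂.s, b₂.h (1 / N)}) :
    ∃ (R : Gal(H/K)) (W : Gal(H/K) → ℂ → ℂ),
      (∀ σ, IsCont (fun n => (zcoeff N σ n : ℂ) - zcoeff N (R * σ) n) (W σ)) ∧
      ∃ ε : Gal(H/K) → (𝓞 H)ˣ,
      (∀ σ, ι (algebraMap H M (ε σ : 𝓞 H)) = Complex.exp (-deriv (W σ) 0)) ∧
      (∀ ρ σ, ρ ((ε σ : 𝓞 H) : H) = ((ε (ρ * σ) : 𝓞 H) : H)) ∧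
      ∀ g : H →+* ℂ, (∃ x : K, g (algebraMap K H x) ≠ ι (algebraMap K M x)) →
        (∀ y, g (R y) = starRingEnd ℂ (g y)) ∧ ∀ σ, ‖g ((ε σ : 𝓞 H) : H)‖ = 1 :=
  (klein_final_conj b₁ b₂ hK ι hH hd M₁ M₂ hsup hK₁ hK₂ hs₁ hs₂ hN hN₁ hN₂ hM₁ hM₂).2

end Pool.Agent.CMK
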