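import Pool.Agent.CMK.Final
import Pool.Agent.HeckeRQ.Literal

/-!
# The Klein four case, literal form
-/

set_option autoImplicit false

noncomputable section

open NumberField Module Pool.Agent.StarkRQ Pool.Agent.CMG

namespace Pool.Agent.CMK

theorem klein_literal (b₁ b₂ : Base) {M K H : Type} [Field M] [NumberField M] [IsGalois ℚ M]
    [Field K] [NumberField K] [Field H] [NumberField H]
    [Algebra K M] [Algebra K H] [Algebra H M] [IsScalarTower K H M]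
    [IsTotallyReal K] (hK : finrank ℚ K = 2) [IsAbelianGalois K M] (ι : M →+* ℂ)
    (hH : ∀ y : H, (ι (algebraMap H M y)).im = 0) (hd : ∀ x : K, x ^ 2 ≠ ((b₁.d * b₂.d : ℕ) : K))
    (M₁ M₂ : IntermediateField ℚ M) [IsGalois ℚ M₁] [IsGalois ℚ M₂] (hsup : M₁ ⊔ M₂ = ⊤)
    (hK₁ : ∀ x : K, algebraMap K M x ∈ M₁) (hK₂ : ∀ x : K, algebraMap K M x ∈ M₂)
    (hs₁ : ∃ j : M, j ∈ M₁ ∧ ι j = b₁.s) (hs₂ : ∃ j : M, j ∈ M₂ ∧ ι j = b₂.s)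
    {N : ℕ} (hN : N ≠ 0) (hN₁ : b₁.N₀ ∣ N) (hN₂ : b₂.N₀ ∣ N) (hN3 : 3 ≤ N)
    (hM₁ : ∀ x ∈ M₁, ι x ∈ IntermediateField.adjoin ℚ {b₁.s, b₁.h (1 / N)})
    (hM₂ : ∀ x ∈ M₂, ι x ∈ IntermediateField.adjoin ℚ {b₂.s, b₂.h (1 / N)})
    {ι₂ : K →+* ℝ} (hι₂ : ∃ x : K, ((ι₂ x : ℝ) : ℂ) ≠ ι (algebraMap K M x))
    (hmod : ∀ α : 𝓞 K, (N : 𝓞 K) ∣ α - 1 → 0 < ι₂ (α : K) →
      HasArtinSymbol (Ideal.span {α}) (1 : Gal(H/K))) :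
    ∃ G : Gal(H/K) → ℂ → ℂ, (∀ σ, IsPartialZeta N σ (G σ)) ∧
      ∃ ε : Gal(H/K) → (𝓞 H)ˣ,
      (∀ σ, ι (algebraMap H M (ε σ : 𝓞 H)) = Complex.exp (-2 * deriv (G σ) 0)) ∧
      (∀ ρ σ, ρ ((ε σ : 𝓞 H) : H) = ((ε (ρ * σ) : 𝓞 H) : H)) ∧
      ∀ g : H →+* ℂ, (∃ x : K, g (algebraMap K H x) ≠ ι (algebraMap K M x)) →
        ∀ σ, ‖g ((ε σ : 𝓞 H) : H)‖ = 1 := by
  obtain ⟨⟨hram, hconj⟩, R, W, hW, ε, h1, h2, h3⟩ := klein_final_conj b₁ b₂ hK ι hH hd M₁ M₂ hsup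
    hK₁ hK₂ hs₁ hs₂ hN hN₁ hN₂ hM₁ hM₂
  have habH : IsAbelianGalois K H := IsAbelianGalois.tower_bot K H M
  have hKM : ∀ x : K, ι (algebraMap H M (algebraMap K H x)) = ι (algebraMap K M x) := fun x => by
    rw [← IsScalarTower.algebraMap_apply K H M]
  obtain ⟨G, hG, hG'⟩ := HeckeRQ.literal (K := K) (H := H) hK (ι.comp (algebraMap H M)) hH (ι₂ := ι₂)
    (by
      obtain ⟨x, hx⟩ := hι₂
      exact ⟨x, by rw [RingHom.comp_apply, hKM]; exact hx⟩) hN3 hram hmod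
    (fun R' hR' g hg y => hconj N hN ι₂ hι₂ R' hR' g (by
      obtain ⟨x, hx⟩ := hg
      exact ⟨x, by rw [RingHom.comp_apply, hKM] at hx; exact hx⟩) y)
  refine ⟨G, hG, ε, fun σ => ?_, h2, fun g hg => (h3 g hg).2⟩
  have h4 := (hG' R (fun g hg => (h3 g (by
    obtain ⟨x, hx⟩ := hg
    exact ⟨x, by rw [RingHom.comp_apply, hKM] at hx; exact hx⟩)).1) σ).2
  have h5 : deriv (W σ) 0 = deriv (G σ) 0 - deriv (G (R * σ)) 0 := by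
    rw [(hW σ).deriv_eq ((hG σ).isCont.sub (hG (R * σ)).isCont) (fun n _ => rfl)]
    exact (hG σ).isCont.deriv_sub (hG (R * σ)).isCont
  rw [h1, h5]
  congr 1
  linear_combination h4
end Pool.Agent.CMK
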