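import Pool.Agent.CMH.Euclid
import Pool.Agent.CMG.LNormOne

/-!
# K05: elements of norm `1` modulo `8N` in `ℤ[√-2]`

Adapt `CMG/LNormOne.lean` (`GaussianInt`). `s = ⟨0, 1⟩`, `s * s = -2`, `star s = -s`;
`A = 1 + star x`, `B = s * (1 - star x)`, so `s * A + B = 2 * s`; `w = A + t * B` with `t : ℤ`. Then
`x * w ≡ star w` mod `8N` (`x * w - star w = (x * star x - 1) * (1 - t * s)`). Choice of `t`
(`exists_t` there): for the odd primes `q ∣ N`: `q ∣ t` if `(q : O2) ∤ A`, `q ∤ t` if `(q : O2) ∣ A`; and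
`8 ∣ t` if `s ^ 6 ∤ A`, `t` odd if `s ^ 6 ∣ A` (`s ^ 6 = -8`). Odd `q ∣ N`: `(q : O2) ∤ w` (if `q ∣ w` and
`q ∣ A` then `q ∣ t B`, `q ∣ B`, `q ∣ 2 s`, impossible; if `q ∤ A` then `q ∣ t B` and `q ∤ w`), and if
`q ∣ norm w` then `q ∣ w * w` (from `x * w * w ≡ w * star w`, `x * star x ≡ 1`) so `q ∣ w`, impossible.
The power of `s`: if `s ^ 6 ∤ A` then `s ^ 6 ∣ t B`, so `s ^ 6 ∤ w`; if `s ^ 6 ∣ A` then
`B = 2 s - s A = -s ^ 3 - s A` is divisible by `s ^ 3` but not by `s ^ 4`, `t` is odd, so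
`s ^ 4 ∤ w`. Hence `w = s ^ k * u` with `k ≤ 5` and `u.norm` odd (`s ∣ a` iff `a.norm` is even iff `a.re` is
even), `star w = (-1) ^ k * s ^ k * star u`, and `s ^ k * (x * u - (-1) ^ k * star u) = x * w - star w` is
divisible by `8 N = -s ^ 6 N`; cancel `s ^ k`. `ε = (-1) ^ k`.
-/

set_option autoImplicit false

noncomputable section

open Pool.Agent.CMH

namespace Pool.Agent.CMK

private lemma q_dvd_iff (q : ℤ) (w : O2) : ((q : ℤ) : O2) ∣ w ↔ q ∣ w.re ∧ q ∣ w.im := by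
  exact Zsqrtd.intCast_dvd q w

private lemma norm_eq (w : O2) : ((w.norm : ℤ) : O2) = w * star w := by
  exact Zsqrtd.norm_eq_mul_conj w

private lemma norm_val (w : O2) : w.norm = w.re * w.re + 2 * (w.im * w.im) := by
  rw [Zsqrtd.norm_def]; ring

/-- squares modulo odd primes -/
private lemma sq_dvd {q : ℤ} (hq : Prime q) (hq2 : ¬ q ∣ 2) {w : O2}
    (h : ((q : ℤ) : O2) ∣ w * w) : ((q : ℤ) : O2) ∣ w := by
  rw [q_dvd_iff] at h ⊢
  obtain ⟨h1, h2⟩ := h
  have h1' : q ∣ w.re * w.re - 2 * (w.im * w.im) := by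
    have : (w * w).re = w.re * w.re - 2 * (w.im * w.im) := by
      simp only [Zsqrtd.re_mul]; ring
    rwa [this] at h1
  have h2' : q ∣ 2 * (w.re * w.im) := by
    have : (w * w).im = 2 * (w.re * w.im) := by
      simp only [Zsqrtd.im_mul]; ring
    rwa [this] at h2
  have h3 : q ∣ w.re * w.im := (hq.dvd_or_dvd h2').resolve_left hq2
  rcases hq.dvd_or_dvd h3 with h | h
  · refine ⟨h, ?_⟩
    have : q ∣ 2 * (w.im * w.im) := by
      have h4 : q ∣ w.re * w.re := h.mul_right _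
      have := dvd_sub h4 h1'
      simpa using this
    exact (hq.dvd_or_dvd ((hq.dvd_or_dvd this).resolve_left hq2)).elim id id
  · refine ⟨?_, h⟩
    have : q ∣ w.re * w.re := by
      have h4 : q ∣ 2 * (w.im * w.im) := (h.mul_right _).mul_left _
      have := dvd_add h1' h4
      simpa using this
    exact (hq.dvd_or_dvd this).elim id id

private def ss : O2 := ⟨0, 1⟩

private lemma ss_sq : ss * ss = -2 := by
  ext <;> simp [ss]

private lemma ss_ne : ss ≠ 0 := by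
  intro h
  have := congrArg Zsqrtd.im h
  simp [ss] at this

private lemma ss_six : ss ^ 6 = -8 := by
  have h : ss ^ 6 = (ss * ss) * (ss * ss) * (ss * ss) := by ring
  rw [h, ss_sq]; norm_num

private lemma ss_star : star ss = -ss := by
  ext <;> simp [ss]

private lemma ss_dvd {w : O2} (h : Even w.norm) : ss ∣ w := by
  rw [norm_val] at h
  have h1 : Even w.re := by
    rcases Int.even_or_odd w.re with h2 | h2
    · exact h2
    · exfalso
      have h3 : Even (2 * (w.im * w.im)) := even_two_mul _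
      exact (Int.not_even_iff_odd.mpr ((h2.mul h2).add_even h3)) h
  obtain ⟨m, hm⟩ := h1
  refine ⟨⟨w.im, -m⟩, ?_⟩
  ext
  · simp [ss]; linarith
  · simp [ss]

private lemma ss_norm : ss.norm = 2 := by
  rw [norm_val]; simp [ss]

private lemma s6_dvd_eight : ss ^ 6 ∣ (8 : O2) := by
  rw [ss_six]; exact ⟨-1, by ring⟩

/-- the choice of `t` -/
private lemma exists_t (N : ℕ) (hN0 : N ≠ 0) (A : O2) :
    ∃ t : ℤ, (∀ q : ℕ, q.Prime → q ≠ 2 → q ∣ N →
      (((q : ℤ) : O2) ∣ A → ¬ (q : ℤ) ∣ t) ∧ (¬ ((q : ℤ) : O2) ∣ A → (q : ℤ) ∣ t)) ∧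
      (ss ^ 6 ∣ A → Odd t) ∧ (¬ ss ^ 6 ∣ A → 8 ∣ t) := by
  classical
  set S : Finset ℕ := N.primeFactors.filter fun q : ℕ => q ≠ 2 ∧ ¬ ((q : ℤ) : O2) ∣ A with hS
  have hodd : Odd (∏ q ∈ S, (q : ℤ)) := by
    refine Finset.prod_induction _ Odd (fun a b ha hb => ha.mul hb) odd_one ?_
    intro q hq
    rw [hS, Finset.mem_filter] at hq
    exact_mod_cast (Nat.prime_of_mem_primeFactors hq.1).odd_of_ne_two hq.2.1
  have key : ∀ q : ℕ, q.Prime → q ≠ 2 → q ∣ N →
      (((q : ℤ) : O2) ∣ A → ¬ (q : ℤ) ∣ ∏ q ∈ S, (q : ℤ)) ∧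
      (¬ ((q : ℤ) : O2) ∣ A → (q : ℤ) ∣ ∏ q ∈ S, (q : ℤ)) := by
    intro q hq hq2 hqN
    refine ⟨fun hA hd => ?_, fun hA => ?_⟩
    · obtain ⟨r, hr, hd'⟩ := (Prime.dvd_finsetProd_iff (Nat.prime_iff_prime_int.mp hq) _).mp hd
      rw [hS, Finset.mem_filter] at hr
      have h1 : q ∣ r := by exact_mod_cast hd'
      have h2 := (Nat.prime_dvd_prime_iff_eq hq (Nat.prime_of_mem_primeFactors hr.1)).mp h1
      subst h2
      exact hr.2.2 hA
    · apply Finset.dvd_prod_of_mem (fun q : ℕ => (q : ℤ))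
      rw [hS, Finset.mem_filter]
      exact ⟨Nat.mem_primeFactors.mpr ⟨hq, hqN, hN0⟩, hq2, hA⟩
  by_cases h3 : ss ^ 6 ∣ A
  · exact ⟨_, key, fun _ => hodd, fun h => absurd h3 h⟩
  · refine ⟨8 * ∏ q ∈ S, (q : ℤ), ?_, fun h => absurd h h3, fun _ => dvd_mul_right _ _⟩
    intro q hq hq2 hqN
    refine ⟨fun hA hd => ?_, fun hA => ((key q hq hq2 hqN).2 hA).mul_left _⟩
    have hp := Nat.prime_iff_prime_int.mp hq
    rcases hp.dvd_or_dvd hd with h | h
    · have h1 : (q : ℤ) ∣ 2 ^ 3 := by norm_num; exact h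
      have h2 : (q : ℤ) ∣ 2 := hp.dvd_of_dvd_pow h1
      have h3 : q ∣ 2 := by exact_mod_cast h2
      exact hq2 ((Nat.prime_dvd_prime_iff_eq hq Nat.prime_two).mp h3)
    · exact (key q hq hq2 hqN).1 hA h

/-- extraction of the power of `√-2` -/
private lemma extract : ∀ (n : ℕ) (w : O2), ¬ ss ^ n ∣ w →
    ∃ (k : ℕ) (u : O2), k < n ∧ w = ss ^ k * u ∧ Odd u.norm := by
  intro n
  induction n with
  | zero => exact fun w h => absurd (by rw [pow_zero]; exact one_dvd w) h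
  | succ n ih =>
    intro w h
    by_cases e0 : Odd w.norm
    · exact ⟨0, w, by omega, by simp, e0⟩
    obtain ⟨w1, hw1⟩ := ss_dvd (Int.not_odd_iff_even.mp e0)
    have h1 : ¬ ss ^ n ∣ w1 := by
      rintro ⟨c, hc⟩
      exact h ⟨c, by rw [hw1, hc, pow_succ]; ring⟩
    obtain ⟨k, u, hk, hu, ho⟩ := ih w1 h1
    exact ⟨k + 1, u, by omega, by rw [hw1, hu, pow_succ]; ring, ho⟩

theorem norm_one_lemma {N : ℕ} (hN0 : N ≠ 0) {x : O2}
    (hn : ((8 * N : ℕ) : O2) ∣ x * star x - 1) :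
    ∃ ε u : O2, IsUnit ε ∧ IsCoprime u (N : O2) ∧ (N : O2) ∣ x * u - ε * star u := by
  set A : O2 := 1 + star x with hA
  set B : O2 := ss * (1 - star x) with hB
  have hAB : ss * A + B = 2 * ss := by rw [hA, hB]; ring
  obtain ⟨t, ht1, ht2, ht3⟩ := exists_t N hN0 A
  set w : O2 := A + (t : O2) * B with hw
  have hwst : star w = 1 + x - (t : O2) * (ss * (1 - x)) := by
    rw [hw, hA, hB]
    simp only [star_add, star_mul, star_sub, star_star, star_one, ss_star, star_intCast]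
    ring
  have hxw : ((8 * N : ℕ) : O2) ∣ x * w - star w := by
    have h1 : x * w - star w = (x * star x - 1) * (1 - (t : O2) * ss) := by
      rw [hwst, hw, hA, hB]; ring
    rw [h1]
    exact hn.mul_right _
  -- odd primes
  have hodd : ∀ q : ℕ, q.Prime → q ≠ 2 → q ∣ N → ¬ (q : ℤ) ∣ w.norm := by
    intro q hq hq2 hqN hd
    have hp := Nat.prime_iff_prime_int.mp hq
    have hq2' : ¬ (q : ℤ) ∣ 2 := by
      intro h
      have h3 : q ∣ 2 := by exact_mod_cast h
      exact hq2 ((Nat.prime_dvd_prime_iff_eq hq Nat.prime_two).mp h3)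
    have hqN' : ((q : ℤ) : O2) ∣ ((8 * N : ℕ) : O2) := by
      obtain ⟨m, hm⟩ := hqN
      exact ⟨((8 * m : ℕ) : O2), by rw [hm]; push_cast; ring⟩
    have h1 : ((q : ℤ) : O2) ∣ w * star w := by
      rw [← norm_eq]
      obtain ⟨m, hm⟩ := hd
      exact ⟨(m : O2), by rw [hm]; push_cast; ring⟩
    have h2 : ((q : ℤ) : O2) ∣ x * (w * w) := by
      have h3 : x * (w * w) = (x * w - star w) * w + w * star w := by ring
      rw [h3]
      exact dvd_add ((hqN'.trans hxw).mul_right _) h1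
    have h4 : ((q : ℤ) : O2) ∣ w * w := by
      have h5 : w * w = star x * (x * (w * w)) - (x * star x - 1) * (w * w) := by ring
      rw [h5]
      exact dvd_sub (h2.mul_left _) ((hqN'.trans hn).mul_right _)
    have h6 := sq_dvd hp hq2' h4
    by_cases hqA : ((q : ℤ) : O2) ∣ A
    · have h7 : ((q : ℤ) : O2) ∣ (t : O2) * B := by
        have h8 : (t : O2) * B = w - A := by rw [hw]; ring
        rw [h8]
        exact dvd_sub h6 hqA
      have h9 : ((q : ℤ) : O2) ∣ B := by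
        rw [q_dvd_iff] at h7 ⊢
        have e1 : ((t : O2) * B).re = t * B.re := by simp [Zsqrtd.re_mul]
        have e2 : ((t : O2) * B).im = t * B.im := by simp [Zsqrtd.im_mul]
        rw [e1, e2] at h7
        have hnt := (ht1 q hq hq2 hqN).1 hqA
        exact ⟨(hp.dvd_or_dvd h7.1).resolve_left hnt, (hp.dvd_or_dvd h7.2).resolve_left hnt⟩
      have h10 : ((q : ℤ) : O2) ∣ 2 * ss := by
        rw [← hAB]
        exact dvd_add (hqA.mul_left _) h9
      rw [q_dvd_iff] at h10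
      have e3 : (2 * ss : O2).im = 2 := by simp [ss]
      exact hq2' (e3 ▸ h10.2)
    · apply hqA
      have h7 : A = w - (t : O2) * B := by rw [hw]; ring
      rw [h7]
      refine dvd_sub h6 (Dvd.dvd.mul_right ?_ _)
      obtain ⟨m, hm⟩ := (ht1 q hq hq2 hqN).2 hqA
      exact ⟨(m : O2), by rw [hm]; push_cast; ring⟩
  -- the prime `√-2`
  have h3w : ¬ ss ^ 6 ∣ w := by
    intro h
    by_cases h3 : ss ^ 6 ∣ A
    · have ht := ht2 h3
      have h4 : ss ^ 6 ∣ (t : O2) * B := by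
        have h8 : (t : O2) * B = w - A := by rw [hw]; ring
        rw [h8]
        exact dvd_sub h h3
      have h5 : (t : O2) * ss ^ 3 = -((t : O2) * B) - (t : O2) * ss * A := by
        have h6 : ss ^ 3 = -(2 * ss) := by
          have : ss ^ 3 = ss * ss * ss := by ring
          rw [this, ss_sq]; ring
        rw [h6, ← hAB]; ring
      have h6 : ss ^ 6 ∣ (t : O2) * ss ^ 3 := by
        rw [h5]
        exact dvd_sub (h4.neg_right) (h3.mul_left _)
      have h7 : ss ^ 3 ∣ (t : O2) := by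
        obtain ⟨c, hc⟩ := h6
        refine ⟨c, mul_right_cancel₀ (pow_ne_zero 3 ss_ne) ?_⟩
        rw [hc]; ring
      have h8 : ss ∣ (t : O2) := (dvd_pow_self ss (by norm_num)).trans h7
      obtain ⟨c, hc⟩ := h8
      have h9 := congrArg Zsqrtd.re hc
      simp [ss] at h9
      rw [h9] at ht
      exact (Int.not_even_iff_odd.mpr ht) (by simp)
    · apply h3
      have h7 : A = w - (t : O2) * B := by rw [hw]; ring
      rw [h7]
      refine dvd_sub h (Dvd.dvd.mul_right ?_ _)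
      obtain ⟨m, hm⟩ := ht3 h3
      refine s6_dvd_eight.trans ⟨(m : O2), by rw [hm]; push_cast; ring⟩
  obtain ⟨k, u, hk, hwu, hu⟩ := extract 6 w h3w
  have hnw : w.norm = ss.norm ^ k * u.norm := by
    rw [hwu, Zsqrtd.norm_mul]
    congr 1
    exact map_pow (Zsqrtd.normMonoidHom (d := -2)) ss k
  refine ⟨(-1 : O2) ^ k, u, (isUnit_one.neg).pow k, ?_, ?_⟩
  · have hc : IsCoprime u.norm (N : ℤ) := by
      rw [Int.isCoprime_iff_gcd_eq_one]
      by_contra hg
      obtain ⟨q, hq, hqd⟩ := Nat.exists_prime_and_dvd hg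
      have hd1 : (q : ℤ) ∣ u.norm := (Int.natCast_dvd_natCast.mpr hqd).trans (Int.gcd_dvd_left _ _)
      have hd2 : (q : ℤ) ∣ (N : ℤ) := (Int.natCast_dvd_natCast.mpr hqd).trans (Int.gcd_dvd_right _ _)
      have hd2' : q ∣ N := by exact_mod_cast hd2
      by_cases h2 : q = 2
      · subst h2
        exact (Int.not_even_iff_odd.mpr hu) (even_iff_two_dvd.mpr hd1)
      · exact hodd q hq h2 hd2' (hnw ▸ hd1.mul_left _)
    obtain ⟨a, b, hab⟩ := hc
    refine ⟨(a : O2) * star u, (b : O2), ?_⟩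
    have h1 := congrArg (fun z : ℤ => (z : O2)) hab
    simp only [Int.cast_add, Int.cast_mul, Int.cast_one, norm_eq, Int.cast_natCast] at h1
    linear_combination h1
  · obtain ⟨y, hy⟩ := hxw
    have hst : star w = (-1 : O2) ^ k * ss ^ k * star u := by
      rw [hwu, star_mul, star_pow, ss_star, neg_pow]; ring
    obtain ⟨m, hm⟩ : ∃ m, 6 = k + m := ⟨6 - k, by omega⟩
    have h1 : ss ^ k * (x * u - (-1 : O2) ^ k * star u) =
        ss ^ k * ((N : O2) * (-(ss ^ m * y))) := by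
      have h2 : ss ^ k * (x * u - (-1 : O2) ^ k * star u) = x * w - star w := by
        rw [hst]
        conv_rhs => rw [hwu]
        ring
      have h3 : (8 : O2) = -(ss ^ k * ss ^ m) := by
        rw [← pow_add, ← hm, ss_six]; ring
      rw [h2, hy]
      push_cast
      rw [h3]; ring
    exact ⟨_, mul_left_cancel₀ (pow_ne_zero k ss_ne) h1⟩

end Pool.Agent.CMK
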