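import Pool.Agent.CMK.Base
import Pool.Agent.CMK.NormH

/-!
# K06: the property `NormOne` for `ℚ(i)` and `ℚ(√-2)`

`normOne_I`: `e : 𝓞 k ≃+* GaussianInt` from `CMG.exists_iso`, with `(e a : ℂ) = algebraMap k ℂ a`. For
`c ≠ 1` in `k ≃ₐ[ℚ] k` one has `e (cj c a) = star (e a)`: `c j = -j` (`(c j) ^ 2 = -1`; if `c j = j` then
`c = 1` as every element of `k` is a quotient of elements `re + im * j`), see the proof of `heE` in
`CMG/LArtConj.lean` (`artin_commutator`). Transfer `CMG.norm_one_lemma` (`CMG/LNormOne.lean`) through `e`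
(as there). `normOne_s2`: the same with `CMH.exists_iso` (`CMH/Iso.lean`, `O2`, `s2`) and
`CMK.norm_one_lemma` (`NormH.lean`).
-/

set_option autoImplicit false

noncomputable section

open NumberField Module Pool.Agent.StarkRQ Pool.Agent.CMG

namespace Pool.Agent.CMK

/-- the nontrivial automorphism changes the sign of the second coordinate -/
private lemma ntr_conj {k : Type} [Field k] [NumberField k] {j : k} {n : ℤ} (hjj : j * j = (n : k))
    (re im : 𝓞 k → ℤ) (hdec : ∀ a : 𝓞 k, (a : k) = (re a : k) + (im a : k) * j)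
    {c : k ≃ₐ[ℚ] k} (hc : c ≠ 1) (a : 𝓞 k) : c (a : k) = (re a : k) + (im a : k) * (-j) := by
  have hcdec : ∀ a : 𝓞 k, c (a : k) = (re a : k) + (im a : k) * c j := by
    intro a
    have h1 := congrArg c (hdec a)
    rwa [map_add, map_mul, map_intCast, map_intCast] at h1
  have hcj : c j = -j := by
    have h1 : c j * c j = (n : k) := by rw [← map_mul, hjj, map_intCast]
    have h2 : (c j - j) * (c j + j) = 0 := by linear_combination h1 - hjj
    rcases mul_eq_zero.1 h2 with h3 | h3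
    · exfalso
      apply hc
      have h4 : c j = j := sub_eq_zero.1 h3
      have h5 : ∀ a : 𝓞 k, c (a : k) = a := fun a => by rw [hcdec, h4, ← hdec]
      ext x
      obtain ⟨u, v, hv, rfl⟩ := IsFractionRing.div_surjective (A := 𝓞 k) x
      rw [map_div₀, AlgEquiv.one_apply]
      rw [show c (algebraMap (𝓞 k) k u) = algebraMap (𝓞 k) k u from h5 u,
        show c (algebraMap (𝓞 k) k v) = algebraMap (𝓞 k) k v from h5 v]
    · exact eq_neg_of_add_eq_zero_left h3
  rw [hcdec, hcj]

/-- transfer of the norm one lemma through an isomorphism -/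
private lemma ntr_transfer {k : Type} [Field k] [NumberField k] {R : Type} [CommRing R] [StarRing R]
    (e : 𝓞 k ≃+* R) {N : ℕ} (c : k ≃ₐ[ℚ] k) (hce : ∀ a : 𝓞 k, e (cj c a) = star (e a))
    (hR : ∀ x : R, ((8 * N : ℕ) : R) ∣ x * star x - 1 →
      ∃ ε u : R, IsUnit ε ∧ IsCoprime u (N : R) ∧ (N : R) ∣ x * u - ε * star u)
    (x : 𝓞 k) (hx : ((8 * N : ℕ) : 𝓞 k) ∣ x * cj c x - 1) :
    ∃ ε u : 𝓞 k, IsUnit ε ∧ IsCoprime u (N : 𝓞 k) ∧ (N : 𝓞 k) ∣ x * u - ε * cj c u := by
  have h1 : ((8 * N : ℕ) : R) ∣ e x * star (e x) - 1 := by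
    obtain ⟨y, hy⟩ := hx
    refine ⟨e y, ?_⟩
    rw [← hce, ← map_mul, ← map_one e, ← map_sub, hy, map_mul, map_natCast]
  obtain ⟨ε, u, hε, hu, hdvd⟩ := hR (e x) h1
  have hεe : e (e.symm ε) = ε := e.apply_symm_apply ε
  have hue : e (e.symm u) = u := e.apply_symm_apply u
  refine ⟨e.symm ε, e.symm u, hε.map e.symm, ?_, ?_⟩
  · have := hu.map e.symm.toRingHom
    simpa using this
  · obtain ⟨y, hy⟩ := hdvd
    refine ⟨e.symm y, ?_⟩
    apply e.injective
    rw [map_sub, map_mul, map_mul, hce, hεe, hue, map_mul, map_natCast, e.apply_symm_apply, hy]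

theorem normOne_I {k : Type} [Field k] [NumberField k] [Algebra k ℂ] (hk : finrank ℚ k = 2)
    (hI : ∃ j : k, algebraMap k ℂ j = Complex.I) {N : ℕ} (hN : N ≠ 0) : NormOne k N (8 * N) := by
  intro c hc x hx
  obtain ⟨e, he⟩ := CMG.exists_iso hk hI
  obtain ⟨j, hj⟩ := hI
  have hjj : j * j = ((-1 : ℤ) : k) := by
    apply (algebraMap k ℂ).injective
    rw [map_mul, hj, Complex.I_mul_I, map_intCast]
    norm_num
  have hdec : ∀ a : 𝓞 k, (a : k) = ((e a).re : k) + ((e a).im : k) * j := by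
    intro a
    apply (algebraMap k ℂ).injective
    rw [← he, map_add, map_mul, hj, map_intCast, map_intCast, GaussianInt.toComplex_def]
  have h1 := ntr_conj hjj (fun a => (e a).re) (fun a => (e a).im) hdec hc
  refine ntr_transfer e c ?_ (fun x hx => CMG.norm_one_lemma hN hx) x hx
  intro a
  apply GaussianInt.toComplex_injective
  have h2 : ((cj c a : 𝓞 k) : k) = c (a : k) := rfl
  rw [he, h2, h1, map_add, map_mul, map_neg, hj, map_intCast, map_intCast,
    GaussianInt.toComplex_star, GaussianInt.toComplex_def]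
  simp

private theorem ntr_toC_inj : Function.Injective (CMH.toC : CMH.O2 → ℂ) := by
  rw [injective_iff_map_eq_zero]
  intro a ha
  have h : (a.re : ℂ) + a.im * CMH.s2 = 0 := ha
  have h0 : Real.sqrt 2 ≠ 0 := by positivity
  have h1 := congrArg Complex.re h
  have h2 := congrArg Complex.im h
  simp [CMH.s2_re, CMH.s2_im] at h1 h2
  exact Zsqrtd.ext h1 h2

theorem normOne_s2 {k : Type} [Field k] [NumberField k] [Algebra k ℂ] (hk : finrank ℚ k = 2)
    (hI : ∃ j : k, algebraMap k ℂ j = CMH.s2) {N : ℕ} (hN : N ≠ 0) : NormOne k N (8 * N) := by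
  intro c hc x hx
  obtain ⟨e, he⟩ := CMH.exists_iso hk hI
  obtain ⟨j, hj⟩ := hI
  have hjj : j * j = ((-2 : ℤ) : k) := by
    apply (algebraMap k ℂ).injective
    rw [map_mul, hj, CMH.s2_mul_s2, map_intCast]
    norm_num
  have hdec : ∀ a : 𝓞 k, (a : k) = ((e a).re : k) + ((e a).im : k) * j := by
    intro a
    apply (algebraMap k ℂ).injective
    rw [← he, map_add, map_mul, hj, map_intCast, map_intCast, CMH.coe_def]
  have h1 := ntr_conj hjj (fun a => (e a).re) (fun a => (e a).im) hdec hc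
  refine ntr_transfer e c ?_ (fun x hx => norm_one_lemma hN hx) x hx
  intro a
  apply ntr_toC_inj
  have h2 : ((cj c a : 𝓞 k) : k) = c (a : k) := rfl
  rw [he, h2, h1, map_add, map_mul, map_neg, hj, map_intCast, map_intCast, CMH.coe_def]
  simp

end Pool.Agent.CMK
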