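import Pool.Agent.CMG.LRamF
import Pool.Agent.CMG.SComb
import Pool.Agent.CMG.Rho
import Pool.Agent.CMG.FrobActs
import Pool.Agent.CMG.ModelEx

/-!
# K00: residue fields of the primes of `k(h(1/N))`

`model`: copy of the private definition `mkModel` in `CMG/ModelEx.lean`.

`exists_pow_unit`: let `p = P.under (𝓞 k)`; `p = (π)` by `D.pid`, `p ≠ ⊥`, `π` is prime and prime to `N`
(`(N : 𝓞 F) ∉ P`; see `exists_alpha` in `CMG/SComb.lean`). `absNorm P = absNorm p ^ f` and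
`absNorm p = nrm π` (same place). A Frobenius element `φ` of `Gal(F/k)` at `P`
(`IsArithFrobAt.exists_of_isInvariant (R := 𝓞 k) (G := Gal(F/k)) (Q := P)`, as in `norm_eq_of_dvd` in
`CMG/SComb.lean`) satisfies `φ x ≡ x ^ nrm π` mod `P` for all `x : 𝓞 F`, hence
`φ ^ f x ≡ x ^ (absNorm P) ≡ x` mod `P` (induction; `pow_norm_sub_mem` in `SComb`), so `φ ^ f = 1` by
`inertia_trivial D hDN hN A` (`CMG/LRamF.lean`). By `frob_acts D hDN hN A` (`CMG/FrobActs.lean`)
`φ (A.θ 1) = A.θ π`. Let `ρ` be as in `exists_rho D hDN hN A` (`CMG/Rho.lean`). Then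
`ρ (cls N π _)` and `φ` agree on `A.θ 1`, hence are equal (`A.gen`:
`IntermediateField.adjoin k {A.θ 1} = ⊤`; e.g. `AlgHom.ext_of_adjoin_eq_top` or an induction), so
`ρ (cls N π _ ^ f) = 1` and `cls N π _ ^ f ∈ (ucls N).range`, which is
`(N : 𝓞 k) ∣ π ^ f - ε` (`Ideal.Quotient.eq`, `Ideal.mem_span_singleton`).
-/

set_option autoImplicit false

noncomputable section

open NumberField Module Pool.Agent.StarkRQ Pool.Agent.CMG

namespace Pool.Agent.CMK

/-- the model -/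
private def powModel {k : Type} [Field k] [NumberField k] [Algebra k ℂ] (D : EllData k) {N : ℕ}
    (hN : D.N₀ ∣ N) (hN0 : N ≠ 0)
    [NumberField (IntermediateField.adjoin k {D.h (pt (1 : 𝓞 k) N)})] :
    Model D N (IntermediateField.adjoin k {D.h (pt (1 : 𝓞 k) N)}) := by
  classical
  exact
  { κ := (IntermediateField.adjoin k {D.h (pt (1 : 𝓞 k) N)}).val
    θ := fun a => if ha : IsCoprime a (N : 𝓞 k) then ⟨D.h (pt a N), D.h_mem N a hN hN0 ha⟩ else 0
    ψ := fun α a => if h : IsCoprime α ((D.m * N : ℕ) : 𝓞 k) ∧ IsCoprime a (N : 𝓞 k) then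
      ⟨D.Ψ α (pt a N), D.Ψ_mem N α a hN hN0 h.1 h.2⟩ else 0
    κθ := by
      intro a ha
      simp [ha]
    κψ := by
      intro α a hα ha
      rw [dif_pos ⟨hα, ha⟩]
      rfl
    gen := by
      have h1 : IsCoprime (1 : 𝓞 k) (N : 𝓞 k) := isCoprime_one_left
      rw [dif_pos h1]
      apply IntermediateField.map_injective
        (IntermediateField.adjoin k {D.h (pt (1 : 𝓞 k) N)}).val
      rw [IntermediateField.adjoin_map, Set.image_singleton, ← AlgHom.fieldRange_eq_map,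
        IntermediateField.fieldRange_val]
      rfl
    act := by
      intro τ
      obtain ⟨c, hc, h1, h2⟩ := D.act N hN hN0 τ
      refine ⟨c, hc, fun a ha => ?_, fun α a hα ha => ?_⟩
      · have hca : IsCoprime (c * a) (N : 𝓞 k) := hc.mul_left ha
        rw [dif_pos ha, dif_pos hca]
        exact Subtype.ext (h1 a ha)
      · have hca : IsCoprime (c * a) (N : 𝓞 k) := hc.mul_left ha
        rw [dif_pos ⟨hα, ha⟩, dif_pos ⟨hα, hca⟩]
        exact Subtype.ext (h2 α a hα ha) }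

/-- the model `IntermediateField.adjoin k {D.h (pt 1 N)}` -/
theorem exists_model' {k : Type} [Field k] [NumberField k] [Algebra k ℂ] (D : EllData k) {N : ℕ}
    (hDN : D.N₀ ∣ N) (hN : N ≠ 0)
    [NumberField (IntermediateField.adjoin k {D.h (pt (1 : 𝓞 k) N)})] :
    ∃ A : Model D N (IntermediateField.adjoin k {D.h (pt (1 : 𝓞 k) N)}),
      A.κ = (IntermediateField.adjoin k {D.h (pt (1 : 𝓞 k) N)}).val :=
  ⟨powModel D hDN hN, rfl⟩

private theorem pow_norm_sub {K : Type*} [Field K] [NumberField K] {P : Ideal (𝓞 K)}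
    (hP : P.IsPrime) (hP0 : P ≠ ⊥) (x : 𝓞 K) : x ^ Ideal.absNorm P - x ∈ P := by
  have hm : P.IsMaximal := hP.isMaximal hP0
  let := Ideal.Quotient.field P
  have hfin : Finite (𝓞 K ⧸ P) := Ideal.finiteQuotientOfFreeOfNeBot P hP0
  let := Fintype.ofFinite (𝓞 K ⧸ P)
  have h1 := FiniteField.pow_card (Ideal.Quotient.mk P x)
  have h2 : Fintype.card (𝓞 K ⧸ P) = Ideal.absNorm P := by
    rw [← Nat.card_eq_fintype_card, ← Submodule.cardQuot_apply, ← Ideal.absNorm_apply]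
  rwa [h2, ← map_pow, Ideal.Quotient.eq] at h1

/-- powers of an automorphism which is the `q`-th power map modulo `P` -/
private theorem frob_pow {K L : Type*} [Field K] [Field L] [NumberField L] [Algebra K L]
    {P : Ideal (𝓞 L)} {q : ℕ} {φ : Gal(L/K)}
    (hφ : ∀ x : 𝓞 L, φ • x - x ^ q ∈ P) (n : ℕ) (x : 𝓞 L) :
    (φ ^ n) • x - x ^ (q ^ n) ∈ P := by
  induction n generalizing x with
  | zero => simp
  | succ n ih =>
    have h1 : (φ ^ (n + 1)) • x = (φ ^ n) • (φ • x) := by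
      rw [pow_succ, mul_smul]
    have h2 := ih (φ • x)
    have h3 : (φ • x) ^ (q ^ n) - (x ^ q) ^ (q ^ n) ∈ P :=
      P.mem_of_dvd (sub_dvd_pow_sub_pow _ _ _) (hφ x)
    have h4 : (φ ^ (n + 1)) • x - x ^ (q ^ (n + 1)) =
        ((φ ^ n) • (φ • x) - (φ • x) ^ (q ^ n)) + ((φ • x) ^ (q ^ n) - (x ^ q) ^ (q ^ n)) := by
      rw [h1, ← pow_mul, pow_succ, mul_comm (q ^ n) q]
      ring
    rw [h4]
    exact P.add_mem h2 h3

theorem exists_pow_unit {k : Type} [Field k] [NumberField k] [Algebra k ℂ] (D : EllData k) {N : ℕ}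
    (hDN : D.N₀ ∣ N) (hN : N ≠ 0) {F : Type} [Field F] [NumberField F] [Algebra k F] [IsGalois k F]
    (A : Model D N F) {P : Ideal (𝓞 F)} (hP : P.IsPrime) (hP0 : P ≠ ⊥) (hNP : (N : 𝓞 F) ∉ P) :
    ∃ (π : 𝓞 k) (f : ℕ) (ε : (𝓞 k)ˣ), Prime π ∧ IsCoprime π (N : 𝓞 k) ∧
      P.comap (algebraMap (𝓞 k) (𝓞 F)) = Ideal.span {π} ∧
      Ideal.absNorm P = nrm π ^ f ∧ (N : 𝓞 k) ∣ π ^ f - (ε : 𝓞 k) := by
  have hpid := D.pid
  have hm : P.IsMaximal := hP.isMaximal hP0
  let p : Ideal (𝓞 k) := P.under (𝓞 k)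
  have hp0 : p ≠ ⊥ := Ideal.under_ne_bot _ hP0
  have hp : p.IsPrime := inferInstance
  have hpm : p.IsMaximal := hp.isMaximal hp0
  let := Ideal.Quotient.field p
  let := Ideal.Quotient.field P
  have hfin : Finite (𝓞 F ⧸ P) := Ideal.finiteQuotientOfFreeOfNeBot P hP0
  obtain ⟨φ, hφ⟩ := exists_cong_over (M := F) hp0 (Q := P) rfl
  obtain ⟨f, hf⟩ : ∃ f : ℕ, Ideal.absNorm P = Ideal.absNorm p ^ f := by
    refine ⟨Module.finrank (𝓞 k ⧸ p) (𝓞 F ⧸ P), ?_⟩
    rw [Ideal.absNorm_apply, Ideal.absNorm_apply, Submodule.cardQuot_apply,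
      Submodule.cardQuot_apply]
    exact Module.natCard_eq_pow_finrank
  obtain ⟨π, hπ⟩ := (IsPrincipalIdealRing.principal p).principal
  have hπ' : p = Ideal.span {π} := hπ
  have hπ0 : π ≠ 0 := by
    rintro rfl
    apply hp0
    rw [hπ', Ideal.span_singleton_eq_bot]
  have hπp : Prime π := (Ideal.span_singleton_prime hπ0).1 (by rw [← hπ']; exact hp)
  have hπN : IsCoprime π (N : 𝓞 k) := by
    have hRp : (N : 𝓞 k) ∉ p := by
      intro h
      apply hNP
      have h2 : algebraMap (𝓞 k) (𝓞 F) (N : 𝓞 k) ∈ P := h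
      rwa [map_natCast] at h2
    obtain ⟨y, i, hi, hyi⟩ := hpm.exists_inv hRp
    rw [hπ', Ideal.mem_span_singleton] at hi
    obtain ⟨c, rfl⟩ := hi
    exact ⟨c, y, by linear_combination hyi⟩
  have hφ' : ∀ x : 𝓞 F, φ • x - x ^ nrm π ∈ P := by
    intro x
    have h1 := hφ x
    have h2 : Ideal.absNorm p = nrm π := by rw [hπ']
    rw [← h2]
    exact h1
  have hf' : Ideal.absNorm P = nrm π ^ f := by rw [hf, hπ']
  have hπP : algebraMap (𝓞 k) (𝓞 F) π ∈ P := by
    have : π ∈ p := by rw [hπ']; exact Ideal.mem_span_singleton_self π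
    exact this
  have h1 : φ ^ f = 1 := by
    refine inertia_trivial D hDN hN A hP hπp hπN hπP fun x => ?_
    have h2 := frob_pow hφ' f x
    have h3 := pow_norm_sub hP hP0 x
    rw [hf'] at h3
    have h4 := P.add_mem h2 h3
    rwa [sub_add_sub_cancel] at h4
  have h2 : φ (A.θ 1) = A.θ π := frob_acts D hDN hN A hP hπp hπN hπ' hφ'
  obtain ⟨ρ, hρ1, -, hρ3⟩ := exists_rho D hDN hN A
  have h3 : ρ (cls N π hπN) = φ := by
    have h4 : ρ (cls N π hπN) (A.θ 1) = φ (A.θ 1) := by rw [hρ1, h2]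
    ext x
    have hx : x ∈ IntermediateField.adjoin k {A.θ 1} := by
      rw [A.gen]
      exact IntermediateField.mem_top
    induction hx using IntermediateField.adjoin_induction with
    | mem y hy =>
      rw [Set.mem_singleton_iff] at hy
      rw [hy, h4]
    | algebraMap y => rw [AlgEquiv.commutes, AlgEquiv.commutes]
    | add y z _ _ hy hz => rw [map_add, map_add, hy, hz]
    | inv y _ hy => rw [map_inv₀, map_inv₀, hy]
    | mul y z _ _ hy hz => rw [map_mul, map_mul, hy, hz]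
  have h5 : ρ (cls N π hπN ^ f) = 1 := by rw [map_pow, h3, h1]
  obtain ⟨ε, hε⟩ := (hρ3 _).1 h5
  refine ⟨π, f, ε, hπp, hπN, hπ', hf', ?_⟩
  have h6 := congrArg (fun u : (𝓞 k ⧸ Ideal.span {(N : 𝓞 k)})ˣ =>
    (u : 𝓞 k ⧸ Ideal.span {(N : 𝓞 k)})) hε
  have h7 : Ideal.Quotient.mk (Ideal.span {(N : 𝓞 k)}) (ε : 𝓞 k) =
      Ideal.Quotient.mk (Ideal.span {(N : 𝓞 k)}) (π ^ f) := by
    rw [map_pow]
    exact h6
  rw [eq_comm, Ideal.Quotient.eq, Ideal.mem_span_singleton] at h7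
  exact h7

end Pool.Agent.CMK
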