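import Pool.Agent.CMK.PowUnit
import Pool.Agent.CMK.MulConj

/-!
# K01: the field `k(h(1/N))` contains the `N`-th roots of unity

Let `F = IntermediateField.adjoin k {D.h (pt 1 N)}` (number field: `D.finite`,
`NumberField.of_module_finite`; `D.isGalois`), `A` the model of `exists_model'` (`PowUnit.lean`), and
`F' = CyclotomicField N F`. We show `finrank F F' = 1` with `split_trivial`
(`CMG/SplitTriv.lean`), exactly as at the end of the proof of `exists_comb` in `CMG/SComb.lean`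
(copy `norm_eq_of_dvd` from there, it is private, with `g := N`, and the set `S` of the ideals
containing `(N : 𝓞 F)`): it is enough that `N ∣ absNorm P - 1` for every nonzero prime `P` of `𝓞 F` with
`(N : 𝓞 F) ∉ P`. By `exists_pow_unit` `absNorm P = nrm π ^ f` and `N ∣ π ^ f - ε`. Multiplying by the
conjugates (`mul_cj` in `MulConj.lean` for some `c ≠ 1` in `k ≃ₐ[ℚ] k`; `D.isComplex`,
`D.finrank_eq`): `nrm π ^ f = π ^ f * cj c (π ^ f)`, and modulo `N` this is
`ε * cj c ε = nrm ε = 1`. So `N` divides `nrm π ^ f - 1` in `𝓞 k`, hence in `ℤ` (an integer that is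
divisible by `N` in `𝓞 k` is divisible by `N` in `ℤ`: the quotient is rational and integral).
Finally `finrank F F' = 1` gives a primitive `N`-th root of unity `ζ` in `F` (end of `exists_comb`);
`ζ` as a complex number is a primitive `N`-th root of unity and
`exp(2πi/N)` is a power of it (`Complex.isPrimitiveRoot_exp`, `IsPrimitiveRoot.eq_pow_of_pow_eq_one`).
-/

set_option autoImplicit false

noncomputable section

open NumberField Module Pool.Agent.StarkRQ Pool.Agent.CMG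

namespace Pool.Agent.CMK

private theorem norm_eq_of_dvd {M M' : Type} [Field M] [NumberField M] [Field M'] [NumberField M']
    [Algebra M M'] {g : ℕ} [NeZero g] [IsCyclotomicExtension {g} M M'] {𝔮 : Ideal (𝓞 M')}
    (h𝔮 : 𝔮.IsPrime) (h0 : 𝔮 ≠ ⊥) (hg : (g : 𝓞 M') ∉ 𝔮)
    (hd : g ∣ Ideal.absNorm (𝔮.comap (algebraMap (𝓞 M) (𝓞 M'))) - 1) :
    Ideal.absNorm 𝔮 = Ideal.absNorm (𝔮.comap (algebraMap (𝓞 M) (𝓞 M'))) := by
  have hm : 𝔮.IsMaximal := h𝔮.isMaximal h0
  have hgal : IsGalois M M' := IsCyclotomicExtension.isGalois {g} M M'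
  let P : Ideal (𝓞 M) := 𝔮.comap (algebraMap (𝓞 M) (𝓞 M'))
  have hP0 : P ≠ ⊥ := Ideal.under_ne_bot (𝓞 M) h0
  have hP : P.IsPrime := Ideal.IsPrime.comap _
  have hfin : Finite (𝓞 M' ⧸ 𝔮) := Ideal.finiteQuotientOfFreeOfNeBot 𝔮 h0
  have hfin' : Finite (𝓞 M ⧸ P) := Ideal.finiteQuotientOfFreeOfNeBot P hP0
  have hcP : Nat.card (𝓞 M ⧸ P) = Ideal.absNorm P := by
    rw [Ideal.absNorm_apply, Submodule.cardQuot_apply]
  have hcq : Nat.card (𝓞 M' ⧸ 𝔮) = Ideal.absNorm 𝔮 := by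
    rw [Ideal.absNorm_apply, Submodule.cardQuot_apply]
  have hpos : Ideal.absNorm P ≠ 0 := fun h => hP0 (Ideal.absNorm_eq_zero_iff.1 h)
  have hone : Ideal.absNorm P ≠ 1 := fun h => hP.ne_top (Ideal.absNorm_eq_one_iff.1 h)
  obtain ⟨τ, hτ⟩ := IsArithFrobAt.exists_of_isInvariant (R := 𝓞 M) (G := Gal(M'/M)) (Q := 𝔮)
  have hζ := IsCyclotomicExtension.zeta_spec g M M'
  have h1 : τ = 1 := by
    have h2 := hτ.apply_of_pow_eq_one (ζ := hζ.toInteger) (m := g)
      hζ.toInteger_isPrimitiveRoot.pow_eq_one hg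
    have h3 : Nat.card (𝓞 M ⧸ 𝔮.under (𝓞 M)) = Ideal.absNorm P := hcP
    rw [h3] at h2
    obtain ⟨c, hc⟩ := hd
    have h4 : Ideal.absNorm P = g * c + 1 := by
      have h5 : Ideal.absNorm P - 1 = g * c := hc
      omega
    rw [h4, pow_succ, pow_mul, hζ.toInteger_isPrimitiveRoot.pow_eq_one, one_pow, one_mul] at h2
    have h5 : τ (IsCyclotomicExtension.zeta g M M') = IsCyclotomicExtension.zeta g M M' :=
      congrArg (algebraMap (𝓞 M') M') h2
    have h6 : (τ : M' →ₐ[M] M') = AlgHom.id M M' := by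
      refine (hζ.powerBasis M).algHom_ext ?_
      rw [IsPrimitiveRoot.powerBasis_gen]
      exact h5
    exact AlgEquiv.ext fun x => DFunLike.congr_fun h6 x
  have h2 : ∀ x : 𝓞 M' ⧸ 𝔮, x ^ Ideal.absNorm P = x := by
    intro x
    obtain ⟨y, rfl⟩ := Ideal.Quotient.mk_surjective x
    have h3 := hτ y
    have h4 : Nat.card (𝓞 M ⧸ 𝔮.under (𝓞 M)) = Ideal.absNorm P := hcP
    rw [h4, h1] at h3
    have h5 : (1 : Gal(M'/M)) • y - y ^ Ideal.absNorm P ∈ 𝔮 := h3
    rw [one_smul] at h5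
    rw [← map_pow, eq_comm, Ideal.Quotient.eq]
    exact h5
  refine le_antisymm ?_ ?_
  · let := Ideal.Quotient.field 𝔮
    let := Fintype.ofFinite (𝓞 M' ⧸ 𝔮)
    classical
    have h3 : 1 < Ideal.absNorm P := by omega
    have h4 : (Finset.univ : Finset (𝓞 M' ⧸ 𝔮)) ⊆
        (Polynomial.X ^ Ideal.absNorm P - Polynomial.X : Polynomial (𝓞 M' ⧸ 𝔮)).roots.toFinset := by
      intro x _
      rw [Multiset.mem_toFinset, Polynomial.mem_roots
        (FiniteField.X_pow_card_sub_X_ne_zero (𝓞 M' ⧸ 𝔮) h3), Polynomial.IsRoot.def]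
      simp [h2 x]
    have h5 := (Finset.card_le_card h4).trans ((Multiset.toFinset_card_le _).trans
      (Polynomial.card_roots' _))
    rw [FiniteField.X_pow_card_sub_X_natDegree_eq (𝓞 M' ⧸ 𝔮) h3, Finset.card_univ,
      ← Nat.card_eq_fintype_card, hcq] at h5
    exact h5
  · rw [← hcq]
    show Ideal.absNorm P ≤ _
    rw [← hcP]
    exact Nat.card_le_card_of_injective _
      (Ideal.quotientMap_injective (I := 𝔮) (f := algebraMap (𝓞 M) (𝓞 M')))

/-- An integer divisible by `N` in the ring of integers. -/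
private theorem int_dvd {k : Type} [Field k] [NumberField k] {N : ℕ} (hN : N ≠ 0) {z : ℤ}
    (h : (N : 𝓞 k) ∣ (z : 𝓞 k)) : (N : ℤ) ∣ z := by
  obtain ⟨c, hc⟩ := h
  have h1 : (z : k) = (N : k) * (c : k) := by
    have := congrArg (algebraMap (𝓞 k) k) hc
    rw [map_mul, map_natCast, map_intCast] at this
    exact this
  have hNk : (N : k) ≠ 0 := by exact_mod_cast hN
  have hNQ : (N : ℚ) ≠ 0 := by exact_mod_cast hN
  have h2 : algebraMap ℚ k ((z : ℚ) / (N : ℚ)) = (c : k) := by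
    rw [map_div₀, map_intCast, map_natCast, div_eq_iff hNk, h1, mul_comm]
  have h3 : IsIntegral ℤ ((z : ℚ) / (N : ℚ)) := by
    rw [← isIntegral_algebraMap_iff (algebraMap ℚ k).injective, h2]
    exact c.isIntegral_coe
  obtain ⟨y, hy⟩ := IsIntegrallyClosed.isIntegral_iff.1 h3
  refine ⟨y, ?_⟩
  have h4 : (y : ℚ) = (z : ℚ) / (N : ℚ) := hy
  rw [eq_div_iff hNQ] at h4
  have h5 : (y : ℚ) * (N : ℚ) = z := h4
  have h6 : y * (N : ℤ) = z := by exact_mod_cast h5
  rw [← h6, mul_comm]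

private theorem exists_conj {k : Type} [Field k] [NumberField k] (hk : finrank ℚ k = 2) :
    ∃ c : k ≃ₐ[ℚ] k, c ≠ 1 := by
  have hq : Algebra.IsQuadraticExtension ℚ k := ⟨hk⟩
  have hcard : Nat.card (k ≃ₐ[ℚ] k) = 2 := by
    rw [← hk]
    exact IsGalois.card_aut_eq_finrank ℚ k
  have hfin : Finite (k ≃ₐ[ℚ] k) := Nat.finite_of_card_ne_zero (by omega)
  have hnt : Nontrivial (k ≃ₐ[ℚ] k) := by
    rw [← Finite.one_lt_card_iff_nontrivial]
    omega
  exact exists_ne 1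

private theorem dvd_norm {k : Type} [Field k] [NumberField k] (hk : finrank ℚ k = 2)
    [IsTotallyComplex k] {N : ℕ} (hN : N ≠ 0) {π : 𝓞 k} {f : ℕ} {ε : (𝓞 k)ˣ}
    (h : (N : 𝓞 k) ∣ π ^ f - (ε : 𝓞 k)) (hpos : nrm π ^ f ≠ 0) : N ∣ nrm π ^ f - 1 := by
  obtain ⟨c, hc⟩ := exists_conj hk
  have h1 : (π ^ f) * cj c (π ^ f) = ((nrm π ^ f : ℕ) : 𝓞 k) := by
    rw [map_pow, ← mul_pow, mul_cj hk hc, Nat.cast_pow]
  have h2 : (ε : 𝓞 k) * cj c (ε : 𝓞 k) = 1 := by
    rw [mul_cj hk hc, nrm, Ideal.span_singleton_eq_top.2 ε.isUnit, Ideal.absNorm_top, Nat.cast_one]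
  have h3 : (N : 𝓞 k) ∣ cj c (π ^ f) - cj c (ε : 𝓞 k) := by
    obtain ⟨d, hd⟩ := h
    refine ⟨cj c d, ?_⟩
    rw [← map_sub, hd, map_mul, map_natCast]
  have h4 : (N : 𝓞 k) ∣ ((nrm π ^ f : ℕ) : 𝓞 k) - 1 := by
    rw [← h1, ← h2]
    have e : π ^ f * cj c (π ^ f) - (ε : 𝓞 k) * cj c (ε : 𝓞 k) =
        (π ^ f - (ε : 𝓞 k)) * cj c (π ^ f) + (ε : 𝓞 k) * (cj c (π ^ f) - cj c (ε : 𝓞 k)) := by
      ring
    rw [e]
    exact dvd_add (h.mul_right _) (h3.mul_left _)
  have h5 : ((((nrm π ^ f - 1 : ℕ) : ℤ)) : 𝓞 k) = ((nrm π ^ f : ℕ) : 𝓞 k) - 1 := by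
    rw [Int.cast_natCast, Nat.cast_sub (Nat.one_le_iff_ne_zero.2 hpos), Nat.cast_one]
  rw [← h5] at h4
  exact_mod_cast int_dvd hN h4

theorem zeta_mem {k : Type} [Field k] [NumberField k] [Algebra k ℂ] (D : EllData k) {N : ℕ}
    (hDN : D.N₀ ∣ N) (hN : N ≠ 0) :
    Complex.exp (2 * Real.pi * Complex.I / N) ∈
      IntermediateField.adjoin k {D.h (pt (1 : 𝓞 k) N)} := by
  have hfin : FiniteDimensional k (IntermediateField.adjoin k {D.h (pt (1 : 𝓞 k) N)}) :=
    D.finite N hDN hN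
  have hnf : NumberField (IntermediateField.adjoin k {D.h (pt (1 : 𝓞 k) N)}) :=
    NumberField.of_module_finite k _
  have hgal : IsGalois k (IntermediateField.adjoin k {D.h (pt (1 : 𝓞 k) N)}) :=
    D.isGalois N hDN hN
  have htc : IsTotallyComplex k := D.isComplex
  obtain ⟨A, -⟩ := exists_model' D hDN hN
  set F := IntermediateField.adjoin k {D.h (pt (1 : 𝓞 k) N)} with hF
  have hdvd : ∀ P : Ideal (𝓞 F), P.IsPrime → P ≠ ⊥ → (N : 𝓞 F) ∉ P →
      N ∣ Ideal.absNorm P - 1 := by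
    intro P hP hP0 hNP
    obtain ⟨π, f, ε, -, -, -, hnorm, hd⟩ := exists_pow_unit D hDN hN A hP hP0 hNP
    have hne : Ideal.absNorm P ≠ 0 := fun h => hP0 (Ideal.absNorm_eq_zero_iff.1 h)
    rw [hnorm] at hne ⊢
    exact dvd_norm D.finrank_eq hN hd hne
  have hgz : NeZero N := ⟨hN⟩
  have hnf' : NumberField (CyclotomicField N F) :=
    IsCyclotomicExtension.numberField {N} F (CyclotomicField N F)
  have h1 : Module.finrank F (CyclotomicField N F) = 1 := by
    refine split_trivial (S := {I | (N : 𝓞 F) ∈ I}) ?_ ?_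
    · refine (Ideal.finite_setOfPred_absNorm_le (Ideal.absNorm
        (Ideal.span {(N : 𝓞 F)}))).subset fun I hI => ?_
      refine Nat.le_of_dvd (Nat.pos_of_ne_zero ?_) (Ideal.absNorm_dvd_absNorm_of_le ?_)
      · rw [Ne, Ideal.absNorm_eq_zero_iff, Ideal.span_singleton_eq_bot, Nat.cast_eq_zero]
        exact hN
      · rw [Ideal.span_singleton_le_iff_mem]
        exact hI
    · intro 𝔮 h𝔮 h0 hS
      rw [Set.mem_ofPred_eq, Ideal.mem_comap, map_natCast] at hS
      refine norm_eq_of_dvd (g := N) h𝔮 h0 hS ?_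
      refine hdvd _ (Ideal.IsPrime.comap _) (Ideal.under_ne_bot (𝓞 F) h0) ?_
      intro h
      apply hS
      rwa [Ideal.mem_comap, map_natCast] at h
  obtain ⟨ζ, hζ⟩ := (Algebra.finrank_eq_one_iff_bijective_algebraMap.1 h1).2
    (IsCyclotomicExtension.zeta N F (CyclotomicField N F))
  have h2 : IsPrimitiveRoot ζ N := by
    refine IsPrimitiveRoot.of_map_of_injective (f := algebraMap F (CyclotomicField N F)) ?_
      (algebraMap F (CyclotomicField N F)).injective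
    rw [hζ]
    exact IsCyclotomicExtension.zeta_spec N F (CyclotomicField N F)
  have h3 : IsPrimitiveRoot (ζ : ℂ) N :=
    h2.map_of_injective (f := algebraMap F ℂ) (algebraMap F ℂ).injective
  obtain ⟨i, -, hi⟩ := h3.eq_pow_of_pow_eq_one (Complex.isPrimitiveRoot_exp N hN).pow_eq_one
  rw [← hi]
  exact pow_mem ζ.2 i

end Pool.Agent.CMK
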